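import Pool.Agent.Helper61.SBOne

/-!
# Project SB: the profile for two places is invariant under the Galois group when `q ≤ r`
-/

set_option autoImplicit false

namespace Pool.Agent.Helper61.SBOne

open MvPolynomial Pool.Agent.Helper36.SB

section

variable {k K : Type*} [Field k] [Field K] [Algebra k K] [CharZero K] {r : ℕ}
  {ι : Type*} [DecidableEq ι]

omit [CharZero K] in
lemma od_of_coeff {f g : MvPolynomial (Fin r) K} (hg : g ≠ 0)
    (h : ∀ a : Fin r →₀ ℕ, coeff a g ≠ 0 → ∃ b : Fin r →₀ ℕ, b.degree = a.degree ∧ coeff b f ≠ 0) :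
    od f ≤ od g := by
  obtain ⟨a, ha, had⟩ := exists_od hg
  obtain ⟨b, hb, hbf⟩ := h a ha
  rw [← had, ← hb]
  exact od_le hbf

/-- If the points are permuted by an automorphism of the constants, the profile is invariant. -/
lemma wx_galois {p : Fin r → K} (hr : 2 ≤ r) (hp : Function.Injective p) (v₁ v₂ v : ι) (σ : K ≃ₐ[k] K)
    (hσ : ∀ l, ∃ l', p l' = σ (p l)) (f : MvPolynomial (Fin (r + 1)) K) :
    wx p v₁ v₂ v (map (σ : K →+* K) f) = wx p v₁ v₂ v f := by
  choose π hπ using hσ
  have hπi : Function.Injective π := by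
    intro i j hij
    apply hp
    apply σ.injective
    rw [← hπ, ← hπ, hij]
  have hπb : Function.Bijective π := Finite.injective_iff_bijective.1 hπi
  set π' : Fin r ≃ Fin r := Equiv.ofBijective π hπb with hπ'
  -- the automorphism of the coefficients
  set φ : MvPolynomial (Fin r) K ≃+* MvPolynomial (Fin r) K :=
    (mapEquiv (Fin r) (σ : K ≃+* K)).trans (renameEquiv K π').toRingEquiv with hφ
  have hφC : ∀ c : K, φ (C c) = C (σ c) := by
    intro c
    simp [hφ]
  have hφX : ∀ i, φ (X i) = X (π i) := by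
    intro i
    simp [hφ, hπ']
  have hPy : (Py p).map (φ : MvPolynomial (Fin r) K →+* MvPolynomial (Fin r) K) = Py p := by
    symm
    apply eq_map_Py hp
    · exact Py_monic hp
    · exact Py_natDegree hp
    · intro i
      rw [RingEquiv.coe_toRingHom, hφC, hφX, ← hπ, Py_eval hp]
  have hth : th p (map (σ : K →+* K) f) = φ (th p f) := by
    have h3 : (th p : MvPolynomial (Fin (r + 1)) K →+* MvPolynomial (Fin r) K).comp (map (σ : K →+* K)) =
        (φ : MvPolynomial (Fin r) K →+* MvPolynomial (Fin r) K).comp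
          (th p : MvPolynomial (Fin (r + 1)) K →+* MvPolynomial (Fin r) K) := by
      apply MvPolynomial.ringHom_ext
      · intro c
        have h4 : ∀ c : K, (th p) (C c) = C c := fun c => (th p).commutes c
        rw [RingHom.comp_apply, RingHom.comp_apply, map_C, RingHom.coe_coe, RingHom.coe_coe, h4, h4,
          RingEquiv.coe_toRingHom, hφC]
      · intro i
        rw [RingHom.comp_apply, RingHom.comp_apply, map_X, RingHom.coe_coe]
        unfold th
        rw [aeval_X]
        conv_lhs => rw [← hPy]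
        rw [Polynomial.coeff_map]
    exact DFunLike.congr_fun h3 f
  have hdl : φ (dl p) = dl p := by
    have h := discr_map (φ : MvPolynomial (Fin r) K →+* MvPolynomial (Fin r) K) (Py p)
      (by rw [Py_natDegree hp]; omega) (by rw [(Py_monic hp).leadingCoeff, map_one]; exact one_ne_zero)
    rw [hPy] at h
    exact h
  have hco : ∀ (g : MvPolynomial (Fin r) K) (a : Fin r →₀ ℕ),
      coeff (a.mapDomain π) (φ g) = σ (coeff a g) := by
    intro g a
    have h1 : φ g = rename π (map (σ : K →+* K) g) := by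
      simp only [hφ, RingEquiv.trans_apply, mapEquiv_apply]
      rfl
    rw [h1, coeff_rename_mapDomain _ hπi, coeff_map]
    rfl
  have hdeg : ∀ a : Fin r →₀ ℕ, (a.mapDomain π).degree = a.degree := by
    intro a
    rw [Finsupp.degree_mapDomain]
  have hod : ∀ g : MvPolynomial (Fin r) K, g ≠ 0 → od (φ g) = od g := by
    intro g hg
    have hφg : φ g ≠ 0 := (map_ne_zero_iff φ φ.injective).2 hg
    apply le_antisymm
    · apply od_of_coeff hg
      intro a ha
      refine ⟨a.mapDomain π, hdeg a, ?_⟩
      rw [hco]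
      exact (map_ne_zero_iff σ σ.injective).2 ha
    · apply od_of_coeff hφg
      intro a ha
      have h1 : φ g = rename π (map (σ : K →+* K) g) := by
        simp only [hφ, RingEquiv.trans_apply, mapEquiv_apply]
        rfl
      rw [h1] at ha
      obtain ⟨b, hb, hb2⟩ := coeff_rename_ne_zero _ _ _ ha
      refine ⟨b, ?_, ?_⟩
      · rw [← hb, hdeg]
      · rw [coeff_map] at hb2
        intro h0
        apply hb2
        rw [h0, map_zero]
  unfold wx
  rw [hth]
  split_ifs
  · by_cases h0 : th p f = 0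
    · rw [h0, map_zero]
    · rw [hod _ h0]
  · congr 2
    have h1 : emultiplicity (dl p) (φ (th p f)) = emultiplicity (dl p) (th p f) := by
      conv_lhs => rw [← hdl]
      exact emultiplicity_map_eq φ
    unfold multiplicity
    rw [h1]
  · rfl

/-- The profile for two places has the value at least `min q r + 2 r - 2`. If `q ≤ r` it is invariant under all
automorphisms of the constants. -/
theorem two_places [Fintype ι] [CharZero k] [IsAlgClosed K] (hr : 2 ≤ r) {g : Polynomial k}
    (hg : Squarefree g) {v₁ v₂ : ι} (hv : v₁ ≠ v₂) :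
    ∃ w : ι → MvPolynomial (Fin (r + 1)) K → ℝ, IsProfile k r w ∧
      (g.natDegree ≤ r → ∀ (σ : K ≃ₐ[k] K) (v : ι) (f : MvPolynomial (Fin (r + 1)) K),
        w v (map (σ : K →+* K) f) = w v f) ∧
      ((min g.natDegree r : ℕ) : ℝ) + (2 * r - 2) ≤ ∑ v, (∑ a ∈ pts g K, w v (ev r a) + w v (disc K r)) := by
  classical
  obtain ⟨p, hp, ⟨T, hT, hTc, hTa⟩, hgal⟩ := exists_nodes (K := K) hg r
  have hprof : IsProfile k r (wx p v₁ v₂) := wx_isProfile hr hp hv
  refine ⟨wx p v₁ v₂, hprof, ?_, ?_⟩
  · intro hq σ v f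
    exact wx_galois hr hp v₁ v₂ v σ (hgal hq σ) f
  · have h1 : ∀ v a, 0 ≤ wx p v₁ v₂ v (ev r a) := fun v a =>
      hprof.nonneg v _ _ (ev_isHomogeneous K _ _) (ev_ne_zero K _ _)
    have h2 : ∀ v, 0 ≤ wx p v₁ v₂ v (disc K r) := fun v =>
      hprof.nonneg v _ _ (disc_isHomogeneous K _ (by omega)) (disc_ne_zero (by omega))
    rw [Finset.sum_add_distrib]
    refine add_le_add ?_ ?_
    · refine le_trans ?_ (Finset.single_le_sum (f := fun v => ∑ a ∈ pts g K, wx p v₁ v₂ v (ev r a))
        (fun v _ => Finset.sum_nonneg fun a _ => h1 v a) (Finset.mem_univ v₁))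
      rw [← hTc]
      calc ((T.card : ℕ) : ℝ) = ∑ _c ∈ T, (1 : ℝ) := by simp
        _ ≤ ∑ c ∈ T, wx p v₁ v₂ v₁ (ev r c) := by
            refine Finset.sum_le_sum fun c hc => ?_
            obtain ⟨l, rfl⟩ := hTa c hc
            rw [wx, if_pos rfl, od_th_ev_self hp]
            simp
        _ ≤ ∑ c ∈ pts g K, wx p v₁ v₂ v₁ (ev r c) :=
            Finset.sum_le_sum_of_subset_of_nonneg hT fun c _ _ => h1 v₁ c
    · refine le_trans ?_ (Finset.single_le_sum (f := fun v => wx p v₁ v₂ v (disc K r))
        (fun v _ => h2 v) (Finset.mem_univ v₂))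
      have h3 : multiplicity (dl p) (dl p) = 1 := multiplicity_self
      simp only [wx, if_neg hv.symm, if_true]
      rw [th_disc (by omega) hp, h3]
      simp

end

end Pool.Agent.Helper61.SBOne
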