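import Pool.Agent.Helper61.AltTie

set_option autoImplicit false
set_option linter.unusedSectionVars false

/-!
The total number of labelled words does not change when all signs are swapped, if the numbers of
positive and negative letters differ by one and `n > 2`.
-/

namespace Pool.Agent.Helper61.Alt

lemma us_not {k : ℕ} (ε : Fin k → Bool) (q : ℕ → Fin k) (t : ℕ) :
    us (fun a => !(ε a)) q t = (-1) ^ t * us ε q t := by
  induction t with
  | zero => simp [us_zero]
  | succ t ih =>
    rw [us_succ, ih, us_succ, sg_not]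
    ring

lemma us_mul {k : ℕ} (ε : Fin k → Bool) (q : ℕ → Fin k) (m : ℕ) (hper : ∀ i, q (i + m) = q i)
    (c : ℕ) : us ε q (c * m) = us ε q m ^ c := by
  induction c with
  | zero => simp [us_zero]
  | succ c ih =>
    rw [Nat.succ_mul, us_add ε q m hper, ih, pow_succ]
    ring

/-- Sum of `g` over the words of length `N` whose minimal period is `d`. -/
noncomputable def G {k : ℕ} (N : ℕ) [NeZero N] (d : ℕ) (g : (ℕ → Fin k) → ℤ) : ℤ :=
  ∑ w : ZMod N → Fin k, if Function.minimalPeriod shift (seq w) = d then g (seq w) else 0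

lemma seq_injective {A : Type*} (N : ℕ) [NeZero N] :
    Function.Injective (seq : (ZMod N → A) → (ℕ → A)) := by
  intro w w' h
  funext i
  have := congrFun h i.val
  simp only [seq] at this
  rwa [ZMod.natCast_zmod_val] at this

lemma exists_seq {A : Type*} (N : ℕ) [NeZero N] (q : ℕ → A) (h : ∀ i, q (i + N) = q i) :
    ∃ w : ZMod N → A, seq w = q := by
  refine ⟨fun i => q i.val, ?_⟩
  funext t
  simp only [seq]
  rw [ZMod.val_natCast]
  exact Function.Periodic.map_mod_nat (f := q) h t

lemma mp_per {A : Type*} {q : ℕ → A} {d : ℕ} (h : Function.minimalPeriod shift q = d) (i : ℕ) :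
    q (i + d) = q i := by
  have h1 : Function.IsPeriodicPt shift d q := by
    rw [← h]; exact Function.isPeriodicPt_minimalPeriod _ _
  have h2 : shift^[d] q = q := h1
  rw [shift_iterate] at h2
  exact congrFun h2 i

lemma G_eq {k : ℕ} (N d : ℕ) [NeZero N] [NeZero d] (hd : d ∣ N) (g : (ℕ → Fin k) → ℤ) :
    G N d g = G d d g := by
  classical
  unfold G
  rw [← Finset.sum_filter, ← Finset.sum_filter]
  have hlift : ∀ w : ZMod N → Fin k, Function.minimalPeriod shift (seq w) = d →
      ∃ w' : ZMod d → Fin k, seq w' = seq w := fun w h => exists_seq d _ (mp_per h)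
  refine Finset.sum_bij' (fun w hw => (hlift w (Finset.mem_filter.mp hw).2).choose)
    (fun w' hw' => (exists_seq N (seq w') (fun i => by
      obtain ⟨c, hc⟩ := hd
      have hp : Function.Periodic (seq w') d := mp_per (Finset.mem_filter.mp hw').2
      have := hp.nat_mul c
      rw [hc, mul_comm]
      exact this i)).choose) ?_ ?_ ?_ ?_ ?_
  · intro w hw
    rw [Finset.mem_filter]
    refine ⟨Finset.mem_univ _, ?_⟩
    rw [(hlift w (Finset.mem_filter.mp hw).2).choose_spec]
    exact (Finset.mem_filter.mp hw).2
  · intro w' hw'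
    rw [Finset.mem_filter]
    refine ⟨Finset.mem_univ _, ?_⟩
    have := (exists_seq N (seq w') (fun i => by
      obtain ⟨c, hc⟩ := hd
      have hp : Function.Periodic (seq w') d := mp_per (Finset.mem_filter.mp hw').2
      have := hp.nat_mul c
      rw [hc, mul_comm]
      exact this i)).choose_spec
    rw [this]
    exact (Finset.mem_filter.mp hw').2
  · intro w hw
    apply seq_injective N
    have h1 := (hlift w (Finset.mem_filter.mp hw).2).choose_spec
    exact (Exists.choose_spec (p := fun w'' : ZMod N → Fin k => seq w'' = seq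
      (hlift w (Finset.mem_filter.mp hw).2).choose) _).trans h1
  · intro w' hw'
    apply seq_injective d
    have h1 := (exists_seq N (seq w') (fun i => by
      obtain ⟨c, hc⟩ := hd
      have hp : Function.Periodic (seq w') d := mp_per (Finset.mem_filter.mp hw').2
      have := hp.nat_mul c
      rw [hc, mul_comm]
      exact this i)).choose_spec
    exact (Exists.choose_spec (p := fun w'' : ZMod d → Fin k => seq w'' = _) _).trans h1
  · intro w hw
    rw [(hlift w (Finset.mem_filter.mp hw).2).choose_spec]

lemma sum_eq_sum_G {k : ℕ} (N : ℕ) [NeZero N] (g : (ℕ → Fin k) → ℤ) :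
    ∑ w : ZMod N → Fin k, g (seq w) = ∑ d ∈ N.divisors, G N d g := by
  unfold G
  rw [Finset.sum_comm]
  apply Finset.sum_congr rfl
  intro w _
  rw [Finset.sum_ite_eq, if_pos]
  rw [Nat.mem_divisors]
  exact ⟨mp_dvd w, NeZero.ne N⟩

lemma sum_us {k : ℕ} (ε : Fin k → Bool) (N : ℕ) [NeZero N] :
    ∑ w : ZMod N → Fin k, us ε (seq w) N = (∑ a, sg (ε a)) ^ N := by
  have h1 : ∀ w : ZMod N → Fin k, us ε (seq w) N = ∏ i : ZMod N, sg (ε (w i)) := by
    intro w
    unfold us
    refine Finset.prod_bij' (fun s _ => (s : ZMod N)) (fun i _ => i.val) ?_ ?_ ?_ ?_ ?_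
    · intro s _; exact Finset.mem_univ _
    · intro i _; exact Finset.mem_range.mpr (ZMod.val_lt i)
    · intro s hs
      exact ZMod.val_cast_of_lt (Finset.mem_range.mp hs)
    · intro i _; exact ZMod.natCast_zmod_val i
    · intro s _; rfl
  simp only [h1]
  have h2 := Finset.prod_univ_sum (fun _ : ZMod N => (Finset.univ : Finset (Fin k)))
    (fun _ a => sg (ε a))
  rw [Finset.prod_const, Finset.card_univ, ZMod.card, Fintype.piFinset_univ] at h2
  exact h2.symm

open Classical in
/-- The signed number of primitive words of length `d`. -/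
noncomputable def DD {k : ℕ} (ε : Fin k → Bool) (d : ℕ) : ℤ :=
  if h : d = 0 then 0 else @G k d ⟨h⟩ d (fun q => us ε q d)

lemma DD_eq {k : ℕ} (ε : Fin k → Bool) (d : ℕ) [hd : NeZero d] :
    DD ε d = G d d (fun q => us ε q d) := by
  unfold DD
  rw [dif_neg (NeZero.ne d)]

lemma sum_DD {k : ℕ} (ε : Fin k → Bool) (N : ℕ) [NeZero N] (hN : Odd N) :
    ∑ d ∈ N.divisors, DD ε d = (∑ a, sg (ε a)) ^ N := by
  rw [← sum_us, sum_eq_sum_G N (fun q => us ε q N)]
  apply Finset.sum_congr rfl
  intro d hd
  have hd' := Nat.dvd_of_mem_divisors hd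
  have hpos : 0 < d := Nat.pos_of_mem_divisors hd
  have : NeZero d := ⟨hpos.ne'⟩
  rw [DD_eq, ← G_eq N d hd']
  unfold G
  apply Finset.sum_congr rfl
  intro w _
  by_cases h : Function.minimalPeriod shift (seq w) = d
  · rw [if_pos h, if_pos h]
    obtain ⟨c, hc⟩ := hd'
    have hcodd : Odd c := by
      rw [hc] at hN
      exact Nat.Odd.of_mul_right hN
    have : us ε (seq w) (c * d) = us ε (seq w) d ^ c := us_mul ε (seq w) d (mp_per h) c
    rw [mul_comm] at this
    have h3 : us ε (seq w) N = us ε (seq w) (d * c) := congrArg _ hc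
    show us ε (seq w) d = us ε (seq w) N
    rw [h3, this]
    rcases us_eq_or ε (seq w) d with h' | h'
    · rw [h', one_pow]
    · rw [h', hcodd.neg_one_pow]
  · rw [if_neg h, if_neg h]

lemma DD_zero {k : ℕ} (ε : Fin k → Bool) (hε : ∑ a, sg (ε a) = 1) (N : ℕ) (hN : Odd N)
    (hN1 : 1 < N) : DD ε N = 0 := by
  induction N using Nat.strong_induction_on with
  | _ N ih =>
    have : NeZero N := ⟨by omega⟩
    have h1 := sum_DD ε N hN
    rw [hε, one_pow, ← Nat.insert_self_properDivisors (NeZero.ne N),
      Finset.sum_insert Nat.self_notMem_properDivisors] at h1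
    have h2 := sum_DD ε 1 odd_one
    rw [hε, one_pow, Nat.divisors_one, Finset.sum_singleton] at h2
    have h3 : ∑ d ∈ N.properDivisors, DD ε d = DD ε 1 := by
      rw [Finset.sum_eq_single 1]
      · intro d hd hd1
        have hdd := Nat.mem_properDivisors.mp hd
        have hpos : 0 < d := Nat.pos_of_mem_properDivisors hd
        exact ih d hdd.2 (Odd.of_dvd_nat hN hdd.1) (by omega)
      · intro h
        exact absurd (Nat.mem_properDivisors.mpr ⟨one_dvd _, hN1⟩) h
    rw [h3, h2] at h1
    linarith

/-- Swapping all signs does not change the total number of labelled words. -/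
theorem sum_cc_not {k : ℕ} (ε : Fin k → Bool) (hε : ∑ a, sg (ε a) = 1) (N : ℕ) [NeZero N]
    (hN : N ≠ 2) :
    ∑ w : ZMod N → Fin k, cc ε w = ∑ w : ZMod N → Fin k, cc (fun a => !(ε a)) w := by
  have key : ∑ w : ZMod N → Fin k, ((cc ε w : ℤ) - (cc (fun a => !(ε a)) w : ℤ)) = 0 := by
    by_cases hpar : ∃ h, N = 2 * h
    · obtain ⟨h, hh⟩ := hpar
      have hh0 : h ≠ 0 := by
        rintro rfl
        exact NeZero.ne N (by omega)
      have : NeZero h := ⟨hh0⟩
      have h1 : ∀ w : ZMod N → Fin k, ((cc ε w : ℤ) - (cc (fun a => !(ε a)) w : ℤ)) =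
          (((-1) ^ h - 1)) * (if Function.minimalPeriod shift (seq w) = h then
            us ε (seq w) h else 0) := by
        intro w
        rw [cc_eq, cc_eq]
        by_cases hm : Function.minimalPeriod shift (seq w) = h
        · have h2m : 2 * Function.minimalPeriod shift (seq w) = N := by omega
          rw [if_pos h2m, if_pos h2m, if_pos hm, us_not, hm]
          ring
        · have h2m : ¬ 2 * Function.minimalPeriod shift (seq w) = N := by omega
          rw [if_neg h2m, if_neg h2m, if_neg hm]
          ring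
      rw [Finset.sum_congr rfl (fun w _ => h1 w), ← Finset.mul_sum]
      have h2 : (∑ w : ZMod N → Fin k, if Function.minimalPeriod shift (seq w) = h then
            us ε (seq w) h else 0) = DD ε h := by
        rw [DD_eq, ← G_eq N h ⟨2, by omega⟩]
        rfl
      rw [h2]
      rcases Nat.even_or_odd h with he | ho
      · rw [he.neg_one_pow]; ring
      · rw [DD_zero ε hε h ho (by
          rcases Nat.lt_or_ge 1 h with h3 | h3
          · exact h3
          · exfalso; apply hN; omega)]
        ring
    · apply Finset.sum_eq_zero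
      intro w _
      rw [cc_eq, cc_eq]
      have h2m : ¬ 2 * Function.minimalPeriod shift (seq w) = N := fun hc => hpar ⟨_, hc.symm⟩
      rw [if_neg h2m, if_neg h2m]
      ring
  rw [Finset.sum_sub_distrib, sub_eq_zero] at key
  exact_mod_cast key

end Pool.Agent.Helper61.Alt
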