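import Pool.Agent.Helper61.AltCount

set_option autoImplicit false
set_option linter.unusedSectionVars false

/-!
Pairs (cyclic permutation, segmentation) and labelled cyclic words.
-/

namespace Pool.Agent.Helper61.Alt

open Equiv

/-- `s` assigns to each position its block: `s` is weakly increasing and `π` is increasing
(decreasing) on the blocks of sign `true` (`false`). -/
def Valid {n k : ℕ} (ε : Fin k → Bool) (π : Perm (Fin n)) (s : Fin n → Fin k) : Prop :=
  (∀ i j, i < j → s i ≤ s j) ∧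
  (∀ i j, i < j → s i = s j → (ε (s i) = true → π i < π j) ∧ (ε (s i) = false → π j < π i))

variable {n : ℕ} [NeZero n] {k : ℕ}

/-- The rotation transported by a labelling. -/
def permOf (φ : ZMod n ≃ Fin n) : Perm (Fin n) := (φ.symm.trans (Equiv.addRight 1)).trans φ

lemma permOf_apply (φ : ZMod n ≃ Fin n) (i : ZMod n) : permOf φ (φ i) = φ (i + 1) := by
  simp [permOf]

lemma permOf_pow (φ : ZMod n ≃ Fin n) (t : ℕ) (i : ZMod n) :
    (permOf φ ^ t) (φ i) = φ (i + t) := by
  induction t with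
  | zero => simp
  | succ t ih =>
    rw [pow_succ', Perm.mul_apply, ih, permOf_apply]
    push_cast
    ring_nf

lemma permOf_cyc (φ : ZMod n ≃ Fin n) : (permOf φ).IsCycleOn Set.univ := by
  refine ⟨Set.bijOn_univ.mpr (permOf φ).bijective, ?_⟩
  intro x _ y _
  refine ⟨((φ.symm y - φ.symm x).val : ℤ), ?_⟩
  rw [zpow_natCast]
  have := permOf_pow φ (φ.symm y - φ.symm x).val (φ.symm x)
  rw [Equiv.apply_symm_apply, ZMod.natCast_zmod_val] at this
  rw [this]
  simp

lemma valid_permOf {ε : Fin k → Bool} {w : ZMod n → Fin k} {φ : ZMod n ≃ Fin n}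
    (h : PValid ε w φ) : Valid ε (permOf φ) (w ∘ φ.symm) := by
  constructor
  · intro i j hij
    exact h.1 _ _ (by simpa using hij)
  · intro i j hij hs
    have := h.2 (φ.symm i) (φ.symm j) (by simpa using hij) hs
    have e1 := permOf_apply φ (φ.symm i)
    have e2 := permOf_apply φ (φ.symm j)
    rw [Equiv.apply_symm_apply] at e1 e2
    rw [e1, e2]
    exact this

lemma pvalid_of_valid {ε : Fin k → Bool} {s : Fin n → Fin k} {φ : ZMod n ≃ Fin n}
    (h : Valid ε (permOf φ) s) : PValid ε (s ∘ φ) φ := by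
  constructor
  · intro i j hij
    exact h.1 _ _ hij
  · intro i j hij hs
    have := h.2 _ _ hij hs
    rw [permOf_apply, permOf_apply] at this
    exact this

lemma exists_label (π : Perm (Fin n)) (hπ : π.IsCycleOn Set.univ) (x : Fin n) :
    ∃ φ : ZMod n ≃ Fin n, permOf φ = π ∧ φ 0 = x := by
  have hπ' : π.IsCycleOn ((Finset.univ : Finset (Fin n)) : Set (Fin n)) := by
    simpa using hπ
  let f : ZMod n → Fin n := fun i => (π ^ i.val) x
  have hsurj : Function.Surjective f := by
    intro y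
    obtain ⟨j, hj, hjy⟩ := hπ'.exists_pow_eq (Finset.mem_univ x) (Finset.mem_univ y)
    rw [Finset.card_univ, Fintype.card_fin] at hj
    refine ⟨(j : ZMod n), ?_⟩
    simp only [f]
    rw [ZMod.val_cast_of_lt hj, hjy]
  have hcard : Fintype.card (ZMod n) = Fintype.card (Fin n) := by simp [ZMod.card]
  have hb : Function.Bijective f := (Fintype.bijective_iff_surjective_and_card f).mpr ⟨hsurj, hcard⟩
  refine ⟨Equiv.ofBijective f hb, ?_, ?_⟩
  · ext y
    obtain ⟨i, rfl⟩ := (Equiv.ofBijective f hb).surjective y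
    rw [permOf_apply]
    show ((f (i + 1) : Fin n) : ℕ) = (π (f i) : ℕ)
    congr 1
    simp only [f]
    rw [← Perm.mul_apply, ← pow_succ']
    rw [hπ'.pow_apply_eq_pow_apply (Finset.mem_univ x), Finset.card_univ, Fintype.card_fin]
    rw [← ZMod.natCast_eq_natCast_iff]
    push_cast
    rw [ZMod.natCast_zmod_val, ZMod.natCast_zmod_val]
  · show f 0 = x
    simp [f]

open Classical in
/-- The number of pairs (cyclic permutation, segmentation). -/
noncomputable def TT (n : ℕ) {k : ℕ} (ε : Fin k → Bool) : ℕ :=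
  Fintype.card {p : Perm (Fin n) × (Fin n → Fin k) // p.1.IsCycleOn Set.univ ∧ Valid ε p.1 p.2}

theorem sum_cc_eq (ε : Fin k → Bool) : ∑ w : ZMod n → Fin k, cc ε w = TT n ε * n := by
  classical
  have h1 : ∑ w : ZMod n → Fin k, cc ε w =
      Fintype.card (Σ w : ZMod n → Fin k, {φ : ZMod n ≃ Fin n // PValid ε w φ}) := by
    rw [Fintype.card_sigma]
    apply Finset.sum_congr rfl
    intro w _
    unfold cc
    exact Fintype.card_congr (Equiv.refl _)
  have h2 : TT n ε * n = Fintype.card
      ({p : Perm (Fin n) × (Fin n → Fin k) // p.1.IsCycleOn Set.univ ∧ Valid ε p.1 p.2} × Fin n) := by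
    rw [Fintype.card_prod, Fintype.card_fin]
    unfold TT
    congr 1
  rw [h1, h2]
  let f : (Σ w : ZMod n → Fin k, {φ : ZMod n ≃ Fin n // PValid ε w φ}) →
      ({p : Perm (Fin n) × (Fin n → Fin k) // p.1.IsCycleOn Set.univ ∧ Valid ε p.1 p.2} × Fin n) :=
    fun q => (⟨(permOf q.2.1, q.1 ∘ q.2.1.symm), permOf_cyc _, valid_permOf q.2.2⟩, q.2.1 0)
  apply Fintype.card_of_bijective (f := f)
  constructor
  · rintro ⟨w, φ, h⟩ ⟨w', φ', h'⟩ heq
    simp only [f, Prod.mk.injEq, Subtype.mk.injEq] at heq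
    obtain ⟨⟨hp, hs⟩, h0⟩ := heq
    have hφ : φ = φ' := by
      ext i
      have e1 := permOf_pow φ i.val 0
      have e2 := permOf_pow φ' i.val 0
      rw [zero_add, ZMod.natCast_zmod_val] at e1 e2
      rw [← e1, ← e2, hp, h0]
    subst hφ
    have hw : w = w' := by
      funext i
      have := congrFun hs (φ i)
      simpa using this
    subst hw
    rfl
  · rintro ⟨⟨⟨π, s⟩, hπ, hs⟩, x⟩
    obtain ⟨φ, hφ, hx⟩ := exists_label π hπ x
    subst hφ
    refine ⟨⟨s ∘ φ, φ, pvalid_of_valid hs⟩, ?_⟩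
    simp only [f, Prod.mk.injEq, Subtype.mk.injEq]
    refine ⟨⟨trivial, ?_⟩, hx⟩
    funext i
    simp

/-- Swapping all signs does not change the number of pairs (cyclic permutation, segmentation). -/
theorem TT_not (ε : Fin k → Bool) (hε : ∑ a, sg (ε a) = 1) (hn : n ≠ 2) :
    TT n ε = TT n (fun a => !(ε a)) := by
  have h := sum_cc_not ε hε n hn
  rw [sum_cc_eq, sum_cc_eq] at h
  exact Nat.eq_of_mul_eq_mul_right (Nat.pos_of_ne_zero (NeZero.ne n)) h

end Pool.Agent.Helper61.Alt
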