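import Pool.Agent.Helper61.AltSeg
import Pool.Agent.Helper61.AltPerm

set_option autoImplicit false
set_option linter.unusedSectionVars false

/-!
Alternating signatures of odd size are c-Wilf-equivalent: assembly of the proof.
-/

namespace Pool.Agent.Helper61.Alt

open Equiv

/-- Chains of blocks. -/
def chain (K : ℕ) : (n : ℕ) → (ℕ → Bool) → ℕ → (Fin n → Fin (K + 1)) → Prop
  | 0, _, m, _ => m ≤ K
  | n + 1, l, m, s =>
      m ≤ ((s 0 : Fin (K + 1)) : ℕ) ∧ chain K n (fun i => l (i + 1)) (nx (l 0) (s 0)) (Fin.tail s)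

open Classical in
lemma card_chain (K : ℕ) : ∀ (n : ℕ) (l : ℕ → Bool) (m : ℕ),
    Fintype.card {s : Fin n → Fin (K + 1) // chain K n l m s} = cnt K n l m := by
  intro n
  induction n with
  | zero =>
    intro l m
    rw [Fintype.card_subtype]
    by_cases h : m ≤ K
    · have h1 : (Finset.univ.filter (fun s : Fin 0 → Fin (K + 1) => chain K 0 l m s)) =
          Finset.univ := Finset.filter_true_of_mem (fun s _ => h)
      rw [h1]
      simp [cnt, h]
    · have h1 : (Finset.univ.filter (fun s : Fin 0 → Fin (K + 1) => chain K 0 l m s)) = ∅ :=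
        Finset.filter_false_of_mem (fun s _ => h)
      rw [h1]
      simp [cnt, h]
  | succ n ih =>
    intro l m
    rw [Fintype.card_subtype, Finset.card_filter]
    rw [← Fintype.sum_equiv (Fin.consEquiv (fun _ : Fin (n + 1) => Fin (K + 1)))
      (fun p : Fin (K + 1) × (Fin n → Fin (K + 1)) =>
        if chain K (n + 1) l m (Fin.cons p.1 p.2) then 1 else 0) _ (fun p => rfl)]
    rw [Fintype.sum_prod_type]
    have h1 : ∀ b : Fin (K + 1), (∑ s' : Fin n → Fin (K + 1),
        if chain K (n + 1) l m (Fin.cons b s') then 1 else 0) =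
        if m ≤ (b : ℕ) then cnt K n (fun i => l (i + 1)) (nx (l 0) b) else 0 := by
      intro b
      by_cases hb : m ≤ (b : ℕ)
      · rw [if_pos hb, ← ih, Fintype.card_subtype, Finset.card_filter]
        apply Finset.sum_congr rfl
        intro s' _
        simp only [chain, Fin.cons_zero, Fin.tail_cons, hb, true_and]
      · rw [if_neg hb]
        apply Finset.sum_eq_zero
        intro s' _
        simp only [chain, Fin.cons_zero, hb, false_and, if_false]
    rw [Finset.sum_congr rfl (fun b _ => h1 b)]
    rw [Fin.sum_univ_eq_sum_range (fun b => if m ≤ b then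
      cnt K n (fun i => l (i + 1)) (nx (l 0) b) else 0) (K + 1)]
    rw [← Finset.sum_filter, cnt]
    apply Finset.sum_congr
    · ext b
      simp only [Finset.mem_filter, Finset.mem_range, Finset.mem_Icc]
      omega
    · intro b _; rfl

/-- Extension of the block function by the last block. -/
def ext (K : ℕ) {n : ℕ} (s : Fin n → Fin (K + 1)) (i : ℕ) : ℕ :=
  if h : i < n then (s ⟨i, h⟩ : ℕ) else K

lemma ext_tail (K : ℕ) {n : ℕ} (s : Fin (n + 1) → Fin (K + 1)) (i : ℕ) :
    ext K (Fin.tail s) i = ext K s (i + 1) := by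
  unfold ext
  by_cases h : i < n
  · rw [dif_pos h, dif_pos (by omega)]
    rfl
  · rw [dif_neg h, dif_neg (by omega)]

lemma chain_iff (K : ℕ) : ∀ (n : ℕ) (l : ℕ → Bool) (m : ℕ) (s : Fin n → Fin (K + 1)),
    chain K n l m s ↔ m ≤ ext K s 0 ∧ ∀ i < n, nx (l i) (ext K s i) ≤ ext K s (i + 1) := by
  intro n
  induction n with
  | zero =>
    intro l m s
    simp [chain, ext]
  | succ n ih =>
    intro l m s
    rw [chain, ih]
    have h0 : ext K s 0 = (s 0 : ℕ) := by simp [ext]
    rw [h0, ext_tail]
    constructor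
    · rintro ⟨h1, h2, h3⟩
      refine ⟨h1, ?_⟩
      intro i hi
      rcases i with _ | i
      · rw [h0]; exact h2
      · have := h3 i (by omega)
        rw [ext_tail, ext_tail] at this
        exact this
    · rintro ⟨h1, h2⟩
      refine ⟨h1, ?_, ?_⟩
      · have := h2 0 (by omega)
        rw [h0] at this
        exact this
      · intro i hi
        rw [ext_tail, ext_tail]
        exact h2 (i + 1) (by omega)

/-- The alternating signature of size `k` starting with `b` (`true` is `+`). -/
def altSig (k : ℕ) (b : Bool) (i : Fin k) : Bool := if (i : ℕ) % 2 = 0 then b else !b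

lemma altSig_eq (k : ℕ) (b : Bool) (i : Fin k) : altSig k b i = (par i == b) := by
  unfold altSig par
  by_cases h : (i : ℕ) % 2 = 0
  · rw [if_pos h]; simp [h]
  · rw [if_neg h]; simp [h]

/-- The extended word of ascents and descents. -/
def letters {n : ℕ} (b : Bool) (π : Perm (Fin n)) (i : ℕ) : Bool :=
  if h : i + 1 < n then (decide (π ⟨i, by omega⟩ < π ⟨i + 1, h⟩) == b) else true

lemma nx_le_iff {a : Bool} {b : ℕ} : nx a b ≤ b ↔ par b = a := by
  by_cases h : par b = a
  · rw [nx_of_par_eq h]; simp [h]
  · rw [nx_of_par_ne h]; simp [h]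

theorem valid_iff {n K : ℕ} (hK : Even K) (b : Bool) (π : Perm (Fin n))
    (s : Fin n → Fin (K + 1)) :
    Valid (altSig (K + 1) b) π s ↔ chain K n (letters b π) 0 s := by
  rw [chain_iff]
  constructor
  · intro h
    refine ⟨Nat.zero_le _, ?_⟩
    intro i hi
    by_cases hi1 : i + 1 < n
    · have e1 : ext K s i = (s ⟨i, hi⟩ : ℕ) := by unfold ext; rw [dif_pos hi]
      have e2 : ext K s (i + 1) = (s ⟨i + 1, hi1⟩ : ℕ) := by unfold ext; rw [dif_pos hi1]
      have hlt : (⟨i, hi⟩ : Fin n) < ⟨i + 1, hi1⟩ := by simp [Fin.lt_def]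
      have hle : (s ⟨i, hi⟩ : ℕ) ≤ s ⟨i + 1, hi1⟩ := h.1 _ _ hlt
      rw [e1, e2]
      rcases eq_or_lt_of_le hle with heq | hlt'
      · have heq' : s ⟨i, hi⟩ = s ⟨i + 1, hi1⟩ := Fin.ext heq
        have hv := h.2 _ _ hlt heq'
        rw [← heq, nx_le_iff]
        unfold letters
        rw [dif_pos hi1]
        rw [altSig_eq] at hv
        cases hp : par (s ⟨i, hi⟩ : ℕ) <;> cases b <;> rw [hp] at hv <;> simp at hv ⊢
        · exact hv
        · exact hv.le
        · exact hv.le
        · exact hv
      · have := le_nx (letters b π i) (s ⟨i, hi⟩ : ℕ)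
        have h2 : nx (letters b π i) (s ⟨i, hi⟩ : ℕ) ≤ (s ⟨i, hi⟩ : ℕ) + 1 := by
          unfold nx; split_ifs <;> omega
        omega
    · have e1 : ext K s i = (s ⟨i, hi⟩ : ℕ) := by unfold ext; rw [dif_pos hi]
      have e2 : ext K s (i + 1) = K := by unfold ext; rw [dif_neg hi1]
      have e3 : letters b π i = true := by unfold letters; rw [dif_neg hi1]
      rw [e1, e2, e3]
      have hs := (s ⟨i, hi⟩).2
      have hK' := Nat.even_iff.mp hK
      unfold nx
      split_ifs with h'
      · omega
      · have : ¬ (s ⟨i, hi⟩ : ℕ) % 2 = 0 := by simpa using h'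
        omega
  · rintro ⟨-, h⟩
    have hmono1 : ∀ i < n, ext K s i ≤ ext K s (i + 1) := fun i hi =>
      (le_nx _ _).trans (h i hi)
    have hmono : ∀ (d i : ℕ), i + d ≤ n → ext K s i ≤ ext K s (i + d) := by
      intro d
      induction d with
      | zero => intro i _; exact le_rfl
      | succ d ih =>
        intro i hi
        exact (ih i (by omega)).trans (hmono1 (i + d) (by omega))
    have hext : ∀ i : Fin n, ext K s i = (s i : ℕ) := by
      intro i; unfold ext; rw [dif_pos i.2]
    have hle : ∀ i j : Fin n, i < j → s i ≤ s j := by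
      intro i j hij
      have hij' : (i : ℕ) < j := hij
      have := hmono ((j : ℕ) - i) i (by omega)
      rw [show (i : ℕ) + ((j : ℕ) - i) = j by omega, hext, hext] at this
      exact this
    refine ⟨hle, ?_⟩
    -- adjacent steps
    have hadj : ∀ (i : ℕ) (hi : i + 1 < n), s ⟨i, by omega⟩ = s ⟨i + 1, hi⟩ →
        (altSig (K + 1) b (s ⟨i, by omega⟩) = true → π ⟨i, by omega⟩ < π ⟨i + 1, hi⟩) ∧
        (altSig (K + 1) b (s ⟨i, by omega⟩) = false → π ⟨i + 1, hi⟩ < π ⟨i, by omega⟩) := by
      intro i hi hs
      have h1 := h i (by omega)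
      have e1 : ext K s i = (s ⟨i, by omega⟩ : ℕ) := by unfold ext; rw [dif_pos (by omega)]
      have e2 : ext K s (i + 1) = (s ⟨i, by omega⟩ : ℕ) := by
        unfold ext; rw [dif_pos hi, hs]
      rw [e1, e2, nx_le_iff] at h1
      unfold letters at h1
      rw [dif_pos hi] at h1
      have hne : π ⟨i, by omega⟩ ≠ π ⟨i + 1, hi⟩ := by
        intro hc
        have := π.injective hc
        simp at this
      rw [altSig_eq, h1]
      rcases lt_or_gt_of_ne hne with h2 | h2
      · have h3 : decide (π ⟨i, by omega⟩ < π ⟨i + 1, hi⟩) = true := by simpa using h2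
        rw [h3]
        cases b <;> simp [h2]
      · have h3 : decide (π ⟨i, by omega⟩ < π ⟨i + 1, hi⟩) = false := by
          simpa using h2.le
        rw [h3]
        cases b <;> simp [h2]
    have hgen : ∀ (d : ℕ) (i : ℕ) (hi : i + d + 1 < n), s ⟨i, by omega⟩ = s ⟨i + d + 1, hi⟩ →
        (altSig (K + 1) b (s ⟨i, by omega⟩) = true → π ⟨i, by omega⟩ < π ⟨i + d + 1, hi⟩) ∧
        (altSig (K + 1) b (s ⟨i, by omega⟩) = false → π ⟨i + d + 1, hi⟩ < π ⟨i, by omega⟩) := by
      intro d
      induction d with
      | zero => intro i hi hs; exact hadj i hi hs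
      | succ d ih =>
        intro i hi hs
        have hmid : s ⟨i, by omega⟩ = s ⟨i + d + 1, by omega⟩ := by
          apply le_antisymm
          · exact hle _ _ (Fin.lt_def.mpr (by show i < i + d + 1; omega))
          · rw [hs]
            exact hle _ _ (Fin.lt_def.mpr (by show i + d + 1 < i + (d + 1) + 1; omega))
        have h1 := ih i (by omega) hmid
        have h2 := hadj (i + d + 1) (by omega) (by rw [← hmid]; exact hs)
        rw [← hmid] at h2
        constructor
        · intro he; exact (h1.1 he).trans (h2.1 he)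
        · intro he; exact (h2.2 he).trans (h1.2 he)
    intro i j hij hs
    have hij' : (i : ℕ) < j := hij
    have hj := j.2
    have := hgen ((j : ℕ) - i - 1) i (by omega)
    have e : (⟨(i : ℕ) + ((j : ℕ) - i - 1) + 1, by omega⟩ : Fin n) = j := Fin.ext (by simp; omega)
    rw [e] at this
    exact this hs

lemma lastL_eq (n : ℕ) : ∀ (a : Bool) (l : ℕ → Bool), 0 < n → lastL n a l = l (n - 1) := by
  induction n with
  | zero => intro a l h; omega
  | succ n ih =>
    intro a l _
    rw [lastL]
    rcases Nat.eq_zero_or_pos n with h | h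
    · subst h; rfl
    · rw [ih _ _ h]
      congr 1
      omega

/-- number of changes of the extended word of `π` -/
def rr {n : ℕ} (b : Bool) (π : Perm (Fin n)) : ℕ := chg n true (letters b π)

lemma lastL_letters {n : ℕ} (hn : 0 < n) (b : Bool) (π : Perm (Fin n)) :
    lastL n true (letters b π) = true := by
  rw [lastL_eq n _ _ hn]
  unfold letters
  rw [dif_neg (by omega)]

open Classical in
theorem card_valid {n K : ℕ} (hn : 0 < n) (hK : Even K) (b : Bool) (π : Perm (Fin n)) :
    (Fintype.card {s : Fin n → Fin (K + 1) // Valid (altSig (K + 1) b) π s} : ℤ) =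
      PowerSeries.coeff K (Gf n (rr b π)) := by
  have h1 : Fintype.card {s : Fin n → Fin (K + 1) // Valid (altSig (K + 1) b) π s} =
      cnt K n (letters b π) 0 := by
    rw [← card_chain]
    apply Fintype.card_congr
    exact Equiv.subtypeEquivRight (fun s => valid_iff hK b π s)
  rw [h1, cnt_eq K hK n (letters b π) 0 (lastL_letters hn b π), if_pos (Nat.zero_le _), PP_eq]
  rfl

section Final

open Classical

/-- The cyclic permutations of `Fin n`. -/
noncomputable def cycs (n : ℕ) : Finset (Perm (Fin n)) :=
  Finset.univ.filter (fun π => π.IsCycleOn Set.univ)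

lemma TT_eq (n : ℕ) {k : ℕ} (ε : Fin k → Bool) :
    TT n ε = ∑ π ∈ cycs n, Fintype.card {s : Fin n → Fin k // Valid ε π s} := by
  unfold TT cycs
  rw [Fintype.card_subtype, Finset.card_filter, Fintype.sum_prod_type, Finset.sum_filter]
  apply Finset.sum_congr rfl
  intro π _
  by_cases h : π.IsCycleOn Set.univ
  · rw [if_pos h, Fintype.card_subtype, Finset.card_filter]
    apply Finset.sum_congr rfl
    intro s _
    simp only [h, true_and]
  · rw [if_neg h]
    apply Finset.sum_eq_zero
    intro s _
    simp only [h, false_and, if_false]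

lemma sum_sg (t : ℕ) : ∑ i ∈ Finset.range (2 * t + 1), sg (par i == true) = 1 := by
  induction t with
  | zero => rfl
  | succ t ih =>
    rw [show 2 * (t + 1) + 1 = 2 * t + 1 + 1 + 1 by ring, Finset.sum_range_succ,
      Finset.sum_range_succ, ih]
    have h1 : par (2 * t + 1) = false := decide_eq_false (by omega)
    have h2 : par (2 * t + 1 + 1) = true := decide_eq_true (by omega)
    rw [h1, h2]
    rfl

lemma sum_alt {K : ℕ} (hK : Even K) : ∑ a : Fin (K + 1), sg (altSig (K + 1) true a) = 1 := by
  obtain ⟨t, ht⟩ := hK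
  have h1 : ∀ a : Fin (K + 1), sg (altSig (K + 1) true a) = (fun i : ℕ => sg (par i == true)) a := by
    intro a; rw [altSig_eq]
  rw [Finset.sum_congr rfl (fun a _ => h1 a),
    Fin.sum_univ_eq_sum_range (fun i => sg (par i == true)) (K + 1)]
  have : K + 1 = 2 * t + 1 := by omega
  rw [this]
  exact sum_sg t

lemma altSig_not (k : ℕ) : (fun a : Fin k => !(altSig k true a)) = altSig k false := by
  funext a
  rw [altSig_eq, altSig_eq]
  cases par (a : ℕ) <;> rfl

/-- The two totals agree for every even `K`. -/
lemma sum_coeff_eq {n : ℕ} (hn : 0 < n) (hn2 : n ≠ 2) {K : ℕ} (hK : Even K) :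
    ∑ π ∈ cycs n, PowerSeries.coeff K (Gf n (rr true π)) =
      ∑ π ∈ cycs n, PowerSeries.coeff K (Gf n (rr false π)) := by
  have : NeZero n := ⟨hn.ne'⟩
  have h := TT_not (n := n) (altSig (K + 1) true) (sum_alt hK) hn2
  rw [altSig_not, TT_eq, TT_eq] at h
  have h' : ((∑ π ∈ cycs n, Fintype.card {s : Fin n → Fin (K + 1) //
      Valid (altSig (K + 1) true) π s} : ℕ) : ℤ) =
      ((∑ π ∈ cycs n, Fintype.card {s : Fin n → Fin (K + 1) //
      Valid (altSig (K + 1) false) π s} : ℕ) : ℤ) := by rw [h]
  push_cast at h'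
  rw [Finset.sum_congr rfl (fun π _ => card_valid hn hK true π),
    Finset.sum_congr rfl (fun π _ => card_valid hn hK false π)] at h'
  exact h'

/-- The number of cyclic permutations with `r` changes. -/
noncomputable def aa (n : ℕ) (b : Bool) (r : ℕ) : ℕ :=
  ((cycs n).filter (fun π => rr b π = r)).card

lemma rr_le {n : ℕ} (b : Bool) (π : Perm (Fin n)) : rr b π ≤ n := chg_le _ _ _

lemma sum_group {n : ℕ} (b : Bool) (f : ℕ → ℤ) :
    ∑ π ∈ cycs n, f (rr b π) = ∑ r ∈ Finset.range (n + 1), (aa n b r : ℤ) * f r := by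
  rw [← Finset.sum_fiberwise_of_maps_to (s := cycs n) (t := Finset.range (n + 1))
    (g := fun π => rr b π) (fun π _ => Finset.mem_range.mpr (Nat.lt_succ_of_le (rr_le b π)))]
  apply Finset.sum_congr rfl
  intro r _
  rw [Finset.sum_congr rfl (g := fun _ => f r)
    (fun π hπ => by rw [(Finset.mem_filter.mp hπ).2]), Finset.sum_const, nsmul_eq_mul]
  rfl

lemma aa_eq {n : ℕ} (hn : 0 < n) (hn2 : n ≠ 2) (r : ℕ) : aa n true r = aa n false r := by
  induction r using Nat.strong_induction_on with
  | _ r ih =>
    rcases Nat.even_or_odd r with hr | hr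
    · have h := sum_coeff_eq hn hn2 hr
      rw [sum_group true (fun r' => PowerSeries.coeff r (Gf n r')),
        sum_group false (fun r' => PowerSeries.coeff r (Gf n r'))] at h
      by_cases hrn : r ≤ n
      · rw [← sub_eq_zero, ← Finset.sum_sub_distrib] at h
        rw [Finset.sum_eq_single r] at h
        · rw [coeff_Gf_self, ← sub_mul, mul_eq_zero] at h
          rcases h with h | h
          · exact_mod_cast sub_eq_zero.mp h
          · exact absurd h (by positivity)
        · intro r' _ hne
          rcases Nat.lt_or_gt_of_ne hne with h1 | h1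
          · rw [ih r' h1, sub_self]
          · rw [coeff_Gf_lt n r' r h1]; ring
        · intro h1
          exact absurd (Finset.mem_range.mpr (by omega)) h1
      · have : ∀ b, aa n b r = 0 := by
          intro b
          unfold aa
          rw [Finset.card_eq_zero, Finset.filter_eq_empty_iff]
          intro π _ hc
          have := rr_le b π
          omega
        rw [this, this]
    · have : ∀ b, aa n b r = 0 := by
        intro b
        unfold aa
        rw [Finset.card_eq_zero, Finset.filter_eq_empty_iff]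
        intro π _ hc
        have h1 := (chg_par n true (letters b π)).mp (lastL_letters hn b π)
        have h2 : chg n true (letters b π) = r := hc
        have := Nat.odd_iff.mp hr
        omega
      rw [this, this]

lemma exists_valid_iff {n K : ℕ} (hn : 0 < n) (hK : Even K) (b : Bool) (π : Perm (Fin n)) :
    (∃ s : Fin n → Fin (K + 1), Valid (altSig (K + 1) b) π s) ↔
      PowerSeries.coeff K (Gf n (rr b π)) ≠ 0 := by
  rw [← card_valid hn hK b π]
  rw [Nat.cast_ne_zero, Ne, Fintype.card_eq_zero_iff, not_isEmpty_iff, nonempty_subtype]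

/-- Main counting theorem, in terms of block functions. -/
theorem card_class_eq {n : ℕ} (hn : 0 < n) (hn2 : n ≠ 2) {K : ℕ} (hK : Even K) :
    ((cycs n).filter (fun π => ∃ s : Fin n → Fin (K + 1), Valid (altSig (K + 1) true) π s)).card =
    ((cycs n).filter (fun π => ∃ s : Fin n → Fin (K + 1), Valid (altSig (K + 1) false) π s)).card := by
  have key : ∀ b, (((cycs n).filter (fun π => ∃ s : Fin n → Fin (K + 1),
      Valid (altSig (K + 1) b) π s)).card : ℤ) =
      ∑ r ∈ Finset.range (n + 1), (aa n b r : ℤ) *
        (if PowerSeries.coeff K (Gf n r) ≠ 0 then 1 else 0) := by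
    intro b
    rw [← sum_group b (fun r => if PowerSeries.coeff K (Gf n r) ≠ 0 then 1 else 0)]
    rw [Finset.card_filter]
    push_cast
    apply Finset.sum_congr rfl
    intro π _
    by_cases h : ∃ s : Fin n → Fin (K + 1), Valid (altSig (K + 1) b) π s
    · rw [if_pos h, if_pos ((exists_valid_iff hn hK b π).mp h)]
    · rw [if_neg h, if_neg (fun h' => h ((exists_valid_iff hn hK b π).mpr h'))]
  have h1 := key true
  have h2 := key false
  rw [Finset.sum_congr rfl (fun r _ => by rw [aa_eq hn hn2 r])] at h1
  exact_mod_cast h1.trans h2.symm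

end Final

end Pool.Agent.Helper61.Alt
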