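import Mathlib

set_option autoImplicit false

/-!
Orders on `ZMod n` compatible with a signed word (a cyclic version of the Gessel-Reutenauer
bijection).
-/

namespace Pool.Agent.Helper61.Alt

/-- The sign `±1` of a Boolean (`true` is `+`). -/
def sg (b : Bool) : ℤ := if b then 1 else -1

lemma sg_true : sg true = 1 := rfl
lemma sg_false : sg false = -1 := rfl
lemma sg_mul_self (b : Bool) : sg b * sg b = 1 := by cases b <;> rfl
lemma sg_not (b : Bool) : sg (!b) = - sg b := by cases b <;> rfl

variable {n : ℕ} [NeZero n] {k : ℕ}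

/-- A labelling `φ` of the cyclic positions compatible with the word `w` and the signs `ε`. -/
def PValid (ε : Fin k → Bool) (w : ZMod n → Fin k) (φ : ZMod n ≃ Fin n) : Prop :=
  (∀ i j, φ i < φ j → w i ≤ w j) ∧
  (∀ i j, φ i < φ j → w i = w j →
    (ε (w i) = true → φ (i + 1) < φ (j + 1)) ∧ (ε (w i) = false → φ (j + 1) < φ (i + 1)))

lemma exists_V (ε : Fin k → Bool) (w : ZMod n → Fin k) :
    ∃ V : ZMod n → ℝ, ∀ i, V i = ((w i : ℕ) : ℝ) + (sg (ε (w i)) : ℝ) * V (i + 1) / (4 * (k + 1)) := by
  let Φ : (ZMod n → ℝ) → (ZMod n → ℝ) := fun V i =>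
    ((w i : ℕ) : ℝ) + (sg (ε (w i)) : ℝ) * V (i + 1) / (4 * (k + 1))
  have hΦ : ContractingWith (1/4) Φ := by
    refine ⟨by norm_num, LipschitzWith.of_dist_le_mul ?_⟩
    intro V V'
    have hd : 0 ≤ dist V V' := dist_nonneg
    rw [dist_pi_le_iff (by positivity)]
    intro i
    have h1 : |V (i + 1) - V' (i + 1)| ≤ dist V V' := by
      rw [← Real.dist_eq]; exact dist_le_pi_dist V V' (i + 1)
    have h2 : Φ V i - Φ V' i = (sg (ε (w i)) : ℝ) * (V (i + 1) - V' (i + 1)) / (4 * (k + 1)) := by
      simp only [Φ]; ring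
    have hk : (0:ℝ) ≤ k := Nat.cast_nonneg k
    have h3 : |(sg (ε (w i)) : ℝ)| = 1 := by
      cases ε (w i) <;> simp [sg]
    rw [Real.dist_eq, h2, abs_div, abs_mul, h3, one_mul, abs_of_pos (by positivity : (0:ℝ) < 4 * (k + 1))]
    rw [div_le_iff₀ (by positivity)]
    push_cast
    nlinarith [abs_nonneg (V (i + 1) - V' (i + 1)), mul_nonneg hd hk]
  refine ⟨hΦ.fixedPoint Φ, fun i => ?_⟩
  exact (congrFun hΦ.fixedPoint_isFixedPt i).symm

/-- The properties of the real code of a word. -/
lemma exists_code (ε : Fin k → Bool) (w : ZMod n → Fin k) :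
    ∃ V : ZMod n → ℝ, (∀ i j, V i ≤ V j → w i ≤ w j) ∧
      (∀ i j, w i = w j → ε (w i) = true → (V i < V j ↔ V (i + 1) < V (j + 1))) ∧
      (∀ i j, w i = w j → ε (w i) = false → (V i < V j ↔ V (j + 1) < V (i + 1))) ∧
      (∀ i j, V i = V j → V (i + 1) = V (j + 1)) := by
  obtain ⟨V, hV⟩ := exists_V ε w
  have hk : (0:ℝ) ≤ k := Nat.cast_nonneg k
  have hB : (0:ℝ) < 4 * (k + 1) := by positivity
  have hs : ∀ i, |(sg (ε (w i)) : ℝ)| = 1 := by
    intro i
    cases ε (w i) <;> simp [sg]
  -- bound
  obtain ⟨i0, hi0⟩ := Finite.exists_max (fun i => |V i|)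
  have hle : ∀ i, |V i| ≤ k + |V (i + 1)| / 4 := by
    intro i
    have h1 : |V i| ≤ |((w i : ℕ) : ℝ)| + |(sg (ε (w i)) : ℝ) * V (i + 1) / (4 * (k + 1))| := by
      conv_lhs => rw [hV i]
      exact abs_add_le _ _
    have h2 : |((w i : ℕ) : ℝ)| ≤ k := by
      rw [abs_of_nonneg (Nat.cast_nonneg _)]
      exact_mod_cast (w i).2.le
    have h3 : |(sg (ε (w i)) : ℝ) * V (i + 1) / (4 * (k + 1))| ≤ |V (i + 1)| / 4 := by
      rw [abs_div, abs_mul, hs, one_mul, abs_of_pos hB]
      apply div_le_div_of_nonneg_left (abs_nonneg _) (by norm_num)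
      linarith
    linarith
  have hbd : ∀ i, |V i| ≤ 4 / 3 * k := by
    intro i
    have h1 := hle i0
    have h2 : |V (i0 + 1)| ≤ |V i0| := hi0 (i0 + 1)
    have h3 : |V i| ≤ |V i0| := hi0 i
    linarith
  have hsmall : ∀ i j, |(sg (ε (w i)) : ℝ) * V (i + 1) / (4 * (k + 1))
      - (sg (ε (w j)) : ℝ) * V (j + 1) / (4 * (k + 1))| < 1 := by
    intro i j
    have h3 : ∀ i, |(sg (ε (w i)) : ℝ) * V (i + 1) / (4 * (k + 1))| ≤ 1 / 3 := by
      intro i
      rw [abs_div, abs_mul, hs, one_mul, abs_of_pos hB, div_le_iff₀ hB]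
      have := hbd (i + 1)
      linarith
    have := abs_sub (( sg (ε (w i)) : ℝ) * V (i + 1) / (4 * (k + 1)))
      ((sg (ε (w j)) : ℝ) * V (j + 1) / (4 * (k + 1)))
    have h4 := h3 i
    have h5 := h3 j
    linarith
  have hlt : ∀ i j, w i < w j → V i < V j := by
    intro i j hij
    have h1 : ((w i : ℕ) : ℝ) + 1 ≤ ((w j : ℕ) : ℝ) := by exact_mod_cast hij
    have h2 := (abs_lt.mp (hsmall i j)).2
    rw [hV i, hV j]
    linarith
  have hdiff : ∀ i j, w i = w j → V i - V j = (sg (ε (w i)) : ℝ) * (V (i + 1) - V (j + 1)) / (4 * (k + 1)) := by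
    intro i j hij
    conv_lhs => rw [hV i, hV j, ← hij]
    ring
  refine ⟨V, ?_, ?_, ?_, ?_⟩
  · intro i j hij
    by_contra hcon
    exact absurd (hlt j i (not_le.mp hcon)) (not_lt.mpr hij)
  · intro i j hij he
    have h := hdiff i j hij
    rw [he, sg_true] at h
    push_cast at h
    rw [one_mul] at h
    rw [← sub_neg, h, ← sub_neg (a := V (i + 1)), div_lt_iff₀ hB, zero_mul]
  · intro i j hij he
    have h := hdiff i j hij
    rw [he, sg_false] at h
    push_cast at h
    rw [← sub_neg, h, ← sub_neg (a := V (j + 1)), div_lt_iff₀ hB, zero_mul]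
    constructor <;> intro h <;> linarith
  · intro i j hij
    have hw : w i = w j := by
      rcases lt_trichotomy (w i) (w j) with h | h | h
      · exact absurd (hlt i j h) (by rw [hij]; exact lt_irrefl _)
      · exact h
      · exact absurd (hlt j i h) (by rw [hij]; exact lt_irrefl _)
    have h := hdiff i j hw
    rw [hij, sub_self] at h
    have h2 : (sg (ε (w i)) : ℝ) * (V (i + 1) - V (j + 1)) = 0 := by
      have := (div_eq_zero_iff.mp h.symm)
      rcases this with h | h
      · exact h
      · exact absurd h hB.ne'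
    rcases mul_eq_zero.mp h2 with h | h
    · have := hs i
      rw [h] at this
      simp at this
    · linarith

/-- A labelling from an injective map to a linear order. -/
lemma exists_phi {L : Type*} [LinearOrder L] (F : ZMod n → L) (hF : Function.Injective F) :
    ∃ φ : ZMod n ≃ Fin n, ∀ i j, φ i < φ j ↔ F i < F j := by
  classical
  let s : Finset L := Finset.univ.image F
  have hs : s.card = n := by
    rw [Finset.card_image_of_injective _ hF, Finset.card_univ, ZMod.card]
  let e := s.orderIsoOfFin hs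
  let f : ZMod n → Fin n := fun i => e.symm ⟨F i, Finset.mem_image_of_mem F (Finset.mem_univ i)⟩
  have hf : Function.Injective f := by
    intro i j hij
    have h := e.symm.injective hij
    exact hF (Subtype.ext_iff.mp h)
  have hcard : Fintype.card (ZMod n) = Fintype.card (Fin n) := by simp [ZMod.card]
  have hb : Function.Bijective f := (Fintype.bijective_iff_injective_and_card f).mpr ⟨hf, hcard⟩
  refine ⟨Equiv.ofBijective f hb, fun i j => ?_⟩
  show f i < f j ↔ F i < F j
  simp only [f]
  rw [e.symm.lt_iff_lt]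
  rfl

/-- Two labellings inducing the same order are equal. -/
lemma phi_unique (φ φ' : ZMod n ≃ Fin n) (h : ∀ i j, φ i < φ j ↔ φ' i < φ' j) : φ = φ' := by
  let e : Fin n ≃o Fin n :=
    { toEquiv := φ.symm.trans φ'
      map_rel_iff' := by
        intro a b
        have h1 := h (φ.symm b) (φ.symm a)
        simp only [Equiv.apply_symm_apply] at h1
        simp only [Equiv.coe_trans, Function.comp_apply]
        rw [← not_lt, ← not_lt, h1] }
  have he : e = OrderIso.refl (Fin n) := Subsingleton.elim _ _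
  ext i
  have h2 : e (φ i) = φ i := by rw [he]; rfl
  have h3 : e (φ i) = φ' i := by
    show φ' (φ.symm (φ i)) = φ' i
    simp
  rw [← h2, h3]

lemma PValid.step_iff {ε : Fin k → Bool} {w : ZMod n → Fin k} {φ : ZMod n ≃ Fin n}
    (h : PValid ε w φ) {i j : ZMod n} (hw : w i = w j) :
    (ε (w i) = true → (φ i < φ j ↔ φ (i + 1) < φ (j + 1))) ∧
    (ε (w i) = false → (φ i < φ j ↔ φ (j + 1) < φ (i + 1))) := by
  constructor
  · intro he
    constructor
    · intro hlt; exact (h.2 i j hlt hw).1 he
    · intro hlt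
      by_contra hcon
      rcases eq_or_lt_of_le (not_lt.mp hcon) with h1 | h1
      · have : j = i := φ.injective h1
        subst this
        exact lt_irrefl _ hlt
      · have := (h.2 j i h1 hw.symm).1 (by rw [← hw]; exact he)
        exact lt_asymm this hlt
  · intro he
    constructor
    · intro hlt; exact (h.2 i j hlt hw).2 he
    · intro hlt
      by_contra hcon
      rcases eq_or_lt_of_le (not_lt.mp hcon) with h1 | h1
      · have : j = i := φ.injective h1
        subst this
        exact lt_irrefl _ hlt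
      · have := (h.2 j i h1 hw.symm).2 (by rw [← hw]; exact he)
        exact lt_asymm this hlt

lemma PValid.lt_iff_of_ne {ε : Fin k → Bool} {w : ZMod n → Fin k} {φ : ZMod n ≃ Fin n}
    (h : PValid ε w φ) {i j : ZMod n} (hw : w i ≠ w j) : φ i < φ j ↔ w i < w j := by
  constructor
  · intro hlt; exact lt_of_le_of_ne (h.1 i j hlt) hw
  · intro hlt
    by_contra hcon
    rcases eq_or_lt_of_le (not_lt.mp hcon) with h1 | h1
    · have : j = i := φ.injective h1
      subst this
      exact hw rfl
    · exact absurd (h.1 j i h1) (not_le.mpr hlt)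

/-- Uniqueness of the labelling. -/
lemma PValid.unique {ε : Fin k → Bool} {w : ZMod n → Fin k} {φ φ' : ZMod n ≃ Fin n}
    (h : PValid ε w φ) (h' : PValid ε w φ')
    (htie : ∀ i j : ZMod n, (∀ t : ℕ, w (i + t) = w (j + t)) → (φ i < φ j ↔ φ' i < φ' j)) :
    φ = φ' := by
  have key : ∀ t : ℕ, ∀ i j : ZMod n, w (i + t) ≠ w (j + t) → (φ i < φ j ↔ φ' i < φ' j) := by
    intro t
    induction t with
    | zero =>
      intro i j hij
      simp only [Nat.cast_zero, add_zero] at hij
      rw [h.lt_iff_of_ne hij, h'.lt_iff_of_ne hij]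
    | succ t ih =>
      intro i j hij
      by_cases hw : w i = w j
      · have e1 : i + ((t + 1 : ℕ) : ZMod n) = (i + 1) + t := by push_cast; ring
        have e2 : j + ((t + 1 : ℕ) : ZMod n) = (j + 1) + t := by push_cast; ring
        rw [e1, e2] at hij
        have i1 := ih (i + 1) (j + 1) hij
        have i2 := ih (j + 1) (i + 1) (Ne.symm hij)
        cases he : ε (w i)
        · rw [(h.step_iff hw).2 he, (h'.step_iff hw).2 he, i2]
        · rw [(h.step_iff hw).1 he, (h'.step_iff hw).1 he, i1]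
      · rw [h.lt_iff_of_ne hw, h'.lt_iff_of_ne hw]
  apply phi_unique
  intro i j
  by_cases hall : ∀ t : ℕ, w (i + t) = w (j + t)
  · exact htie i j hall
  · push Not at hall
    obtain ⟨t, ht⟩ := hall
    exact key t i j ht

end Pool.Agent.Helper61.Alt
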