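import Mathlib

set_option autoImplicit false
set_option linter.unusedSectionVars false

/-!
Counting the segmentations of a permutation for an alternating signature: the number only depends
on the number of changes of the (extended) word of ascents and descents.
-/

namespace Pool.Agent.Helper61.Alt

open PowerSeries

/-- The least `b' ≥ b` whose parity is the one of the letter `a` (`true` = even). -/
def nx (a : Bool) (b : ℕ) : ℕ := if (decide (b % 2 = 0)) = a then b else b + 1

lemma le_nx (a : Bool) (b : ℕ) : b ≤ nx a b := by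
  unfold nx; split_ifs <;> omega

lemma nx_par (a : Bool) (b : ℕ) : decide (nx a b % 2 = 0) = a := by
  unfold nx
  split_ifs with h
  · exact h
  · have h2 : decide ((b + 1) % 2 = 0) = !(decide (b % 2 = 0)) := by
      rcases Nat.mod_two_eq_zero_or_one b with h1 | h1
      · have : (b + 1) % 2 = 1 := by omega
        simp [h1, this]
      · have : (b + 1) % 2 = 0 := by omega
        simp [h1, this]
    rw [h2]
    cases a <;> cases hd : decide (b % 2 = 0) <;> simp_all

/-- Number of admissible chains. -/
def cnt (K : ℕ) : ℕ → (ℕ → Bool) → ℕ → ℕ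
  | 0, _, m => if m ≤ K then 1 else 0
  | n + 1, l, m => ∑ b ∈ Finset.Icc m K, cnt K n (fun i => l (i + 1)) (nx (l 0) b)

/-- The series `1 / (1 - X ^ 2)`. -/
noncomputable def Q : ℤ⟦X⟧ := PowerSeries.mk (fun i => if i % 2 = 0 then 1 else 0)

lemma Q_mul : Q = 1 + X ^ 2 * Q := by
  ext i
  rw [map_add, coeff_X_pow_mul', Q, coeff_mk, coeff_one]
  by_cases h : 2 ≤ i
  · rw [if_pos h, coeff_mk, if_neg (by omega : ¬ i = 0), zero_add]
    have : (i - 2) % 2 = i % 2 := by omega
    rw [this]
  · rw [if_neg h]
    interval_cases i <;> simp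

/-- The numerators. -/
noncomputable def NN (a b : Bool) : ℤ⟦X⟧ := if a = b then 1 + X ^ 2 else 2 * X

/-- The weight of a pair of consecutive letters. -/
noncomputable def W (a b : Bool) : ℤ⟦X⟧ := NN a b * Q

lemma W_rec (a b : Bool) (P : ℤ⟦X⟧) : W a b * P = NN a b * P + X ^ 2 * (W a b * P) := by
  unfold W
  conv_lhs => rw [Q_mul]
  ring

lemma coeff_W_rec (a b : Bool) (P : ℤ⟦X⟧) (D : ℕ) :
    coeff D (W a b * P) = coeff D (NN a b * P) + if 2 ≤ D then coeff (D - 2) (W a b * P) else 0 := by
  conv_lhs => rw [W_rec]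
  rw [map_add, coeff_X_pow_mul']

lemma coeff_NN_same (a : Bool) (P : ℤ⟦X⟧) (D : ℕ) :
    coeff D (NN a a * P) = coeff D P + if 2 ≤ D then coeff (D - 2) P else 0 := by
  unfold NN
  rw [if_pos rfl, add_mul, one_mul, map_add, coeff_X_pow_mul']

lemma coeff_NN_diff {a b : Bool} (h : a ≠ b) (P : ℤ⟦X⟧) (D : ℕ) :
    coeff D (NN a b * P) = if 1 ≤ D then 2 * coeff (D - 1) P else 0 := by
  unfold NN
  rw [if_neg h]
  have : (2 : ℤ⟦X⟧) * X * P = X ^ 1 * (C 2 * P) := by
    have : (C (2 : ℤ) : ℤ⟦X⟧) = 2 := by simp
    rw [this]; ring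
  rw [this, coeff_X_pow_mul', coeff_C_mul]

/-- Parity letter of a number. -/
def par (m : ℕ) : Bool := decide (m % 2 = 0)

lemma par_succ (m : ℕ) : par (m + 1) = !(par m) := by
  unfold par
  rcases Nat.mod_two_eq_zero_or_one m with h1 | h1
  · have : (m + 1) % 2 = 1 := by omega
    simp [h1, this]
  · have : (m + 1) % 2 = 0 := by omega
    simp [h1, this]

lemma nx_of_par_eq {a : Bool} {b : ℕ} (h : par b = a) : nx a b = b := by
  unfold nx
  exact if_pos h

lemma nx_of_par_ne {a : Bool} {b : ℕ} (h : par b ≠ a) : nx a b = b + 1 := by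
  unfold nx
  exact if_neg h

lemma sum_step (K : ℕ) (a0 : Bool) (P : ℤ⟦X⟧) (D : ℕ) : ∀ m, m + D = K →
    ∑ b ∈ Finset.Icc m K, (if nx a0 b ≤ K then coeff (K - nx a0 b) P else 0) =
      coeff D (W (par m) a0 * P) := by
  induction D using Nat.strong_induction_on with
  | _ D ih =>
    intro m hm
    rcases D with _ | D
    · -- m = K
      have hmK : m = K := by omega
      subst hmK
      rw [Finset.Icc_self, Finset.sum_singleton, coeff_W_rec]
      by_cases hp : par m = a0
      · rw [nx_of_par_eq hp, hp, coeff_NN_same]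
        simp
      · rw [nx_of_par_ne hp, coeff_NN_diff hp]
        simp
    · have hsplit : ∑ b ∈ Finset.Icc m K, (if nx a0 b ≤ K then coeff (K - nx a0 b) P else 0) =
          (if nx a0 m ≤ K then coeff (K - nx a0 m) P else 0) +
          ∑ b ∈ Finset.Icc (m + 1) K, (if nx a0 b ≤ K then coeff (K - nx a0 b) P else 0) := by
        rw [← Finset.sum_Ioc_add_eq_sum_Icc (by omega : m ≤ K), add_comm]
        have : Finset.Ioc m K = Finset.Icc (m + 1) K := by
          ext x; simp only [Finset.mem_Ioc, Finset.mem_Icc]; omega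
        rw [this]
      have hsplit2 : ∑ b ∈ Finset.Icc (m + 1) K, (if nx a0 b ≤ K then coeff (K - nx a0 b) P else 0) =
          (if nx a0 (m + 1) ≤ K then coeff (K - nx a0 (m + 1)) P else 0) +
          ∑ b ∈ Finset.Icc (m + 2) K, (if nx a0 b ≤ K then coeff (K - nx a0 b) P else 0) := by
        rw [← Finset.sum_Ioc_add_eq_sum_Icc (by omega : m + 1 ≤ K), add_comm]
        have : Finset.Ioc (m + 1) K = Finset.Icc (m + 2) K := by
          ext x; simp only [Finset.mem_Ioc, Finset.mem_Icc]; omega
        rw [this]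
      rw [hsplit, hsplit2, coeff_W_rec]
      have htail : ∑ b ∈ Finset.Icc (m + 2) K,
          (if nx a0 b ≤ K then coeff (K - nx a0 b) P else 0) =
          if 2 ≤ D + 1 then coeff (D + 1 - 2) (W (par m) a0 * P) else 0 := by
        by_cases hD : 2 ≤ D + 1
        · rw [if_pos hD, ih (D + 1 - 2) (by omega) (m + 2) (by omega)]
          have : par (m + 2) = par m := by
            rw [par_succ, par_succ, Bool.not_not]
          rw [this]
        · rw [if_neg hD, Finset.Icc_eq_empty (by omega), Finset.sum_empty]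
      rw [htail, ← add_assoc]
      congr 1
      by_cases hp : par m = a0
      · have hp1 : par (m + 1) ≠ a0 := by
          rw [par_succ, hp]; cases a0 <;> simp
        rw [nx_of_par_eq hp, nx_of_par_ne hp1, hp, coeff_NN_same, if_pos (by omega : m ≤ K)]
        have e1 : K - m = D + 1 := by omega
        rw [e1]
        congr 1
        by_cases hD : 2 ≤ D + 1
        · rw [if_pos hD, if_pos (by omega)]
          congr 2
          omega
        · rw [if_neg hD, if_neg (by omega)]
      · have hp1 : par (m + 1) = a0 := by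
          rw [par_succ]
          cases h1 : par m <;> cases h2 : a0 <;> simp_all
        rw [nx_of_par_ne hp, nx_of_par_eq hp1, coeff_NN_diff hp, if_pos (by omega : m + 1 ≤ K),
          if_pos (by omega : 1 ≤ D + 1)]
        have e1 : K - (m + 1) = D + 1 - 1 := by omega
        rw [e1]
        ring

/-- The product of the weights. -/
noncomputable def PP : ℕ → Bool → (ℕ → Bool) → ℤ⟦X⟧
  | 0, _, _ => Q
  | n + 1, a, l => W a (l 0) * PP n (l 0) (fun i => l (i + 1))

/-- The last letter. -/
def lastL : ℕ → Bool → (ℕ → Bool) → Bool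
  | 0, a, _ => a
  | n + 1, _, l => lastL n (l 0) (fun i => l (i + 1))

theorem cnt_eq (K : ℕ) (hK : Even K) : ∀ (n : ℕ) (l : ℕ → Bool) (m : ℕ),
    lastL n (par m) l = true →
    (cnt K n l m : ℤ) = if m ≤ K then coeff (K - m) (PP n (par m) l) else 0 := by
  intro n
  induction n with
  | zero =>
    intro l m hlast
    simp only [cnt, PP]
    by_cases h : m ≤ K
    · rw [if_pos h, if_pos h, Q, coeff_mk]
      have hm : m % 2 = 0 := by
        simpa [lastL, par] using hlast
      have : (K - m) % 2 = 0 := by
        have := Nat.even_iff.mp hK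
        omega
      rw [if_pos this]
      rfl
    · rw [if_neg h, if_neg h]
      rfl
  | succ n ih =>
    intro l m hlast
    have h1 : (cnt K (n + 1) l m : ℤ) = ∑ b ∈ Finset.Icc m K,
        (if nx (l 0) b ≤ K then coeff (K - nx (l 0) b) (PP n (l 0) (fun i => l (i + 1))) else 0) := by
      rw [cnt]
      push_cast
      apply Finset.sum_congr rfl
      intro b _
      have hp : par (nx (l 0) b) = l 0 := nx_par _ _
      rw [ih _ _ (by rw [hp]; exact hlast), hp]
    rw [h1]
    by_cases h : m ≤ K
    · rw [if_pos h, sum_step K (l 0) _ (K - m) m (by omega)]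
      rfl
    · rw [if_neg h, Finset.Icc_eq_empty (by omega), Finset.sum_empty]

/-- The number of changes. -/
def chg : ℕ → Bool → (ℕ → Bool) → ℕ
  | 0, _, _ => 0
  | n + 1, a, l => (if a = l 0 then 0 else 1) + chg n (l 0) (fun i => l (i + 1))

lemma chg_le (n : ℕ) : ∀ (a : Bool) (l : ℕ → Bool), chg n a l ≤ n := by
  induction n with
  | zero => intro a l; simp [chg]
  | succ n ih =>
    intro a l
    have := ih (l 0) (fun i => l (i + 1))
    simp only [chg]
    split_ifs <;> omega

lemma chg_par (n : ℕ) : ∀ (a : Bool) (l : ℕ → Bool),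
    (lastL n a l = a ↔ chg n a l % 2 = 0) := by
  induction n with
  | zero => intro a l; simp [chg, lastL]
  | succ n ih =>
    intro a l
    have h := ih (l 0) (fun i => l (i + 1))
    simp only [chg, lastL]
    by_cases ha : a = l 0
    · rw [if_pos ha, zero_add, ← h, ha]
    · rw [if_neg ha]
      constructor
      · intro h1
        have h2 : ¬ lastL n (l 0) (fun i => l (i + 1)) = l 0 := by
          rw [h1]; exact ha
        rw [h] at h2
        omega
      · intro h1
        have h2 : ¬ chg n (l 0) (fun i => l (i + 1)) % 2 = 0 := by omega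
        rw [← h] at h2
        cases h3 : a <;> cases h4 : l 0 <;> cases h5 : lastL n (l 0) (fun i => l (i + 1)) <;>
          simp_all

/-- The generating function attached to `r` changes. -/
noncomputable def Gf (n r : ℕ) : ℤ⟦X⟧ := W true false ^ r * W true true ^ (n - r) * Q

lemma W_same (a : Bool) : W a a = W true true := by
  unfold W NN; simp

lemma W_diff {a b : Bool} (h : a ≠ b) : W a b = W true false := by
  unfold W NN; simp [h]

lemma PP_eq (n : ℕ) : ∀ (a : Bool) (l : ℕ → Bool), PP n a l = Gf n (chg n a l) := by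
  induction n with
  | zero => intro a l; simp [PP, chg, Gf]
  | succ n ih =>
    intro a l
    have hle := chg_le n (l 0) (fun i => l (i + 1))
    simp only [PP, chg]
    rw [ih]
    unfold Gf
    by_cases ha : a = l 0
    · rw [if_pos ha, zero_add, ha, W_same]
      have : n + 1 - chg n (l 0) (fun i => l (i + 1)) =
          (n - chg n (l 0) (fun i => l (i + 1))) + 1 := by omega
      rw [this, pow_succ]
      ring
    · rw [if_neg ha, W_diff ha]
      have : n + 1 - (1 + chg n (l 0) (fun i => l (i + 1))) =
          n - chg n (l 0) (fun i => l (i + 1)) := by omega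
      rw [this, pow_add, pow_one]
      ring

lemma Gf_eq (n r : ℕ) : Gf n r = X ^ r * (C (2 ^ r) * (Q ^ r * W true true ^ (n - r) * Q)) := by
  unfold Gf
  have h1 : W true false = C 2 * X * Q := by
    unfold W NN
    have : (C (2 : ℤ) : ℤ⟦X⟧) = 2 := by simp
    rw [this]; simp
  rw [h1, mul_pow, mul_pow, ← map_pow]
  ring

lemma coeff_Gf_lt (n r K : ℕ) (h : K < r) : coeff K (Gf n r) = 0 := by
  rw [Gf_eq, coeff_X_pow_mul', if_neg (by omega)]

lemma coeff_Gf_self (n r : ℕ) : coeff r (Gf n r) = 2 ^ r := by
  have hQ : constantCoeff Q = 1 := by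
    rw [← coeff_zero_eq_constantCoeff_apply, Q, coeff_mk]; simp
  have hW : constantCoeff (W true true) = 1 := by
    unfold W NN
    simp [hQ]
  rw [Gf_eq, coeff_X_pow_mul', if_pos le_rfl, Nat.sub_self, coeff_C_mul,
    coeff_zero_eq_constantCoeff_apply]
  simp [hQ, hW]

end Pool.Agent.Helper61.Alt
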