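import Pool.Agent.Helper61.AltOrder

set_option autoImplicit false
set_option linter.unusedSectionVars false

/-!
The number of labellings compatible with a given signed cyclic word.
-/

namespace Pool.Agent.Helper61.Alt

/-- The shift on sequences. -/
def shift {A : Type*} (q : ℕ → A) : ℕ → A := fun i => q (i + 1)

lemma shift_iterate {A : Type*} (q : ℕ → A) (t : ℕ) : shift^[t] q = fun i => q (i + t) := by
  induction t with
  | zero => rfl
  | succ t ih =>
    rw [Function.iterate_succ_apply', ih]
    funext i
    simp only [shift]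
    congr 1
    omega

/-- Product of the signs of the first `t` letters. -/
def us {k : ℕ} (ε : Fin k → Bool) (q : ℕ → Fin k) (t : ℕ) : ℤ :=
  ∏ s ∈ Finset.range t, sg (ε (q s))

lemma us_zero {k : ℕ} (ε : Fin k → Bool) (q : ℕ → Fin k) : us ε q 0 = 1 := by simp [us]

lemma us_succ {k : ℕ} (ε : Fin k → Bool) (q : ℕ → Fin k) (t : ℕ) :
    us ε q (t + 1) = us ε q t * sg (ε (q t)) := by
  simp [us, Finset.prod_range_succ]

lemma us_eq_or {k : ℕ} (ε : Fin k → Bool) (q : ℕ → Fin k) (t : ℕ) :
    us ε q t = 1 ∨ us ε q t = -1 := by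
  induction t with
  | zero => left; exact us_zero ε q
  | succ t ih =>
    rw [us_succ]
    cases ε (q t) <;> rcases ih with h | h <;> simp [h, sg]

lemma us_add {k : ℕ} (ε : Fin k → Bool) (q : ℕ → Fin k) (m : ℕ) (hper : ∀ i, q (i + m) = q i)
    (t : ℕ) : us ε q (t + m) = us ε q m * us ε q t := by
  induction t with
  | zero => simp [us_zero]
  | succ t ih =>
    have e : t + 1 + m = (t + m) + 1 := by omega
    rw [e, us_succ, ih, us_succ, hper]
    ring

variable {n : ℕ} [NeZero n] {k : ℕ}

/-- The sequence of a cyclic word. -/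
def seq {A : Type*} (w : ZMod n → A) : ℕ → A := fun i => w (i : ZMod n)

lemma seq_per {A : Type*} (w : ZMod n → A) (t : ℕ) :
    (∀ i : ZMod n, w (i + t) = w i) ↔ ∀ i, seq w (i + t) = seq w i := by
  constructor
  · intro h i
    simp only [seq]
    push_cast
    exact h _
  · intro h i
    have := h i.val
    simp only [seq] at this
    push_cast at this
    rwa [ZMod.natCast_zmod_val] at this

lemma per_iff {A : Type*} (w : ZMod n → A) (t : ℕ) :
    (∀ i : ZMod n, w (i + t) = w i) ↔ Function.minimalPeriod shift (seq w) ∣ t := by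
  rw [seq_per, ← Function.isPeriodicPt_iff_minimalPeriod_dvd]
  constructor
  · intro h
    show shift^[t] (seq w) = seq w
    rw [shift_iterate]
    funext i
    exact h i
  · intro h i
    have h' : shift^[t] (seq w) = seq w := h
    rw [shift_iterate] at h'
    exact congrFun h' i

lemma mp_dvd {A : Type*} (w : ZMod n → A) : Function.minimalPeriod shift (seq w) ∣ n := by
  rw [← per_iff]
  intro i
  simp

lemma mp_pos {A : Type*} (w : ZMod n → A) : 0 < Function.minimalPeriod shift (seq w) :=
  Nat.pos_of_dvd_of_pos (mp_dvd w) (Nat.pos_of_ne_zero (NeZero.ne n))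

/-- equal futures give a period -/
lemma period_of_tie {A : Type*} (w : ZMod n → A) {i j : ZMod n}
    (h : ∀ t : ℕ, w (i + t) = w (j + t)) (i' : ZMod n) : w (i' + (j - i)) = w i' := by
  have := h (i' - i).val
  rw [ZMod.natCast_zmod_val] at this
  have e1 : i + (i' - i) = i' := by ring
  have e2 : j + (i' - i) = i' + (j - i) := by ring
  rw [e1, e2] at this
  exact this.symm

lemma mp_dvd_of_tie {A : Type*} (w : ZMod n → A) {i j : ZMod n}
    (h : ∀ t : ℕ, w (i + t) = w (j + t)) :
    Function.minimalPeriod shift (seq w) ∣ (j - i).val := by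
  rw [← per_iff]
  intro i'
  rw [ZMod.natCast_zmod_val]
  exact period_of_tie w h i'

section tie

variable {ε : Fin k → Bool} {w : ZMod n → Fin k} {φ : ZMod n ≃ Fin n}

lemma tie_step (h : PValid ε w φ) (m : ℕ) (hm : (m : ZMod n) ≠ 0)
    (hper : ∀ i : ZMod n, w (i + m) = w i) (t : ℕ) :
    (us ε (seq w) t = 1 → (φ (t : ZMod n) < φ (t + m) ↔ φ 0 < φ (m : ZMod n))) ∧
    (us ε (seq w) t = -1 → (φ (t : ZMod n) < φ (t + m) ↔ ¬ φ 0 < φ (m : ZMod n))) := by
  induction t with
  | zero =>
    constructor
    · intro _
      simp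
    · intro h0
      rw [us_zero] at h0
      norm_num at h0
  | succ t ih =>
    have hw : w (t : ZMod n) = w ((t : ZMod n) + m) := (hper _).symm
    have hne : φ ((t : ZMod n) + 1) ≠ φ ((t : ZMod n) + m + 1) := by
      intro hc
      have hc' := φ.injective hc
      apply hm
      have : (t : ZMod n) + m + 1 - ((t : ZMod n) + 1) = 0 := by rw [← hc', sub_self]
      calc (m : ZMod n) = (t : ZMod n) + m + 1 - ((t : ZMod n) + 1) := by ring
        _ = 0 := this
    have e1 : (((t + 1 : ℕ) : ZMod n)) = (t : ZMod n) + 1 := by push_cast; ring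
    have e2 : (((t + 1 : ℕ) : ZMod n)) + m = (t : ZMod n) + m + 1 := by push_cast; ring
    rw [e2, e1, us_succ]
    have hseq : seq w t = w (t : ZMod n) := rfl
    rw [hseq]
    cases he : ε (w (t : ZMod n))
    · have s := (h.step_iff hw).2 he
      have s' : φ ((t : ZMod n) + 1) < φ ((t : ZMod n) + m + 1) ↔
          ¬ φ (t : ZMod n) < φ ((t : ZMod n) + m) := by
        rw [s, not_lt]
        exact ⟨fun h => h.le, fun h => lt_of_le_of_ne h hne⟩
      rw [s']
      constructor
      · intro hu
        have hu' : us ε (seq w) t = -1 := by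
          rcases us_eq_or ε (seq w) t with h1 | h1
          · rw [h1] at hu; simp [sg] at hu
          · exact h1
        rw [ih.2 hu', not_not]
      · intro hu
        have hu' : us ε (seq w) t = 1 := by
          rcases us_eq_or ε (seq w) t with h1 | h1
          · exact h1
          · rw [h1] at hu; simp [sg] at hu
        rw [ih.1 hu']
    · have s := (h.step_iff hw).1 he
      rw [← s]
      simp only [sg_true, mul_one]
      exact ih

lemma tie_sign (h : PValid ε w φ) (m : ℕ) (hm : (m : ZMod n) ≠ 0)
    (hper : ∀ i : ZMod n, w (i + m) = w i) : us ε (seq w) m = -1 := by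
  rcases us_eq_or ε (seq w) m with h1 | h1
  · exfalso
    have hper' := (seq_per w m).mp hper
    have hus : ∀ j : ℕ, us ε (seq w) (j * m) = 1 := by
      intro j
      induction j with
      | zero => simp [us_zero]
      | succ j ih =>
        have : (j + 1) * m = j * m + m := by ring
        rw [this, us_add ε (seq w) m hper', h1, ih]
        rfl
    have hX : ∀ j : ℕ, (φ ((j * m : ℕ) : ZMod n) < φ (((j + 1) * m : ℕ) : ZMod n) ↔
        φ 0 < φ (m : ZMod n)) := by
      intro j
      have := (tie_step h m hm hper (j * m)).1 (hus j)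
      rw [← this]
      have e : (((j + 1) * m : ℕ) : ZMod n) = ((j * m : ℕ) : ZMod n) + m := by push_cast; ring
      rw [e]
    have hn : 0 < n := Nat.pos_of_ne_zero (NeZero.ne n)
    have hend : φ ((n * m : ℕ) : ZMod n) = φ ((0 * m : ℕ) : ZMod n) := by
      congr 1
      push_cast
      simp
    by_cases h0 : φ 0 < φ (m : ZMod n)
    · have hmono : StrictMono (fun j : ℕ => φ ((j * m : ℕ) : ZMod n)) :=
        strictMono_nat_of_lt_succ (fun j => (hX j).mpr h0)
      have := hmono hn
      simp only at this
      rw [hend] at this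
      exact lt_irrefl _ this
    · have hanti : StrictAnti (fun j : ℕ => φ ((j * m : ℕ) : ZMod n)) := by
        apply strictAnti_nat_of_succ_lt
        intro j
        have h2 : ¬ φ ((j * m : ℕ) : ZMod n) < φ (((j + 1) * m : ℕ) : ZMod n) := by
          rw [hX j]; exact h0
        refine lt_of_le_of_ne (not_lt.mp h2) ?_
        intro hc
        have hc' := φ.injective hc
        apply hm
        have e : (((j + 1) * m : ℕ) : ZMod n) = ((j * m : ℕ) : ZMod n) + m := by push_cast; ring
        rw [e] at hc'
        simpa using hc'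
      have := hanti hn
      simp only at this
      rw [hend] at this
      exact lt_irrefl _ this
  · exact h1

end tie

section card

variable (ε : Fin k → Bool) (w : ZMod n → Fin k)

open Classical in
/-- The number of labellings compatible with `w`. -/
noncomputable def cc : ℕ := Fintype.card {φ : ZMod n ≃ Fin n // PValid ε w φ}

/-- futures of ties in the code -/
lemma code_tie {V : ZMod n → ℝ} (h1 : ∀ i j, V i ≤ V j → w i ≤ w j)
    (h4 : ∀ i j, V i = V j → V (i + 1) = V (j + 1)) {i j : ZMod n} (hij : V i = V j) (t : ℕ) :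
    w (i + t) = w (j + t) := by
  have key : V (i + t) = V (j + t) := by
    induction t with
    | zero => simpa using hij
    | succ t ih =>
      have e1 : i + ((t + 1 : ℕ) : ZMod n) = (i + t) + 1 := by push_cast; ring
      have e2 : j + ((t + 1 : ℕ) : ZMod n) = (j + t) + 1 := by push_cast; ring
      rw [e1, e2]
      exact h4 _ _ ih
  exact le_antisymm (h1 _ _ key.le) (h1 _ _ key.ge)

lemma cc_prim (hm : Function.minimalPeriod shift (seq w) = n) : cc ε w = 1 := by
  classical
  obtain ⟨V, h1, h2, h3, h4⟩ := exists_code ε w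
  have hnotie : ∀ i j : ZMod n, (∀ t : ℕ, w (i + t) = w (j + t)) → i = j := by
    intro i j h
    have hd := mp_dvd_of_tie w h
    rw [hm] at hd
    have hlt := ZMod.val_lt (j - i)
    have h0 : (j - i).val = 0 := Nat.eq_zero_of_dvd_of_lt hd hlt
    have : j - i = 0 := (ZMod.val_eq_zero _).mp h0
    exact (sub_eq_zero.mp this).symm
  have hinj : Function.Injective V := by
    intro i j hij
    exact hnotie i j (fun t => code_tie w h1 h4 hij t)
  obtain ⟨φ, hφ⟩ := exists_phi V hinj
  have hval : PValid ε w φ := by
    refine ⟨fun i j hij => h1 i j ((hφ i j).mp hij).le, fun i j hij hw => ⟨fun he => ?_, fun he => ?_⟩⟩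
    · rw [hφ]; exact (h2 i j hw he).mp ((hφ i j).mp hij)
    · rw [hφ]; exact (h3 i j hw he).mp ((hφ i j).mp hij)
  unfold cc
  rw [Fintype.card_eq_one_iff]
  refine ⟨⟨φ, hval⟩, ?_⟩
  rintro ⟨φ', hval'⟩
  apply Subtype.ext
  apply hval'.unique hval
  intro i j h
  have := hnotie i j h
  subst this
  simp

lemma cc_zero (hm : Function.minimalPeriod shift (seq w) ≠ n)
    (hm2 : ¬ (2 * Function.minimalPeriod shift (seq w) = n ∧
      us ε (seq w) (Function.minimalPeriod shift (seq w)) = -1)) : cc ε w = 0 := by
  classical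
  unfold cc
  rw [Fintype.card_eq_zero_iff]
  constructor
  rintro ⟨φ, h⟩
  apply hm2
  set m := Function.minimalPeriod shift (seq w) with hmdef
  have hdvd : m ∣ n := mp_dvd w
  have hpos : 0 < m := mp_pos w
  have hn : 0 < n := Nat.pos_of_ne_zero (NeZero.ne n)
  have hlt : m < n := lt_of_le_of_ne (Nat.le_of_dvd hn hdvd) hm
  have hper : ∀ i : ZMod n, w (i + m) = w i := (per_iff w m).mpr dvd_rfl
  have hm0 : (m : ZMod n) ≠ 0 := by
    rw [Ne, ZMod.natCast_eq_zero_iff]
    intro hc
    exact absurd (Nat.le_of_dvd hpos hc) (not_le.mpr hlt)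
  have hs := tie_sign h m hm0 hper
  refine ⟨?_, hs⟩
  by_contra hne
  have hper2 : ∀ i : ZMod n, w (i + ((2 * m : ℕ) : ZMod n)) = w i :=
    (per_iff w (2 * m)).mpr (Dvd.intro_left 2 rfl)
  have h2m0 : ((2 * m : ℕ) : ZMod n) ≠ 0 := by
    rw [Ne, ZMod.natCast_eq_zero_iff]
    rintro ⟨c, hc⟩
    have hc1 : c = 1 := by
      rcases Nat.lt_or_ge c 2 with h1 | h1
      · interval_cases c
        · omega
        · rfl
      · have : 2 * n ≤ n * c := by nlinarith
        omega
    rw [hc1, mul_one] at hc
    exact hne hc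
  have hs2 := tie_sign h (2 * m) h2m0 hper2
  have hper' := (seq_per w m).mp hper
  have : us ε (seq w) (2 * m) = us ε (seq w) m * us ε (seq w) m := by
    rw [two_mul]; exact us_add ε (seq w) m hper' m
  rw [this, hs] at hs2
  norm_num at hs2

lemma tie_dichotomy {m : ℕ} (hm : Function.minimalPeriod shift (seq w) = m) (h2 : 2 * m = n)
    {i j : ZMod n} (h : ∀ t : ℕ, w (i + t) = w (j + t)) : j = i ∨ j = i + m := by
  have hd := mp_dvd_of_tie w h
  rw [hm] at hd
  have hlt := ZMod.val_lt (j - i)
  obtain ⟨c, hc⟩ := hd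
  have hmpos : 0 < m := by rw [← hm]; exact mp_pos w
  have hc2 : c < 2 := by
    by_contra hcon
    have : m * 2 ≤ m * c := Nat.mul_le_mul_left m (not_lt.mp hcon)
    omega
  have hval : ((j - i).val : ZMod n) = j - i := ZMod.natCast_zmod_val _
  interval_cases c
  · left
    rw [hc] at hval
    simp at hval
    exact (sub_eq_zero.mp hval.symm)
  · right
    rw [hc, mul_one] at hval
    rw [hval]; ring

lemma valid_rot {m : ℕ} (hper : ∀ i : ZMod n, w (i + m) = w i) {φ : ZMod n ≃ Fin n}
    (h : PValid ε w φ) : PValid ε w ((Equiv.addRight (m : ZMod n)).trans φ) := by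
  constructor
  · intro i j hij
    simp only [Equiv.trans_apply, Equiv.coe_addRight] at hij
    have := h.1 _ _ hij
    rwa [hper, hper] at this
  · intro i j hij hw
    simp only [Equiv.trans_apply, Equiv.coe_addRight] at hij ⊢
    have hw' : w (i + m) = w (j + m) := by rw [hper, hper]; exact hw
    have := h.2 _ _ hij hw'
    rw [hper] at this
    have e1 : i + 1 + (m : ZMod n) = i + m + 1 := by ring
    have e2 : j + 1 + (m : ZMod n) = j + m + 1 := by ring
    rw [e1, e2]
    exact this

lemma cc_half {m : ℕ} (hm : Function.minimalPeriod shift (seq w) = m) (h2m : 2 * m = n)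
    (hus : us ε (seq w) m = -1) : cc ε w = 2 := by
  classical
  have hmpos : 0 < m := by rw [← hm]; exact mp_pos w
  have hper : ∀ i : ZMod n, w (i + m) = w i := (per_iff w m).mpr (by rw [hm])
  have hper' := (seq_per w m).mp hper
  have hm0 : (m : ZMod n) ≠ 0 := by
    rw [Ne, ZMod.natCast_eq_zero_iff]
    intro hc
    exact absurd (Nat.le_of_dvd hmpos hc) (by omega)
  have hmm : (m : ZMod n) + m = 0 := by
    have : ((2 * m : ℕ) : ZMod n) = 0 := by rw [h2m]; simp
    push_cast at this
    rw [← this]; ring
  -- the orientation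
  have husn : us ε (seq w) n = 1 := by
    have e1 : us ε (seq w) (m + m) = 1 := by
      rw [us_add ε (seq w) m hper' m, hus]; rfl
    have e2 : n = m + m := by omega
    calc us ε (seq w) n = us ε (seq w) (m + m) := congrArg _ e2
      _ = 1 := e1
  have hpern : ∀ i, seq w (i + n) = seq w i := by
    intro i; simp [seq]
  have hperiodic : Function.Periodic (us ε (seq w)) n := by
    intro t
    rw [us_add ε (seq w) n hpern t, husn, one_mul]
  let U : ZMod n → ℤ := fun i => us ε (seq w) i.val
  have hU : ∀ t : ℕ, U (t : ZMod n) = us ε (seq w) t := by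
    intro t
    simp only [U]
    rw [ZMod.val_natCast]
    exact hperiodic.map_mod_nat t
  have hU1 : ∀ i : ZMod n, U (i + 1) = U i * sg (ε (w i)) := by
    intro i
    have h1 := hU (i.val + 1)
    push_cast at h1
    rw [ZMod.natCast_zmod_val, us_succ] at h1
    rw [h1]
    congr 3
    simp only [seq]
    rw [ZMod.natCast_zmod_val]
  have hUm : ∀ i : ZMod n, U (i + m) = - U i := by
    intro i
    have h1 := hU (i.val + m)
    push_cast at h1
    rw [ZMod.natCast_zmod_val, us_add ε (seq w) m hper', hus] at h1
    rw [h1]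
    simp [U]
  have hU0 : ∀ i, U i ≠ 0 := by
    intro i
    simp only [U]
    rcases us_eq_or ε (seq w) i.val with h | h <;> rw [h] <;> norm_num
  obtain ⟨V, h1, h2, h3, h4⟩ := exists_code ε w
  let F : ZMod n → ℝ ×ₗ ℤ := fun i => toLex (V i, U i)
  have hF : ∀ i j, F i < F j ↔ V i < V j ∨ (V i = V j ∧ U i < U j) := by
    intro i j
    simp only [F]
    rw [Prod.Lex.lt_iff]
    simp
  have hinj : Function.Injective F := by
    intro i j hij
    have hij' : (V i, U i) = (V j, U j) := hij
    have hV : V i = V j := (Prod.ext_iff.mp hij').1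
    have hUU : U i = U j := (Prod.ext_iff.mp hij').2
    rcases tie_dichotomy w hm h2m (fun t => code_tie w h1 h4 hV t) with h | h
    · exact h.symm
    · exfalso
      rw [h, hUm] at hUU
      have := hU0 i
      omega
  obtain ⟨φ, hφ⟩ := exists_phi F hinj
  have hval : PValid ε w φ := by
    constructor
    · intro i j hij
      rcases (hF i j).mp ((hφ i j).mp hij) with h | h
      · exact h1 i j h.le
      · exact h1 i j h.1.le
    · intro i j hij hw
      rcases (hF i j).mp ((hφ i j).mp hij) with h | ⟨h, h'⟩
      · constructor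
        · intro he
          rw [hφ, hF]; left; exact (h2 i j hw he).mp h
        · intro he
          rw [hφ, hF]; left; exact (h3 i j hw he).mp h
      · constructor
        · intro he
          rw [hφ, hF]; right
          refine ⟨h4 i j h, ?_⟩
          rw [hU1, hU1, ← hw, he]
          simpa [sg] using h'
        · intro he
          rw [hφ, hF]; right
          refine ⟨(h4 i j h).symm, ?_⟩
          rw [hU1, hU1, ← hw, he]
          simpa [sg] using h'
  have hval2 := valid_rot ε w hper hval
  -- two labellings agreeing on the order of `0` and `m` are equal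
  have hagree : ∀ ψ ψ' : ZMod n ≃ Fin n, PValid ε w ψ → PValid ε w ψ' →
      (ψ 0 < ψ (m : ZMod n) ↔ ψ' 0 < ψ' (m : ZMod n)) → ψ = ψ' := by
    intro ψ ψ' hψ hψ' h0
    apply hψ.unique hψ'
    intro i j hij
    rcases tie_dichotomy w hm h2m hij with h | h
    · subst h; simp
    · subst h
      have s := tie_step hψ m hm0 hper i.val
      have s' := tie_step hψ' m hm0 hper i.val
      rw [ZMod.natCast_zmod_val] at s s'
      rcases us_eq_or ε (seq w) i.val with h | h
      · rw [s.1 h, s'.1 h, h0]
      · rw [s.2 h, s'.2 h, h0]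
  have hrot : ∀ ψ : ZMod n ≃ Fin n, ((Equiv.addRight (m : ZMod n)).trans ψ) 0 <
      ((Equiv.addRight (m : ZMod n)).trans ψ) (m : ZMod n) ↔ ¬ (ψ 0 < ψ (m : ZMod n)) := by
    intro ψ
    simp only [Equiv.trans_apply, Equiv.coe_addRight, zero_add, hmm, not_lt]
    constructor
    · intro h; exact h.le
    · intro h
      refine lt_of_le_of_ne h ?_
      intro hc
      exact hm0 (ψ.injective hc)
  unfold cc
  have huniv : (Finset.univ : Finset {φ : ZMod n ≃ Fin n // PValid ε w φ}) =
      {⟨φ, hval⟩, ⟨_, hval2⟩} := by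
    ext ⟨ψ, hψ⟩
    simp only [Finset.mem_univ, Finset.mem_insert, Finset.mem_singleton, true_iff,
      Subtype.mk.injEq]
    by_cases h0 : (ψ 0 < ψ (m : ZMod n) ↔ φ 0 < φ (m : ZMod n))
    · left; exact hagree ψ φ hψ hval h0
    · right
      apply hagree ψ _ hψ hval2
      rw [hrot]
      tauto
  rw [← Finset.card_univ, huniv, Finset.card_pair]
  intro hc
  have hc' := (Subtype.mk.injEq _ _ _ _).mp hc
  have := hrot φ
  rw [← hc'] at this
  tauto

/-- The formula for the number of labellings. -/
lemma cc_eq : (cc ε w : ℤ) =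
    (if Function.minimalPeriod shift (seq w) = n then 1 else 0) +
    (if 2 * Function.minimalPeriod shift (seq w) = n then
      1 - us ε (seq w) (Function.minimalPeriod shift (seq w)) else 0) := by
  have hn : 0 < n := Nat.pos_of_ne_zero (NeZero.ne n)
  by_cases h1 : Function.minimalPeriod shift (seq w) = n
  · have h2 : ¬ 2 * Function.minimalPeriod shift (seq w) = n := by omega
    rw [if_pos h1, if_neg h2, cc_prim ε w h1]
    rfl
  · rw [if_neg h1]
    by_cases h2 : 2 * Function.minimalPeriod shift (seq w) = n
    · rw [if_pos h2]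
      rcases us_eq_or ε (seq w) (Function.minimalPeriod shift (seq w)) with h | h
      · rw [cc_zero ε w h1 (by rw [h]; norm_num), h]; rfl
      · rw [cc_half ε w rfl h2 h, h]; rfl
    · rw [if_neg h2, cc_zero ε w h1 (by tauto)]
      rfl

end card

end Pool.Agent.Helper61.Alt
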