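import Mathlib

set_option autoImplicit false

/-!
Ladder graphs used against the Bollobas-Harary conjecture on vertex-deleted subgraphs of
diameter at most `d`.

Two adjacent hubs, and `N` ladders.  The `g`-th ladder consists of `k` rungs, the `j`-th rung being
a path with vertices `(g, j, 0), ..., (g, j, c + 1)`; the two rails of the ladder are the paths
through the rung ends `(g, 0, e), ..., (g, k - 1, e)` with `e = 0` or `e = c + 1`, and both rails
start at the first hub and finish at the second hub.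
-/

namespace Pool.Agent.Helper61.BH

open SimpleGraph

/-- Vertices: two hubs, and the points `(g, j, t)`. -/
abbrev Vert (N k c : ℕ) : Type := Bool ⊕ (Fin N × Fin k × Fin (c + 2))

/-- The adjacency relation, oriented. -/
def rel (N k c : ℕ) : Vert N k c → Vert N k c → Prop
  | Sum.inl false, Sum.inl true => True
  | Sum.inl false, Sum.inr (_, j, t) => (j : ℕ) = 0 ∧ ((t : ℕ) = 0 ∨ (t : ℕ) = c + 1)
  | Sum.inl true, Sum.inr (_, j, t) => (j : ℕ) + 1 = k ∧ ((t : ℕ) = 0 ∨ (t : ℕ) = c + 1)
  | Sum.inr (g, j, t), Sum.inr (g', j', t') =>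
      g = g' ∧ ((j = j' ∧ (t : ℕ) + 1 = t') ∨
        ((j : ℕ) + 1 = j' ∧ t = t' ∧ ((t : ℕ) = 0 ∨ (t : ℕ) = c + 1)))
  | _, _ => False

/-- The ladder graph. -/
def ladder (N k c : ℕ) : SimpleGraph (Vert N k c) := SimpleGraph.fromRel (rel N k c)

/-- distance at most `n` in the graph with vertex `v` removed -/
def Conn {α : Type*} (G : SimpleGraph α) (v : α) (n : ℕ) (x y : α) : Prop :=
  ∃ (hx : x ∈ ({v}ᶜ : Set α)) (hy : y ∈ ({v}ᶜ : Set α)),
    (G.induce ({v}ᶜ : Set α)).edist ⟨x, hx⟩ ⟨y, hy⟩ ≤ (n : ℕ∞)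

section Conn
variable {α : Type*} {G : SimpleGraph α} {v : α}

lemma Conn.refl {x : α} (h : x ≠ v) (n : ℕ) : Conn G v n x x :=
  ⟨by simpa using h, by simpa using h, by simp⟩

lemma Conn.symm {n : ℕ} {x y : α} (h : Conn G v n x y) : Conn G v n y x := by
  obtain ⟨hx, hy, h⟩ := h
  exact ⟨hy, hx, by rwa [SimpleGraph.edist_comm]⟩

lemma Conn.trans {m n : ℕ} {x y z : α} (h : Conn G v m x y) (h' : Conn G v n y z) :
    Conn G v (m + n) x z := by
  obtain ⟨hx, hy, h⟩ := h
  obtain ⟨_, hz, h'⟩ := h'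
  refine ⟨hx, hz, ?_⟩
  calc _ ≤ _ := SimpleGraph.edist_triangle (v := ⟨y, hy⟩)
    _ ≤ (m : ℕ∞) + n := add_le_add h h'
    _ = ((m + n : ℕ) : ℕ∞) := by push_cast; rfl

lemma Conn.mono {m n : ℕ} {x y : α} (h : Conn G v m x y) (hmn : m ≤ n) : Conn G v n x y := by
  obtain ⟨hx, hy, h⟩ := h
  exact ⟨hx, hy, h.trans (by exact_mod_cast hmn)⟩

lemma Conn.step {x y : α} (h : G.Adj x y) (hx : x ≠ v) (hy : y ≠ v) : Conn G v 1 x y := by
  refine ⟨by simpa using hx, by simpa using hy, ?_⟩
  have : (G.induce ({v}ᶜ : Set α)).Adj ⟨x, by simpa using hx⟩ ⟨y, by simpa using hy⟩ := by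
    simpa using h
  rw [SimpleGraph.edist_eq_one_iff_adj.mpr this]
  simp

lemma Conn.ne_left {n : ℕ} {x y : α} (h : Conn G v n x y) : x ≠ v := by
  obtain ⟨hx, _, _⟩ := h
  simpa using hx

end Conn

lemma edist_hom_le {α β : Type*} {G : SimpleGraph α} {H : SimpleGraph β} (f : G →g H) (x y : α) :
    H.edist (f x) (f y) ≤ G.edist x y := by
  by_cases h : G.edist x y = ⊤
  · rw [h]; exact le_top
  · obtain ⟨p, hp⟩ := SimpleGraph.exists_walk_of_edist_ne_top h
    rw [← hp]
    have := SimpleGraph.edist_le (p.map f)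
    simpa using this

/-- Transport to `Fin n`. -/
lemma transport {V : Type} [Fintype V] (G : SimpleGraph V) (n d : ℕ) (hn : Fintype.card V = n)
    (h : ∀ v x y : V, x ≠ v → y ≠ v → Conn G v d x y) :
    ∃ G' : SimpleGraph (Fin n), G'.edgeSet.ncard = G.edgeSet.ncard ∧
      ∀ v : Fin n, (G'.induce ({v}ᶜ : Set (Fin n))).ediam ≤ (d : ℕ∞) := by
  let φ : V ≃ Fin n := Fintype.equivFinOfCardEq hn
  refine ⟨G.comap φ.symm, ?_, ?_⟩
  · have e := (SimpleGraph.Iso.comap φ.symm G).mapEdgeSet
    have := Nat.card_congr e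
    simpa [Nat.card_coe_set_eq] using this
  · intro v
    rw [SimpleGraph.ediam_le_iff]
    rintro ⟨x, hx⟩ ⟨y, hy⟩
    have hx' : φ.symm x ≠ φ.symm v := by
      intro h; exact hx (by simpa using φ.symm.injective h)
    have hy' : φ.symm y ≠ φ.symm v := by
      intro h; exact hy (by simpa using φ.symm.injective h)
    obtain ⟨h1, h2, h3⟩ := h (φ.symm v) (φ.symm x) (φ.symm y) hx' hy'
    let f : G.induce ({φ.symm v}ᶜ : Set V) →g (G.comap φ.symm).induce ({v}ᶜ : Set (Fin n)) :=
      { toFun := fun w => ⟨φ w.1, by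
          intro h
          apply w.2
          have h' : φ w.1 = v := h
          exact (Equiv.eq_symm_apply φ).mpr h'⟩
        map_rel' := by
          intro a b hab
          simpa using hab }
    have := edist_hom_le f ⟨φ.symm x, h1⟩ ⟨φ.symm y, h2⟩
    have hfx : f ⟨φ.symm x, h1⟩ = ⟨x, hx⟩ := Subtype.ext (φ.apply_symm_apply x)
    have hfy : f ⟨φ.symm y, h2⟩ = ⟨y, hy⟩ := Subtype.ext (φ.apply_symm_apply y)
    rw [hfx, hfy] at this
    exact this.trans h3

section Walks

variable {N k c : ℕ}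

lemma adj_hub : (ladder N k c).Adj (Sum.inl false) (Sum.inl true) := by
  simp [ladder, SimpleGraph.fromRel_adj, rel]

lemma adj_rung (g : Fin N) (j : Fin k) (t t' : Fin (c + 2)) (h : (t : ℕ) + 1 = t') :
    (ladder N k c).Adj (Sum.inr (g, j, t)) (Sum.inr (g, j, t')) := by
  have hne : t ≠ t' := by
    intro h'; rw [h'] at h; omega
  simp [ladder, SimpleGraph.fromRel_adj, rel, h, hne]

lemma adj_rail (g : Fin N) (j j' : Fin k) (t : Fin (c + 2)) (ht : (t : ℕ) = 0 ∨ (t : ℕ) = c + 1)
    (h : (j : ℕ) + 1 = j') :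
    (ladder N k c).Adj (Sum.inr (g, j, t)) (Sum.inr (g, j', t)) := by
  have hne : j ≠ j' := by
    intro h'; rw [h'] at h; omega
  refine (SimpleGraph.fromRel_adj _ _ _).mpr ⟨by simpa using hne, Or.inl ?_⟩
  exact ⟨rfl, Or.inr ⟨h, rfl, ht⟩⟩

lemma adj_lo (g : Fin N) (j : Fin k) (t : Fin (c + 2)) (ht : (t : ℕ) = 0 ∨ (t : ℕ) = c + 1)
    (h : (j : ℕ) = 0) :
    (ladder N k c).Adj (Sum.inr (g, j, t)) (Sum.inl false) := by
  refine (SimpleGraph.fromRel_adj _ _ _).mpr ⟨by simp, Or.inr ?_⟩
  exact ⟨h, ht⟩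

lemma adj_hi (g : Fin N) (j : Fin k) (t : Fin (c + 2)) (ht : (t : ℕ) = 0 ∨ (t : ℕ) = c + 1)
    (h : (j : ℕ) + 1 = k) :
    (ladder N k c).Adj (Sum.inr (g, j, t)) (Sum.inl true) := by
  refine (SimpleGraph.fromRel_adj _ _ _).mpr ⟨by simp, Or.inr ?_⟩
  exact ⟨h, ht⟩

lemma rung_walk (v : Vert N k c) (g : Fin N) (j : Fin k) (a : Fin (c + 2)) :
    ∀ (m : ℕ) (b : Fin (c + 2)), (b : ℕ) = a + m →
      (∀ t : Fin (c + 2), a ≤ t → t ≤ b → v ≠ Sum.inr (g, j, t)) →
      Conn (ladder N k c) v m (Sum.inr (g, j, a)) (Sum.inr (g, j, b)) := by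
  intro m
  induction m with
  | zero =>
    intro b hb hv
    have : b = a := Fin.ext (by simpa using hb)
    subst this
    exact Conn.refl (Ne.symm (hv b le_rfl le_rfl)) 0
  | succ m ih =>
    intro b hb hv
    have hb2 := b.2
    let b' : Fin (c + 2) := ⟨a + m, by omega⟩
    have h1 := ih b' rfl (fun t h1 h2 => hv t h1 (by
      rw [Fin.le_def] at h2 ⊢
      have : (b' : ℕ) = a + m := rfl
      omega))
    have h2 : Conn (ladder N k c) v 1 (Sum.inr (g, j, b')) (Sum.inr (g, j, b)) := by
      apply Conn.step (adj_rung g j b' b (by show (a : ℕ) + m + 1 = b; omega))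
      · exact Ne.symm (hv b' (by rw [Fin.le_def]; show (a : ℕ) ≤ a + m; omega)
          (by rw [Fin.le_def]; show (a : ℕ) + m ≤ b; omega))
      · exact Ne.symm (hv b (by rw [Fin.le_def]; omega) le_rfl)
    exact h1.trans h2

lemma rail_lo (v : Vert N k c) (hv0 : v ≠ Sum.inl false) (g : Fin N) (t : Fin (c + 2))
    (ht : (t : ℕ) = 0 ∨ (t : ℕ) = c + 1) :
    ∀ (m : ℕ) (j : Fin k), (j : ℕ) = m →
      (∀ i : Fin k, i ≤ j → v ≠ Sum.inr (g, i, t)) →
      Conn (ladder N k c) v (m + 1) (Sum.inr (g, j, t)) (Sum.inl false) := by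
  intro m
  induction m with
  | zero =>
    intro j hj hv
    exact Conn.step (adj_lo g j t ht hj) (Ne.symm (hv j le_rfl)) (Ne.symm hv0)
  | succ m ih =>
    intro j hj hv
    have hj2 := j.2
    let j' : Fin k := ⟨m, by omega⟩
    have h1 := ih j' rfl (fun i hi => hv i (by
      rw [Fin.le_def] at hi ⊢
      have : (j' : ℕ) = m := rfl
      omega))
    have h2 : Conn (ladder N k c) v 1 (Sum.inr (g, j, t)) (Sum.inr (g, j', t)) := by
      apply Conn.symm
      apply Conn.step (adj_rail g j' j t ht (by show m + 1 = j; omega))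
      · exact Ne.symm (hv j' (by rw [Fin.le_def]; show m ≤ j; omega))
      · exact Ne.symm (hv j le_rfl)
    have := h2.trans h1
    exact this.mono (by omega)

lemma rail_hi (v : Vert N k c) (hv0 : v ≠ Sum.inl true) (g : Fin N) (t : Fin (c + 2))
    (ht : (t : ℕ) = 0 ∨ (t : ℕ) = c + 1) :
    ∀ (m : ℕ) (j : Fin k), (j : ℕ) + 1 + m = k →
      (∀ i : Fin k, j ≤ i → v ≠ Sum.inr (g, i, t)) →
      Conn (ladder N k c) v (m + 1) (Sum.inr (g, j, t)) (Sum.inl true) := by
  intro m
  induction m with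
  | zero =>
    intro j hj hv
    exact Conn.step (adj_hi g j t ht hj) (Ne.symm (hv j le_rfl)) (Ne.symm hv0)
  | succ m ih =>
    intro j hj hv
    have hj2 := j.2
    let j' : Fin k := ⟨j + 1, by omega⟩
    have h1 := ih j' (by show (j : ℕ) + 1 + 1 + m = k; omega) (fun i hi => hv i (by
      rw [Fin.le_def] at hi ⊢
      have : (j' : ℕ) = j + 1 := rfl
      omega))
    have h2 : Conn (ladder N k c) v 1 (Sum.inr (g, j, t)) (Sum.inr (g, j', t)) := by
      apply Conn.step (adj_rail g j j' t ht rfl)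
      · exact Ne.symm (hv j le_rfl)
      · exact Ne.symm (hv j' (by rw [Fin.le_def]; show (j : ℕ) ≤ j + 1; omega))
    have := h2.trans h1
    exact this.mono (by omega)

/-- `x` can reach one of the two hubs within `n` steps avoiding `v`. -/
def Near (N k c : ℕ) (v : Vert N k c) (n : ℕ) (x : Vert N k c) : Prop :=
  Conn (ladder N k c) v n x (Sum.inl false) ∨ Conn (ladder N k c) v n x (Sum.inl true)

lemma Near.mono {v x : Vert N k c} {m n : ℕ} (h : Near N k c v m x) (hmn : m ≤ n) :
    Near N k c v n x := by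
  rcases h with h | h
  · exact Or.inl (h.mono hmn)
  · exact Or.inr (h.mono hmn)

lemma Near.of_conn {v x y : Vert N k c} {m n : ℕ} (h : Conn (ladder N k c) v m x y)
    (h' : Near N k c v n y) : Near N k c v (m + n) x := by
  rcases h' with h' | h'
  · exact Or.inl (h.trans h')
  · exact Or.inr (h.trans h')

lemma near_pair {v x y : Vert N k c} {m n : ℕ} (hx : Near N k c v m x) (hy : Near N k c v n y) :
    Conn (ladder N k c) v (m + n + 1) x y := by
  rcases hx with hx | hx <;> rcases hy with hy | hy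
  · exact (hx.trans hy.symm).mono (by omega)
  · have h1 := hx.symm.ne_left
    have h2 := hy.symm.ne_left
    have := (hx.trans (Conn.step adj_hub h1 h2)).trans hy.symm
    exact this.mono (by omega)
  · have h1 := hx.symm.ne_left
    have h2 := hy.symm.ne_left
    have := (hx.trans (Conn.step adj_hub h2 h1).symm).trans hy.symm
    exact this.mono (by omega)
  · exact (hx.trans hy.symm).mono (by omega)

lemma near_rail (v : Vert N k c) (g : Fin N) (j : Fin k) (t : Fin (c + 2))
    (ht : (t : ℕ) = 0 ∨ (t : ℕ) = c + 1) (hne : v ≠ Sum.inr (g, j, t)) :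
    Near N k c v k (Sum.inr (g, j, t)) := by
  have hj := j.2
  by_cases h : v ≠ Sum.inl false ∧ ∀ i : Fin k, i ≤ j → v ≠ Sum.inr (g, i, t)
  · exact Or.inl ((rail_lo v h.1 g t ht j j rfl h.2).mono (by omega))
  · right
    have h' : v = Sum.inl false ∨ ∃ i : Fin k, i ≤ j ∧ v = Sum.inr (g, i, t) := by
      by_contra hcon
      push Not at hcon
      exact h ⟨hcon.1, hcon.2⟩
    have key := rail_hi v (by rcases h' with h' | ⟨i, _, h'⟩ <;> simp [h']) g t ht (k - 1 - j) j
      (by omega) (by
        intro i' hi'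
        rcases h' with h' | ⟨i, hi, h'⟩
        · simp [h']
        · intro h2
          rw [h'] at h2
          have : i = i' := by simpa using h2
          subst this
          have : i = j := le_antisymm hi hi'
          subst this
          exact hne h')
    exact key.mono (by omega)

lemma near_generic {m : ℕ} (hm : c = 2 * m) (v : Vert N k c) (g : Fin N) (j : Fin k)
    (t : Fin (c + 2)) (hv : ∀ t' : Fin (c + 2), v ≠ Sum.inr (g, j, t')) :
    Near N k c v (m + k) (Sum.inr (g, j, t)) := by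
  have ht := t.2
  by_cases h : (t : ℕ) ≤ m
  · have h0 : (((0 : Fin (c + 2)) : Fin (c + 2)) : ℕ) = 0 := rfl
    have h1 := rung_walk v g j 0 t t (by simp) (fun t' _ _ => hv t')
    exact (Near.of_conn h1.symm (near_rail v g j 0 (Or.inl rfl) (hv 0))).mono (by omega)
  · have h1 := rung_walk v g j t (c + 1 - t) (Fin.last (c + 1)) (by simp; omega)
      (fun t' _ _ => hv t')
    exact (Near.of_conn h1 (near_rail v g j (Fin.last (c + 1)) (Or.inr rfl) (hv _))).mono
      (by omega)

lemma near_exc {m : ℕ} (hm : c = 2 * m) (v : Vert N k c) (g : Fin N) (j : Fin k)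
    (t : Fin (c + 2)) (hne : v ≠ Sum.inr (g, j, t)) :
    Near N k c v (c + k) (Sum.inr (g, j, t)) := by
  by_cases hv : ∀ t' : Fin (c + 2), v ≠ Sum.inr (g, j, t')
  · exact (near_generic hm v g j t hv).mono (by omega)
  · push Not at hv
    obtain ⟨t0, hv⟩ := hv
    subst hv
    have hne' : t0 ≠ t := by
      intro h; apply hne; rw [h]
    have hne'' : (t0 : ℕ) ≠ t := fun h => hne' (Fin.ext h)
    have ht := t.2
    have ht0 := t0.2
    rcases Nat.lt_or_gt_of_ne hne'' with hlt | hlt
    · have h1 := rung_walk (Sum.inr (g, j, t0) : Vert N k c) g j t (c + 1 - t)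
        (Fin.last (c + 1)) (by simp; omega)
        (fun t' h1 _ h3 => by
          have : t0 = t' := by simpa using h3
          rw [Fin.le_def] at h1
          rw [← this] at h1
          omega)
      exact (Near.of_conn h1 (near_rail _ g j (Fin.last (c + 1)) (Or.inr rfl) (by
        intro h3
        have : t0 = Fin.last (c + 1) := by simpa using h3
        have : (t0 : ℕ) = c + 1 := by rw [this]; rfl
        omega))).mono (by omega)
    · have h1 := rung_walk (Sum.inr (g, j, t0) : Vert N k c) g j 0 t t (by simp)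
        (fun t' _ h2 h3 => by
          have : t0 = t' := by simpa using h3
          rw [Fin.le_def] at h2
          rw [← this] at h2
          omega)
      exact (Near.of_conn h1.symm (near_rail _ g j 0 (Or.inl rfl) (by
        intro h3
        have : t0 = 0 := by simpa using h3
        have : (t0 : ℕ) = 0 := by rw [this]; rfl
        omega))).mono (by omega)

/-- Any two vertices other than `v` are joined by a short walk avoiding `v`. -/
lemma ladder_conn {m : ℕ} (hm : c = 2 * m) (v x y : Vert N k c) (hx : x ≠ v) (hy : y ≠ v) :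
    Conn (ladder N k c) v (3 * m + 2 * k + 1) x y := by
  -- every vertex has a hub within `c + k`
  have hexc : ∀ w : Vert N k c, w ≠ v → Near N k c v (c + k) w := by
    rintro (b | ⟨g, j, t⟩) hw
    · cases b
      · exact Or.inl (Conn.refl hw _)
      · exact Or.inr (Conn.refl hw _)
    · exact near_exc hm v g j t (Ne.symm hw)
  -- one of the two has a hub within `m + k`, or both lie on the rung of `v`
  have hgen : ∀ w : Vert N k c, w ≠ v → Near N k c v (m + k) w ∨
      ∃ (g : Fin N) (j : Fin k) (t t0 : Fin (c + 2)), w = Sum.inr (g, j, t) ∧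
        v = Sum.inr (g, j, t0) := by
    rintro (b | ⟨g, j, t⟩) hw
    · left
      cases b
      · exact Or.inl (Conn.refl hw _)
      · exact Or.inr (Conn.refl hw _)
    · by_cases hv : ∀ t' : Fin (c + 2), v ≠ Sum.inr (g, j, t')
      · exact Or.inl (near_generic hm v g j t hv)
      · right
        push Not at hv
        obtain ⟨t0, hv⟩ := hv
        exact ⟨g, j, t, t0, rfl, hv⟩
  rcases hgen x hx with hx' | ⟨g, j, t, t0, hx', hv⟩
  · exact (near_pair hx' (hexc y hy)).mono (by omega)
  rcases hgen y hy with hy' | ⟨g', j', t', t0', hy', hv'⟩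
  · exact (near_pair (hexc x hx) hy').mono (by omega)
  have h1 : g = g' ∧ j = j' ∧ t0 = t0' := by
    rw [hv] at hv'
    simpa using hv'
  obtain ⟨rfl, rfl, rfl⟩ := h1
  subst hx' hy' hv
  have hxt : (t : ℕ) ≠ t0 := by
    intro h; apply hx; rw [Fin.ext h]
  have hyt : (t' : ℕ) ≠ t0 := by
    intro h; apply hy; rw [Fin.ext h]
  have ht := t.2
  have ht' := t'.2
  have ht0 := t0.2
  -- walk along the rung
  have direct : ∀ a b : Fin (c + 2), (a : ℕ) ≤ b → ((t0 : ℕ) < a ∨ (b : ℕ) < t0) →
      Conn (ladder N k c) (Sum.inr (g, j, t0)) (b - a) (Sum.inr (g, j, a))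
        (Sum.inr (g, j, b)) := by
    intro a b hab h
    refine rung_walk _ g j a (b - a) b (by omega) ?_
    intro s hs1 hs2 h3
    have h4 : t0 = s := by simpa using h3
    rw [← h4] at hs1 hs2
    rw [Fin.le_def] at hs1 hs2
    omega
  -- the general two sided estimate
  have opp : ∀ a b : Fin (c + 2), (a : ℕ) < t0 → (t0 : ℕ) < b →
      Conn (ladder N k c) (Sum.inr (g, j, t0)) (3 * m + 2 * k + 1) (Sum.inr (g, j, a))
        (Sum.inr (g, j, b)) := by
    intro a b ha hb
    have hb2 := b.2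
    have h1 := direct 0 a (by simp) (Or.inr ha)
    have h2 := direct b (Fin.last (c + 1)) (by simp; omega) (Or.inl hb)
    have h3 : Near N k c (Sum.inr (g, j, t0)) k (Sum.inr (g, j, 0)) :=
      near_rail _ g j 0 (Or.inl rfl) (by
        intro h
        have : t0 = 0 := by simpa using h
        have : (t0 : ℕ) = 0 := by rw [this]; rfl
        omega)
    have h4 : Near N k c (Sum.inr (g, j, t0)) k (Sum.inr (g, j, Fin.last (c + 1))) :=
      near_rail _ g j (Fin.last (c + 1)) (Or.inr rfl) (by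
        intro h
        have : t0 = Fin.last (c + 1) := by simpa using h
        have : (t0 : ℕ) = c + 1 := by rw [this]; rfl
        omega)
    have := (h1.symm.trans (near_pair h3 h4)).trans h2.symm
    refine this.mono ?_
    simp
    omega
  rcases Nat.lt_or_gt_of_ne hxt with h1 | h1 <;> rcases Nat.lt_or_gt_of_ne hyt with h2 | h2
  · rcases le_total (t : ℕ) t' with h | h
    · exact (direct t t' h (Or.inr h2)).mono (by omega)
    · exact (direct t' t h (Or.inr h1)).symm.mono (by omega)
  · exact opp t t' h1 h2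
  · exact (opp t' t h2 h1).symm
  · rcases le_total (t : ℕ) t' with h | h
    · exact (direct t t' h (Or.inl h1)).mono (by omega)
    · exact (direct t' t h (Or.inl h2)).symm.mono (by omega)

end Walks

section Count

variable (N k c : ℕ)

/-- Index type for the edges. -/
abbrev EIdx (N k c : ℕ) : Type :=
  Unit ⊕ ((Fin N × Fin k × Fin (c + 1)) ⊕ (Fin N × Fin (k + 1) × Bool))

/-- The end of a rung. -/
def rend (c : ℕ) (b : Bool) : Fin (c + 2) := if b then Fin.last (c + 1) else 0

/-- The edges. -/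
def edge : EIdx N k c → Sym2 (Vert N k c)
  | Sum.inl _ => s(Sum.inl false, Sum.inl true)
  | Sum.inr (Sum.inl (g, j, t)) => s(Sum.inr (g, j, t.castSucc), Sum.inr (g, j, t.succ))
  | Sum.inr (Sum.inr (g, i, b)) =>
      s((if h : 0 < (i : ℕ) then Sum.inr (g, ⟨i - 1, by have := i.2; omega⟩, rend c b)
          else Sum.inl false),
        (if h : (i : ℕ) < k then Sum.inr (g, ⟨i, h⟩, rend c b) else Sum.inl true))

lemma exists_rend {c : ℕ} {t : Fin (c + 2)} (ht : (t : ℕ) = 0 ∨ (t : ℕ) = c + 1) :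
    ∃ b, rend c b = t := by
  rcases ht with ht | ht
  · exact ⟨false, by simp [rend]; exact Fin.ext (by simpa using ht.symm)⟩
  · exact ⟨true, by simp [rend]; exact Fin.ext (by simpa using ht.symm)⟩

lemma rel_mem (x y : Vert N k c) (h : rel N k c x y) : s(x, y) ∈ Set.range (edge N k c) := by
  rcases x with b | ⟨g, j, t⟩ <;> rcases y with b' | ⟨g', j', t'⟩
  · cases b <;> cases b' <;> simp [rel] at h
    exact ⟨Sum.inl (), rfl⟩
  · cases b
    · simp only [rel] at h
      obtain ⟨hj, ht⟩ := h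
      obtain ⟨b, rfl⟩ := exists_rend ht
      refine ⟨Sum.inr (Sum.inr (g', 0, b)), ?_⟩
      have hk : 0 < k := by have := j'.2; omega
      have : (⟨0, hk⟩ : Fin k) = j' := Fin.ext hj.symm
      simp [edge, hk, this]
    · simp only [rel] at h
      obtain ⟨hj, ht⟩ := h
      obtain ⟨b, rfl⟩ := exists_rend ht
      refine ⟨Sum.inr (Sum.inr (g', Fin.last k, b)), ?_⟩
      have hk : 0 < k := by have := j'.2; omega
      have hj' : (⟨k - 1, by omega⟩ : Fin k) = j' := Fin.ext (by simp; omega)
      simp [edge, hk, hj', Sym2.eq_swap]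
  · cases b' <;> simp [rel] at h
  · simp only [rel] at h
    obtain ⟨rfl, h⟩ := h
    rcases h with ⟨rfl, h⟩ | ⟨h, rfl, ht⟩
    · have ht' := t'.2
      refine ⟨Sum.inr (Sum.inl (g, j, ⟨t, by omega⟩)), ?_⟩
      have h1 : (⟨t, by omega⟩ : Fin (c + 1)).castSucc = t := rfl
      have h2 : (⟨t, by omega⟩ : Fin (c + 1)).succ = t' := Fin.ext (by simpa using h)
      simp only [edge]
      rw [h1, h2]
    · obtain ⟨b, rfl⟩ := exists_rend ht
      have hj' := j'.2
      refine ⟨Sum.inr (Sum.inr (g, ⟨j', by omega⟩, b)), ?_⟩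
      have h0 : 0 < (j' : ℕ) := by omega
      have h1 : (⟨(j' : ℕ) - 1, by omega⟩ : Fin k) = j := Fin.ext (by simp; omega)
      simp [edge, h0, h1]

lemma edgeSet_subset : (ladder N k c).edgeSet ⊆ Set.range (edge N k c) := by
  intro e he
  induction e with
  | h x y =>
    rw [SimpleGraph.mem_edgeSet] at he
    rcases ((SimpleGraph.fromRel_adj _ _ _).mp he).2 with h | h
    · exact rel_mem N k c x y h
    · rw [Sym2.eq_swap]; exact rel_mem N k c y x h

lemma ncard_edgeSet_le :
    (ladder N k c).edgeSet.ncard ≤ 1 + (N * (k * (c + 1)) + N * ((k + 1) * 2)) := by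
  have h1 : (ladder N k c).edgeSet.ncard ≤ (Set.range (edge N k c)).ncard :=
    Set.ncard_le_ncard (edgeSet_subset N k c) (Set.toFinite _)
  have h2 : (Set.range (edge N k c)).ncard ≤ Nat.card (EIdx N k c) := by
    rw [← Set.image_univ, ← Set.ncard_univ]
    exact Set.ncard_image_le (Set.toFinite _)
  have h3 : Nat.card (EIdx N k c) = 1 + (N * (k * (c + 1)) + N * ((k + 1) * 2)) := by
    simp [EIdx, Nat.card_eq_fintype_card]
  omega

end Count

/-- The extremal function of the problem. -/
noncomputable def fhat (n d : ℕ) : ℕ :=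
  sInf {m : ℕ | ∃ G : SimpleGraph (Fin n), G.edgeSet.ncard = m ∧
              ∀ v : Fin n, (G.induce ({v}ᶜ : Set (Fin n))).ediam ≤ (d : ℕ∞)}

/-- Upper bound for the extremal function coming from the ladder graphs. -/
theorem fhat_le (N k m : ℕ) :
    fhat (2 + N * (k * (2 * m + 2))) (3 * m + 2 * k + 1) ≤
      1 + (N * (k * (2 * m + 1)) + N * ((k + 1) * 2)) := by
  obtain ⟨G', h1, h2⟩ := transport (ladder N k (2 * m)) (2 + N * (k * (2 * m + 2)))
    (3 * m + 2 * k + 1) (by simp [Vert]) (fun v x y hx hy => ladder_conn rfl v x y hx hy)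
  refine le_trans (Nat.sInf_le ⟨G', rfl, h2⟩) ?_
  rw [h1]
  exact ncard_edgeSet_le N k (2 * m)

end Pool.Agent.Helper61.BH
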