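import Pool.Agent.Helper36.SB.Fin

/-!
# Project SB: a profile concentrated at one place

The valuation is the one which belongs to the family `((T - b)^2 - t^(2r-2) y) R(T)` of monic polynomials of
degree `r = s + 2`, where `R` is monic of degree `s` with `R(a_l) = t z_l`, and `b`, `y`, `z_l` are indeterminates.
-/

set_option autoImplicit false

namespace Pool.Agent.Helper61.SBOne

open MvPolynomial Pool.Agent.Helper36.SB

/-- The indeterminates: `none` is `y`, `some none` is `b`, `some (some l)` is `z_l`. -/
abbrev AA (K : Type*) [Field K] (s : ℕ) := MvPolynomial (Option (Option (Fin s))) K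

/-- Substitution of `t z_l` for the values of `R`. -/
noncomputable def sz (K : Type*) [Field K] (s : ℕ) : MvPolynomial (Fin s) K →ₐ[K] Polynomial (AA K s) :=
  aeval (fun l => Polynomial.X * Polynomial.C (X (some (some l))))

/-- `(T - b)^2 - t^(2s+2) y`. -/
noncomputable def Qt (K : Type*) [Field K] (s : ℕ) : Polynomial (Polynomial (AA K s)) :=
  (Polynomial.X - Polynomial.C (Polynomial.C (X (some none)))) ^ 2 -
    Polynomial.C (Polynomial.X ^ (2 * s + 2) * Polynomial.C (X none))

/-- The family of polynomials of degree `s + 2`. -/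
noncomputable def Pt {K : Type*} [Field K] {s : ℕ} (a : Fin s → K) : Polynomial (Polynomial (AA K s)) :=
  Qt K s * (Py a).map (sz K s : MvPolynomial (Fin s) K →+* Polynomial (AA K s))

/-- Substitution of the values of the family at the `p_i`. -/
noncomputable def Th {K : Type*} [Field K] {s : ℕ} (p : Fin (s + 2) → K) (a : Fin s → K) :
    MvPolynomial (Fin (s + 2)) K →ₐ[K] Polynomial (AA K s) :=
  aeval (fun i => (Pt a).eval (Polynomial.C (C (p i))))

/-- Specialisation of the indeterminates. -/
noncomputable def sp {K : Type*} [Field K] {s : ℕ} (e : Option (Option (Fin s)) → K) :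
    Polynomial (AA K s) →ₐ[K] Polynomial K :=
  Polynomial.mapAlgHom (aeval e)

section

variable {K : Type*} [Field K] {s : ℕ}

lemma sp_X (e : Option (Option (Fin s)) → K) : sp e Polynomial.X = Polynomial.X := by
  unfold sp
  simp

lemma sp_C (e : Option (Option (Fin s)) → K) (f : AA K s) : sp e (Polynomial.C f) = Polynomial.C (aeval e f) := by
  unfold sp
  simp

lemma natTrailingDegree_le_sp (e : Option (Option (Fin s)) → K) {F : Polynomial (AA K s)} (h : sp e F ≠ 0) :
    F ≠ 0 ∧ F.natTrailingDegree ≤ (sp e F).natTrailingDegree := by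
  refine ⟨fun h0 => h (by rw [h0, map_zero]), ?_⟩
  apply Polynomial.natTrailingDegree_le_of_ne_zero
  intro h0
  have h1 : (sp e F).coeff (sp e F).natTrailingDegree = aeval e (F.coeff (sp e F).natTrailingDegree) := by
    conv_lhs => rw [sp]
    rw [Polynomial.coe_mapAlgHom, Polynomial.coeff_map]
    rfl
  rw [h0, map_zero] at h1
  exact (Polynomial.coeff_natTrailingDegree_ne_zero.2 h) h1

lemma Qt_monic : (Qt K s).Monic ∧ (Qt K s).natDegree = 2 := by
  have h1 : ((Polynomial.X - Polynomial.C (Polynomial.C (X (some none)))) ^ 2 :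
      Polynomial (Polynomial (AA K s))).Monic := (Polynomial.monic_X_sub_C _).pow 2
  have h2 : ((Polynomial.X - Polynomial.C (Polynomial.C (X (some none)))) ^ 2 :
      Polynomial (Polynomial (AA K s))).natDegree = 2 := by
    rw [(Polynomial.monic_X_sub_C _).natDegree_pow, Polynomial.natDegree_X_sub_C]
  have h3 : (Polynomial.C (Polynomial.X ^ (2 * s + 2) * Polynomial.C (X none)) :
      Polynomial (Polynomial (AA K s))).degree < ((Polynomial.X - Polynomial.C (Polynomial.C (X (some none)))) ^ 2 :
      Polynomial (Polynomial (AA K s))).degree := by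
    rw [Polynomial.degree_eq_natDegree h1.ne_zero, h2]
    exact Polynomial.degree_C_le.trans_lt (by norm_num)
  refine ⟨h1.sub_of_left h3, ?_⟩
  unfold Qt
  rw [Polynomial.natDegree_sub_eq_left_of_natDegree_lt, h2]
  rw [h2, Polynomial.natDegree_C]
  norm_num

lemma Pt_monic {a : Fin s → K} (ha : Function.Injective a) : (Pt a).Monic ∧ (Pt a).natDegree = s + 2 := by
  have h1 := (Py_monic ha).map (sz K s : MvPolynomial (Fin s) K →+* Polynomial (AA K s))
  refine ⟨Qt_monic.1.mul h1, ?_⟩
  unfold Pt
  rw [Qt_monic.1.natDegree_mul h1, Qt_monic.2, (Py_monic ha).natDegree_map, Py_natDegree ha]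
  omega

lemma Th_Py {p : Fin (s + 2) → K} (hp : Function.Injective p) {a : Fin s → K} (ha : Function.Injective a) :
    (Py p).map (Th p a : MvPolynomial (Fin (s + 2)) K →+* Polynomial (AA K s)) = Pt a := by
  symm
  apply eq_map_Py hp
  · exact (Pt_monic ha).1
  · exact (Pt_monic ha).2
  · intro i
    have h1 : (Th p a : MvPolynomial (Fin (s + 2)) K →+* Polynomial (AA K s)) (C (p i)) = Polynomial.C (C (p i)) := by
      rw [RingHom.coe_coe]
      exact (Th p a).commutes (p i)
    rw [h1, RingHom.coe_coe]
    unfold Th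
    rw [aeval_X]

lemma Th_dl {p : Fin (s + 2) → K} (hp : Function.Injective p) {a : Fin s → K} (ha : Function.Injective a) :
    Th p a (dl p) = (Pt a).discr := by
  have h := discr_map (Th p a : MvPolynomial (Fin (s + 2)) K →+* Polynomial (AA K s)) (Py p)
    (by rw [Py_natDegree hp]; omega) (by rw [(Py_monic hp).leadingCoeff, map_one]; exact one_ne_zero)
  rw [Th_Py hp ha] at h
  exact h

/-- The resultant with the derivative vanishes when `t^(2s+2) y` does. -/
lemma res_zero {B : Type*} [CommRing B] [Nontrivial B] (φ : Polynomial (AA K s) →+* B) {a : Fin s → K}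
    (ha : Function.Injective a) (h0 : φ (Polynomial.X ^ (2 * s + 2) * Polynomial.C (X none)) = 0) :
    φ ((Pt a).resultant (Pt a).derivative (s + 2) (s + 2 - 1)) = 0 := by
  rw [← Polynomial.resultant_map_map]
  set β := φ (Polynomial.C (X (some none))) with hβ
  set R := ((Py a).map (sz K s : MvPolynomial (Fin s) K →+* Polynomial (AA K s))).map φ with hR
  have hRm : R.Monic := ((Py_monic ha).map _).map _
  have hRd : R.natDegree = s := by
    rw [hR, ((Py_monic ha).map _).natDegree_map, (Py_monic ha).natDegree_map, Py_natDegree ha]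
  have h1 : (Pt a).map φ = (Polynomial.X - Polynomial.C β) * ((Polynomial.X - Polynomial.C β) * R) := by
    unfold Pt Qt
    rw [Polynomial.map_mul, ← hR, Polynomial.map_sub, Polynomial.map_pow, Polynomial.map_sub,
      Polynomial.map_X, Polynomial.map_C, Polynomial.map_C, h0, Polynomial.C_0, ← hβ]
    ring
  rw [← Polynomial.derivative_map, h1]
  set g := Polynomial.derivative ((Polynomial.X - Polynomial.C β) * ((Polynomial.X - Polynomial.C β) * R))
    with hg
  have hn1 : ((Polynomial.X - Polynomial.C β) * R).natDegree = s + 1 := by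
    rw [(Polynomial.monic_X_sub_C β).natDegree_mul hRm, Polynomial.natDegree_X_sub_C, hRd]
    omega
  have hn2 : ((Polynomial.X - Polynomial.C β) * ((Polynomial.X - Polynomial.C β) * R)).natDegree = s + 2 := by
    rw [(Polynomial.monic_X_sub_C β).natDegree_mul ((Polynomial.monic_X_sub_C β).mul hRm),
      Polynomial.natDegree_X_sub_C, hn1]
    omega
  have hgd : g.natDegree ≤ s + 2 - 1 := by
    have := Polynomial.natDegree_derivative_le
      ((Polynomial.X - Polynomial.C β) * ((Polynomial.X - Polynomial.C β) * R))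
    rwa [hn2] at this
  have h3 := Polynomial.resultant_mul_left (Polynomial.X - Polynomial.C β)
    ((Polynomial.X - Polynomial.C β) * R) g (s + 2 - 1) hgd
  rw [Polynomial.natDegree_X_sub_C, hn1, Polynomial.resultant_X_sub_C_left _ _ _ hgd] at h3
  have h4 : g.eval β = 0 := by
    rw [hg, Polynomial.derivative_mul]
    simp
  rw [h4, zero_mul] at h3
  have h5 : 1 + (s + 1) = s + 2 := by omega
  rwa [h5] at h3

/-- `t^(2r-2)` divides the discriminant of the family. -/
lemma dvd_dl {p : Fin (s + 2) → K} (hp : Function.Injective p) {a : Fin s → K} (ha : Function.Injective a) :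
    Polynomial.X ^ (2 * s + 2) ∣ Th p a (dl p) := by
  rw [Th_dl hp ha]
  have hm := (Pt_monic ha).1
  have hd := (Pt_monic ha).2
  have hres := Polynomial.resultant_deriv (f := Pt a)
    (Polynomial.natDegree_pos_iff_degree_pos.1 (by rw [hd]; omega))
  rw [hm.leadingCoeff, mul_one, hd] at hres
  have key : (Polynomial.X ^ (2 * s + 2) : Polynomial (AA K s)) ∣
      (Pt a).resultant (Pt a).derivative (s + 2) (s + 2 - 1) := by
    have hIne : (Ideal.span {Polynomial.X ^ (2 * s + 2)} : Ideal (Polynomial (AA K s))) ≠ ⊤ := by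
      intro h
      rw [Ideal.span_singleton_eq_top] at h
      have h2 := Polynomial.natDegree_eq_zero_of_isUnit h
      rw [Polynomial.natDegree_X_pow] at h2
      omega
    have hnt := Ideal.Quotient.nontrivial_iff.2 hIne
    rw [← Ideal.mem_span_singleton, ← Ideal.Quotient.eq_zero_iff_mem]
    refine res_zero (B := Polynomial (AA K s) ⧸ Ideal.span {(Polynomial.X ^ (2 * s + 2) : Polynomial (AA K s))})
      (Ideal.Quotient.mk (Ideal.span {(Polynomial.X ^ (2 * s + 2) : Polynomial (AA K s))})) ha ?_
    rw [Ideal.Quotient.eq_zero_iff_mem, Ideal.mem_span_singleton]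
    exact dvd_mul_right _ _
  rw [hres] at key
  rcases neg_one_pow_eq_or (Polynomial (AA K s)) ((s + 2) * (s + 2 - 1) / 2) with h2 | h2
  · rwa [h2, one_mul] at key
  · rw [h2, neg_one_mul] at key
    exact (dvd_neg).1 key

lemma ntd_of_coeff {R : Type*} [Semiring R] {F : Polynomial R} {n : ℕ} (h : F.coeff n ≠ 0) :
    F ≠ 0 ∧ F.natTrailingDegree ≤ n := by
  refine ⟨?_, Polynomial.natTrailingDegree_le_of_ne_zero h⟩
  rintro rfl
  simp at h

lemma ntd_prod {R : Type*} [CommRing R] [IsDomain R] {α : Type*} (S : Finset α) (F : α → Polynomial R)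
    (n : α → ℕ) (h : ∀ i ∈ S, F i ≠ 0 ∧ (F i).natTrailingDegree ≤ n i) :
    (∏ i ∈ S, F i) ≠ 0 ∧ (∏ i ∈ S, F i).natTrailingDegree ≤ ∑ i ∈ S, n i := by
  classical
  induction S using Finset.induction_on with
  | empty => simp
  | insert a S ha ih =>
    obtain ⟨h1, h2⟩ := ih fun i hi => h i (Finset.mem_insert_of_mem hi)
    obtain ⟨h3, h4⟩ := h a (Finset.mem_insert_self a S)
    rw [Finset.prod_insert ha, Finset.sum_insert ha]
    refine ⟨mul_ne_zero h3 h1, ?_⟩
    rw [Polynomial.natTrailingDegree_mul h3 h1]
    omega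

/-- Specialisation of the family. -/
lemma Pt_map_sp (e : Option (Option (Fin s)) → K) (a : Fin s → K) :
    (Pt a).map (sp e : Polynomial (AA K s) →+* Polynomial K) =
      ((Polynomial.X - Polynomial.C (Polynomial.C (e (some none)))) ^ 2 -
        Polynomial.C (Polynomial.X ^ (2 * s + 2) * Polynomial.C (e none))) *
      (Py a).map (aeval (fun l => Polynomial.X * Polynomial.C (e (some (some l)))) :
        MvPolynomial (Fin s) K →ₐ[K] Polynomial K).toRingHom := by
  unfold Pt Qt
  rw [Polynomial.map_mul, Polynomial.map_map]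
  congr 1
  · rw [Polynomial.map_sub, Polynomial.map_pow, Polynomial.map_sub, Polynomial.map_X, Polynomial.map_C,
      Polynomial.map_C]
    simp only [RingHom.coe_coe, map_mul, map_pow, sp_X, sp_C, aeval_X]
  · congr 1
    have h1 : (sp e).comp (sz K s) = aeval (fun l => Polynomial.X * Polynomial.C (e (some (some l)))) := by
      apply MvPolynomial.algHom_ext
      intro l
      rw [AlgHom.comp_apply]
      unfold sz
      rw [aeval_X, aeval_X, map_mul, sp_X, sp_C, aeval_X]
    rw [← h1]
    rfl

/-- The discriminant of the family has order `2r-2`. -/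
lemma ntd_dl [CharZero K] {p : Fin (s + 2) → K} (hp : Function.Injective p) {a : Fin s → K}
    (ha : Function.Injective a) : Th p a (dl p) ≠ 0 ∧ (Th p a (dl p)).natTrailingDegree = 2 * s + 2 := by
  classical
  obtain ⟨b0, hb0⟩ := Infinite.exists_notMem_finset (Finset.univ.image a)
  have hb : ∀ l, b0 - a l ≠ 0 := by
    intro l h
    apply hb0
    rw [sub_eq_zero] at h
    rw [h]
    exact Finset.mem_image_of_mem _ (Finset.mem_univ _)
  set e : Option (Option (Fin s)) → K := fun v => match v with
    | none => 1
    | some none => b0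
    | some (some _) => 0 with he
  set x : Fin (s + 2) → Polynomial K := Fin.cons (Polynomial.C b0 + Polynomial.X ^ (s + 1))
    (Fin.cons (Polynomial.C b0 - Polynomial.X ^ (s + 1)) fun l => Polynomial.C (a l)) with hx
  have hx0 : x 0 = Polynomial.C b0 + Polynomial.X ^ (s + 1) := rfl
  have hx1 : x 1 = Polynomial.C b0 - Polynomial.X ^ (s + 1) := rfl
  have hx2 : ∀ l : Fin s, x l.succ.succ = Polynomial.C (a l) := fun l => rfl
  have h1 : (Pt a).map (sp e : Polynomial (AA K s) →+* Polynomial K) =
      ∏ j, (Polynomial.X - Polynomial.C (x j)) := by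
    rw [Pt_map_sp, Fin.prod_univ_succ, Fin.prod_univ_succ, ← mul_assoc]
    have hs1 : (Fin.succ 0 : Fin (s + 2)) = 1 := rfl
    rw [hs1, hx0, hx1]
    congr 1
    · simp only [he, map_add, map_sub, map_pow, Polynomial.C_1, mul_one]
      ring
    · simp only [hx2]
      symm
      apply eq_map_Py ha
      · exact Polynomial.monic_prod_of_monic _ _ fun j _ => Polynomial.monic_X_sub_C _
      · rw [Polynomial.natDegree_prod_of_monic _ _ fun j _ => Polynomial.monic_X_sub_C _]
        simp
      · intro i
        have h2 : (aeval (fun l : Fin s => Polynomial.X * Polynomial.C (e (some (some l)))) :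
          MvPolynomial (Fin s) K →ₐ[K] Polynomial K).toRingHom (C (a i)) = Polynomial.C (a i) := by
          simp
        rw [h2, Polynomial.eval_prod, Finset.prod_eq_zero (Finset.mem_univ i) (by simp)]
        simp [he]
  have hdisc : (-1) ^ ((s + 2) * (s + 2 - 1) / 2) * sp e (Th p a (dl p)) =
      ∏ i, ∏ j ∈ Finset.univ.erase i, (x i - x j) := by
    rw [← discr_prod (by omega), ← h1]
    congr 1
    rw [Th_dl hp ha]
    have h := discr_map (sp e : Polynomial (AA K s) →+* Polynomial K) (Pt a)
      (by rw [(Pt_monic ha).2]; omega) (by rw [(Pt_monic ha).1.leadingCoeff, map_one]; exact one_ne_zero)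
    exact h
  set c : Fin (s + 2) → Fin (s + 2) → ℕ := fun i j => if (i : ℕ) < 2 ∧ (j : ℕ) < 2 then s + 1 else 0 with hc
  have hcoeff : ∀ i j, i ≠ j → (x i - x j).coeff (c i j) ≠ 0 := by
    have hC : ∀ (u : K) (n : ℕ), (Polynomial.C u).coeff n = if n = 0 then u else 0 := fun u n =>
      Polynomial.coeff_C
    have hXc : ∀ n : ℕ, (Polynomial.X ^ (s + 1) : Polynomial K).coeff n = if n = s + 1 then 1 else 0 := fun n =>
      Polynomial.coeff_X_pow _ _
    have h01 : c 0 1 = s + 1 := by simp [hc]
    have h10 : c 1 0 = s + 1 := by simp [hc]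
    have hc1 : ∀ (i : Fin s) (j : Fin (s + 2)), c i.succ.succ j = 0 := by
      intro i j
      simp [hc]
    have hc2 : ∀ (i : Fin s) (j : Fin (s + 2)), c j i.succ.succ = 0 := by
      intro i j
      simp [hc]
    have hs1 : (Fin.succ 0 : Fin (s + 2)) = 1 := rfl
    have hone : (1 : K) + 1 ≠ 0 := by rw [one_add_one_eq_two]; exact two_ne_zero
    intro i j
    refine Fin.cases ?_ (fun i => Fin.cases ?_ (fun i => ?_) i) i <;>
      refine Fin.cases ?_ (fun j => Fin.cases ?_ (fun j => ?_) j) j
    · intro h; exact absurd rfl h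
    · intro _
      rw [hs1, h01, hx0, hx1, Polynomial.coeff_sub, Polynomial.coeff_add, Polynomial.coeff_sub, hC, hXc]
      simp
    · intro _
      rw [hc2, hx0, hx2, Polynomial.coeff_sub, Polynomial.coeff_add, hC, hXc, hC]
      simpa using hb j
    · intro _
      rw [hs1, h10, hx0, hx1, Polynomial.coeff_sub, Polynomial.coeff_add, Polynomial.coeff_sub, hC, hXc]
      simp only [Nat.add_eq_zero_iff, one_ne_zero, and_false, if_false, if_true]
      intro h
      apply hone
      linear_combination -h
    · intro h; exact absurd rfl h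
    · intro _
      rw [hs1, hc2, hx1, hx2, Polynomial.coeff_sub, Polynomial.coeff_sub, hC, hXc, hC]
      simp only [if_true]
      rw [if_neg (by omega), sub_zero]
      exact hb j
    · intro _
      rw [hc1, hx0, hx2, Polynomial.coeff_sub, Polynomial.coeff_add, hC, hXc, hC]
      simp only [if_true]
      rw [if_neg (by omega), add_zero]
      intro h
      apply hb i
      linear_combination -h
    · intro _
      rw [hs1, hc1, hx1, hx2, Polynomial.coeff_sub, Polynomial.coeff_sub, hC, hXc, hC]
      simp only [if_true]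
      rw [if_neg (by omega), sub_zero]
      intro h
      apply hb i
      linear_combination -h
    · intro hij
      rw [hc1, hx2, hx2, Polynomial.coeff_sub, hC, hC, if_pos rfl, if_pos rfl, sub_ne_zero]
      intro h
      apply hij
      rw [ha h]
  have hprod := ntd_prod (Finset.univ : Finset (Fin (s + 2))) (fun i => ∏ j ∈ Finset.univ.erase i, (x i - x j))
    (fun i => ∑ j ∈ Finset.univ.erase i, c i j)
    (fun i _ => ntd_prod _ _ _ fun j hj => ntd_of_coeff (hcoeff i j (Finset.ne_of_mem_erase hj).symm))
  have hsum : ∑ i, ∑ j ∈ Finset.univ.erase i, c i j = 2 * s + 2 := by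
    have h3 : ∀ i : Fin (s + 2), ∑ j ∈ Finset.univ.erase i, c i j = ∑ j, c i j - c i i := by
      intro i
      rw [← Finset.add_sum_erase _ _ (Finset.mem_univ i)]
      omega
    simp_rw [h3]
    rw [Fin.sum_univ_succ, Fin.sum_univ_succ]
    simp only [hc, Fin.sum_univ_succ]
    simp
    omega
  rw [← hdisc, hsum] at hprod
  obtain ⟨h3, h4⟩ := hprod
  have h5 : sp e (Th p a (dl p)) ≠ 0 := right_ne_zero_of_mul h3
  have h6 : (sp e (Th p a (dl p))).natTrailingDegree ≤ 2 * s + 2 := by
    rcases neg_one_pow_eq_or (Polynomial K) ((s + 2) * (s + 2 - 1) / 2) with h7 | h7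
    · rwa [h7, one_mul] at h4
    · rwa [h7, neg_one_mul, Polynomial.natTrailingDegree_neg] at h4
  obtain ⟨h7, h8⟩ := natTrailingDegree_le_sp e h5
  refine ⟨h7, le_antisymm (h8.trans h6) ?_⟩
  apply Polynomial.le_natTrailingDegree h7
  intro m hm
  exact (Polynomial.X_pow_dvd_iff.1 (dvd_dl hp ha)) m hm

/-- The value of the monic polynomial at a point has total degree at most one. -/
lemma Py_eval_totalDegree (a : Fin s → K) (c : K) : ((Py a).eval (C c)).totalDegree ≤ 1 := by
  unfold Py
  rw [Polynomial.eval_add]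
  refine (totalDegree_add _ _).trans (max_le ?_ ?_)
  · rw [Polynomial.eval_prod]
    refine (totalDegree_finsetProd _ _).trans ?_
    refine le_trans (le_of_eq (Finset.sum_eq_zero fun i _ => ?_)) (Nat.zero_le 1)
    rw [Polynomial.eval_sub, Polynomial.eval_X, Polynomial.eval_C, ← C_sub, totalDegree_C]
  · rw [Polynomial.eval_finsetSum]
    refine (totalDegree_finsetSum _ _).trans ?_
    rw [Finset.sup_le_iff]
    intro i _
    rw [Polynomial.eval_mul, Polynomial.eval_C, Polynomial.eval_map, Polynomial.eval₂_at_apply]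
    refine (totalDegree_mul _ _).trans ?_
    rw [totalDegree_X, totalDegree_C]

/-- If the discriminant does not divide `f`, the order of `f` along the family is at most its degree. -/
lemma ntd_of_not_dvd [CharZero K] [IsAlgClosed K] {p : Fin (s + 2) → K} (hp : Function.Injective p)
    {a : Fin s → K} (ha : Function.Injective a) {f : MvPolynomial (Fin (s + 2)) K} (hf : ¬ dl p ∣ f) :
    Th p a f ≠ 0 ∧ (Th p a f).natTrailingDegree ≤ f.totalDegree := by
  have hij : (0 : Fin (s + 2)) ≠ 1 := by
    intro h
    have := congrArg Fin.val h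
    simp at this
  have h1 : su K 0 1 (ps p f) ≠ 0 := fun h => hf (dl_dvd hp hij h)
  have : Infinite K := IsAlgClosed.instInfinite
  obtain ⟨x, hx⟩ : ∃ x, eval x (su K 0 1 (ps p f)) ≠ 0 := by
    by_contra hcon
    push Not at hcon
    apply h1
    apply MvPolynomial.funext
    intro x
    rw [hcon x, map_zero]
  set e : Option (Option (Fin s)) → K := fun v => match v with
    | none => 0
    | some none => x 1
    | some (some l) => ∏ l' : Fin s, (a l - x l'.succ.succ) with he
  -- the value of the specialisation at `t = 1`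
  have h2 : eval x (su K 0 1 (ps p f)) =
      eval (fun i => (p i - x 1) ^ 2 * ∏ l' : Fin s, (p i - x l'.succ.succ)) f := by
    have h3 : ((aeval x : MvPolynomial (Fin (s + 2)) K →ₐ[K] K).comp (su K 0 1)).comp (ps p) =
        aeval (fun i => (p i - x 1) ^ 2 * ∏ l' : Fin s, (p i - x l'.succ.succ)) := by
      apply MvPolynomial.algHom_ext
      intro i
      rw [AlgHom.comp_apply, AlgHom.comp_apply]
      unfold ps su
      rw [aeval_X, aeval_X, map_prod, map_prod, Fin.prod_univ_succ, Fin.prod_univ_succ]
      have hs1 : (Fin.succ 0 : Fin (s + 2)) = 1 := rfl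
      rw [hs1]
      simp only [map_sub, aeval_X, Function.update_self, Function.update_of_ne hij.symm]
      have h4 : ∀ l : Fin s, (l.succ.succ : Fin (s + 2)) ≠ 0 := fun l => Fin.succ_ne_zero _
      simp only [Function.update_of_ne (h4 _), aeval_X]
      have h5 : (aeval x : MvPolynomial (Fin (s + 2)) K →ₐ[K] K)
          (algebraMap K (MvPolynomial (Fin (s + 2)) K) (p i)) = p i := (aeval x).commutes _
      simp only [algHom_C, h5]
      ring
    rw [← aeval_eq_eval, ← aeval_eq_eval]
    exact DFunLike.congr_fun h3 f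
  set φ : MvPolynomial (Fin s) K →ₐ[K] Polynomial K :=
    aeval (fun l => Polynomial.X * Polynomial.C (e (some (some l)))) with hφ
  have hG : ∀ i, sp e ((Pt a).eval (Polynomial.C (C (p i)))) =
      Polynomial.C ((p i - x 1) ^ 2) * φ ((Py a).eval (C (p i))) := by
    intro i
    have h6 : sp e ((Pt a).eval (Polynomial.C (C (p i)))) =
        ((Pt a).map (sp e : Polynomial (AA K s) →+* Polynomial K)).eval (Polynomial.C (p i)) := by
      have h7 : (Polynomial.C (p i) : Polynomial K) = (sp e : Polynomial (AA K s) →+* Polynomial K)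
          (Polynomial.C (C (p i))) := by
        rw [RingHom.coe_coe, sp_C, aeval_C]
        rfl
      rw [h7, Polynomial.eval_map, Polynomial.eval₂_at_apply]
      rfl
    rw [h6, Pt_map_sp, Polynomial.eval_mul]
    congr 1
    · simp only [he, Polynomial.eval_sub, Polynomial.eval_pow, Polynomial.eval_X, Polynomial.eval_C,
        Polynomial.C_0, mul_zero, sub_zero, map_pow, map_sub]
    · have h7 : (Polynomial.C (p i) : Polynomial K) = φ.toRingHom (C (p i)) := by
        rw [hφ]
        simp
      rw [h7, Polynomial.eval_map, Polynomial.eval₂_at_apply]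
      rfl
  have h5 : Polynomial.eval 1 (sp e (Th p a f)) = eval x (su K 0 1 (ps p f)) := by
    rw [h2]
    have h3 : ((Polynomial.aeval (1 : K)).comp (sp e)).comp (Th p a) =
        aeval (fun i => (p i - x 1) ^ 2 * ∏ l' : Fin s, (p i - x l'.succ.succ)) := by
      apply MvPolynomial.algHom_ext
      intro i
      rw [AlgHom.comp_apply, AlgHom.comp_apply]
      unfold Th
      rw [aeval_X, aeval_X, hG, map_mul, Polynomial.aeval_C]
      congr 1
      set ψ : MvPolynomial (Fin s) K →ₐ[K] K := (Polynomial.aeval (1 : K)).comp φ with hψ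
      have h8 : (Py a).map (ψ : MvPolynomial (Fin s) K →+* K) =
          ∏ l' : Fin s, (Polynomial.X - Polynomial.C (x l'.succ.succ)) := by
        symm
        apply eq_map_Py ha
        · exact Polynomial.monic_prod_of_monic _ _ fun j _ => Polynomial.monic_X_sub_C _
        · rw [Polynomial.natDegree_prod_of_monic _ _ fun j _ => Polynomial.monic_X_sub_C _]
          simp
        · intro l
          rw [Polynomial.eval_prod, RingHom.coe_coe]
          have h9 : ψ (C (a l)) = a l := ψ.commutes (a l)
          rw [h9, hψ, AlgHom.comp_apply, hφ, aeval_X, map_mul, Polynomial.aeval_X, Polynomial.aeval_C, one_mul]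
          simp [he]
      have h10 : ψ ((Py a).eval (C (p i))) = ((Py a).map (ψ : MvPolynomial (Fin s) K →+* K)).eval (p i) := by
        have h9 : (p i) = (ψ : MvPolynomial (Fin s) K →+* K) (C (p i)) := (ψ.commutes (p i)).symm
        conv_rhs => rw [h9]
        rw [Polynomial.eval_map, Polynomial.eval₂_at_apply]
        rfl
      have h11 : (Polynomial.aeval (1 : K)) (φ ((Py a).eval (C (p i)))) = ψ ((Py a).eval (C (p i))) := rfl
      rw [h11, h10, h8, Polynomial.eval_prod]
      simp
    have h4 := DFunLike.congr_fun h3 f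
    rw [AlgHom.comp_apply, AlgHom.comp_apply] at h4
    rw [← aeval_eq_eval, ← h4]
    rfl
  have h6 : sp e (Th p a f) ≠ 0 := by
    intro h
    apply hx
    rw [← h5, h, Polynomial.eval_zero]
  obtain ⟨h7, h8⟩ := natTrailingDegree_le_sp e h6
  refine ⟨h7, h8.trans ((Polynomial.natTrailingDegree_le_natDegree _).trans ?_)⟩
  have h9 : sp e (Th p a f) = aeval (fun i => sp e ((Pt a).eval (Polynomial.C (C (p i))))) f := by
    rw [← AlgHom.comp_apply]
    congr 1
    apply MvPolynomial.algHom_ext
    intro i
    rw [AlgHom.comp_apply]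
    unfold Th
    rw [aeval_X, aeval_X]
  rw [h9, ← mul_one f.totalDegree]
  apply MvPolynomial.aeval_natDegree_le f le_rfl
  intro i
  rw [hG]
  refine (Polynomial.natDegree_C_mul_le _ _).trans ?_
  have h10 := MvPolynomial.aeval_natDegree_le (n := 1) ((Py a).eval (C (p i))) (Py_eval_totalDegree a (p i))
    (fun l => Polynomial.X * Polynomial.C (e (some (some l)))) (fun l => by
      refine (Polynomial.natDegree_mul_C_le _ _).trans ?_
      exact Polynomial.natDegree_X_le)
  exact h10

/-- The order of `f` along the family is at most its degree. -/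
theorem ntd_le [CharZero K] [IsAlgClosed K] {p : Fin (s + 2) → K} (hp : Function.Injective p)
    {a : Fin s → K} (ha : Function.Injective a) {f : MvPolynomial (Fin (s + 2)) K} (hf : f ≠ 0) :
    Th p a f ≠ 0 ∧ (Th p a f).natTrailingDegree ≤ f.totalDegree := by
  have hr : 2 ≤ s + 2 := by omega
  obtain ⟨g, hg, hng⟩ := (finite_mult hr hp hf).exists_eq_pow_mul_and_not_dvd
  set i := multiplicity (dl p) f with hi
  have hd0 := (prime_dl hr hp).ne_zero
  have hg0 : g ≠ 0 := by
    rintro rfl
    exact hng (dvd_zero _)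
  obtain ⟨h1, h2⟩ := ntd_of_not_dvd hp ha hng
  obtain ⟨h3, h4⟩ := ntd_dl hp ha
  have h5 : ∀ i : ℕ, (Th p a (dl p) ^ i).natTrailingDegree = i * (2 * s + 2) := by
    intro i
    induction i with
    | zero => simp
    | succ i ih =>
      rw [pow_succ, Polynomial.natTrailingDegree_mul (pow_ne_zero _ h3) h3, ih, h4]
      ring
  have h6 : ∀ i : ℕ, (dl p ^ i * g).totalDegree = i * (2 * s + 2) + g.totalDegree := by
    intro i
    rw [totalDegree_mul_of_isDomain (pow_ne_zero _ hd0) hg0]
    congr 1
    induction i with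
    | zero => simp
    | succ i ih =>
      rw [pow_succ, totalDegree_mul_of_isDomain (pow_ne_zero _ hd0) hd0, ih, dl_totalDegree hr hp]
      have : 2 * (s + 2) - 2 = 2 * s + 2 := by omega
      rw [this]
      ring
  have h7 : Th p a f = Th p a (dl p) ^ i * Th p a g := by
    conv_lhs => rw [hg]
    rw [map_mul, map_pow]
  have h8 : f.totalDegree = i * (2 * s + 2) + g.totalDegree := by
    conv_lhs => rw [hg]
    exact h6 i
  rw [h7, h8]
  refine ⟨mul_ne_zero (pow_ne_zero _ h3) h1, ?_⟩
  rw [Polynomial.natTrailingDegree_mul (pow_ne_zero _ h3) h1, h5]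
  omega

end

section profile

variable {k K : Type*} [Field k] [Field K] [Algebra k K] [CharZero K] [IsAlgClosed K] {s : ℕ}
  {ι : Type*} [Fintype ι] [DecidableEq ι]

/-- The profile, concentrated at the place `v₀`. -/
noncomputable def w1 (p : Fin (s + 2) → K) (a : Fin s → K) (v₀ v : ι) (f : MvPolynomial (Fin (s + 2 + 1)) K) : ℝ :=
  if v = v₀ then ((Th p a (th p f)).natTrailingDegree : ℝ) else 0

omit [Fintype ι] in
/-- The order of a form is at most its degree. -/
lemma w1_le {p : Fin (s + 2) → K} (hp : Function.Injective p) {a : Fin s → K} (ha : Function.Injective a)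
    (v₀ v : ι) {m : ℕ} {f : MvPolynomial (Fin (s + 2 + 1)) K} (hf : f.IsHomogeneous m) : w1 p a v₀ v f ≤ m := by
  have : Infinite K := IsAlgClosed.instInfinite
  unfold w1
  split_ifs
  · by_cases h0 : f = 0
    · rw [h0, map_zero, map_zero, Polynomial.natTrailingDegree_zero]
      simp
    · have h1 := ntd_le hp ha (th_ne_zero hp hf h0)
      exact_mod_cast h1.2.trans (th_totalDegree hf)
  · positivity

lemma w1_isProfile {p : Fin (s + 2) → K} (hp : Function.Injective p) {a : Fin s → K}
    (ha : Function.Injective a) (v₀ : ι) : IsProfile k (s + 2) (w1 p a v₀) where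
  nonneg := by
    intro v m f _ _
    unfold w1
    split_ifs
    · positivity
    · exact le_rfl
  mul := by
    intro v m n f g hf hg hf0 hg0
    have : Infinite K := IsAlgClosed.instInfinite
    have h1 := (ntd_le hp ha (th_ne_zero hp hf hf0)).1
    have h2 := (ntd_le hp ha (th_ne_zero hp hg hg0)).1
    unfold w1
    split_ifs
    · rw [map_mul, map_mul, Polynomial.natTrailingDegree_mul h1 h2]
      push_cast; ring
    · ring
  add := by
    intro v m f g hf hg hf0 hg0 hfg
    have : Infinite K := IsAlgClosed.instInfinite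
    have h3 := (ntd_le hp ha (th_ne_zero hp (hf.add hg) hfg)).1
    unfold w1
    rw [map_add, map_add] at h3 ⊢
    split_ifs
    · rw [← Nat.cast_min, Nat.cast_le]
      apply Polynomial.le_natTrailingDegree h3
      intro j hj
      rw [lt_min_iff] at hj
      rw [Polynomial.coeff_add, Polynomial.coeff_eq_zero_of_lt_natTrailingDegree hj.1,
        Polynomial.coeff_eq_zero_of_lt_natTrailingDegree hj.2, add_zero]
    · simp
  const := by
    intro v c hc
    unfold w1
    have h1 : th p (C c) = C c := by
      exact (th p).commutes c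
    have h2 : Th p a (C c) = Polynomial.C (C c) := (Th p a).commutes c
    rw [h1, h2, Polynomial.natTrailingDegree_C]
    simp
  coord := by
    intro v
    refine ⟨Fin.last (s + 2), ?_⟩
    unfold w1
    rw [th_last hp, map_one, Polynomial.natTrailingDegree_one]
    simp
  subspace := by
    intro m n f M hf _ _
    have h1 : ∀ i, w1 p a v₀ v₀ (∑ j, C (M v₀ i j) * map (algebraMap k K) (f j)) ≤ m := by
      intro i
      apply w1_le hp ha
      exact IsHomogeneous.sum _ _ _ fun j _ => ((hf j).map _).C_mul _
    rw [Finset.sum_eq_single v₀]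
    · refine (Finset.sum_le_sum fun i _ => h1 i).trans ?_
      rw [Finset.sum_const, Finset.card_univ, Fintype.card_fin, nsmul_eq_mul, mul_comm]
    · intro v _ hv
      refine Finset.sum_eq_zero fun i _ => ?_
      rw [w1, if_neg hv]
    · intro h
      exact absurd (Finset.mem_univ _) h

omit [CharZero K] [IsAlgClosed K] in
lemma th_ev_eq {r : ℕ} {p : Fin r → K} (hp : Function.Injective p) (c : K) : th p (ev r c) = (Py p).eval (C c) := by
  rw [← gen_eval, ← gen_map_th hp, Polynomial.eval_map]
  have h3 : (C c : MvPolynomial (Fin r) K) =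
      (th p : MvPolynomial (Fin (r + 1)) K →+* MvPolynomial (Fin r) K) (C c) := by
    simp
  rw [h3, Polynomial.eval₂_at_apply]
  rfl

omit [CharZero K] [IsAlgClosed K] in
/-- The value of the family at `c`. -/
lemma Th_ev {p : Fin (s + 2) → K} (hp : Function.Injective p) {a : Fin s → K} (ha : Function.Injective a) (c : K) :
    Th p a (th p (ev (s + 2) c)) = (Pt a).eval (Polynomial.C (C c)) := by
  have h1 : (Polynomial.C (C c) : Polynomial (AA K s)) =
      (Th p a : MvPolynomial (Fin (s + 2)) K →+* Polynomial (AA K s)) (C c) := ((Th p a).commutes c).symm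
  rw [th_ev_eq hp, ← Th_Py hp ha, h1, Polynomial.eval_map, Polynomial.eval₂_at_apply]
  rfl

omit [Fintype ι] in
/-- The profile is at least one at the nodes. -/
lemma one_le_w1 {p : Fin (s + 2) → K} (hp : Function.Injective p) {a : Fin s → K} (ha : Function.Injective a)
    (v₀ : ι) (l : Fin s) : 1 ≤ w1 p a v₀ v₀ (ev (s + 2) (a l)) := by
  have : Infinite K := IsAlgClosed.instInfinite
  have h1 := (ntd_le hp ha (th_ne_zero hp (ev_isHomogeneous K (s + 2) (a l)) (ev_ne_zero K (s + 2) (a l)))).1
  rw [w1, if_pos rfl]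
  have h2 : ((Py a).map (sz K s : MvPolynomial (Fin s) K →+* Polynomial (AA K s))).eval (Polynomial.C (C (a l))) =
      Polynomial.X * Polynomial.C (X (some (some l))) := by
    have h3 : (Polynomial.C (C (a l)) : Polynomial (AA K s)) =
        (sz K s : MvPolynomial (Fin s) K →+* Polynomial (AA K s)) (C (a l)) := ((sz K s).commutes (a l)).symm
    rw [h3, Polynomial.eval_map, Polynomial.eval₂_at_apply, Py_eval ha, RingHom.coe_coe]
    unfold sz
    rw [aeval_X]
  have h3 : (Polynomial.X : Polynomial (AA K s)) ^ 1 ∣ Th p a (th p (ev (s + 2) (a l))) := by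
    rw [Th_ev hp ha, pow_one]
    unfold Pt
    rw [Polynomial.eval_mul, h2]
    exact dvd_mul_of_dvd_right (dvd_mul_right _ _) _
  have h4 : 1 ≤ (Th p a (th p (ev (s + 2) (a l)))).natTrailingDegree := by
    apply Polynomial.le_natTrailingDegree h1
    intro m hm
    exact (Polynomial.X_pow_dvd_iff.1 h3) m hm
  exact_mod_cast h4

omit [Fintype ι] [IsAlgClosed K] in
/-- The value of the profile at the discriminant. -/
lemma w1_disc {p : Fin (s + 2) → K} (hp : Function.Injective p) {a : Fin s → K} (ha : Function.Injective a)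
    (v₀ : ι) : w1 p a v₀ v₀ (disc K (s + 2)) = 2 * ((s + 2 : ℕ) : ℝ) - 2 := by
  rw [w1, if_pos rfl, th_disc (by omega) hp, (ntd_dl hp ha).2]
  push_cast
  ring

omit [Fintype ι] [DecidableEq ι] in
/-- The nodes. -/
lemma exists_nodes [CharZero k] {g : Polynomial k} (hg : Squarefree g) (s : ℕ) :
    ∃ a : Fin s → K, Function.Injective a ∧ (∃ T : Finset K, T ⊆ pts g K ∧ T.card = min g.natDegree s ∧
      ∀ c ∈ T, ∃ l, a l = c) ∧
      (g.natDegree ≤ s → ∀ σ : K ≃ₐ[k] K, ∀ l, ∃ l', a l' = σ (a l)) := by
  classical
  have hs : (g.map (algebraMap k K)).Splits := IsAlgClosed.splits _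
  have hcard := card_pts hg hs
  have key : ∃ T1 : Finset K, T1.card = s ∧ (pts g K ∩ T1).card = min g.natDegree s ∧
      (g.natDegree ≤ s → ∀ σ : K ≃ₐ[k] K, ∀ c ∈ T1, σ c ∈ T1) := by
    rcases le_or_gt g.natDegree s with hq | hq
    · -- add natural numbers
      have hinf : {n : ℕ | (n : K) ∉ pts g K}.Infinite := by
        have h1 : {n : ℕ | (n : K) ∈ pts g K}.Finite :=
          Set.Finite.preimage (f := fun n : ℕ => (n : K)) (fun a _ b _ h => Nat.cast_injective h)
            (pts g K).finite_toSet
        exact h1.infinite_compl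
      obtain ⟨N, hN, hNc⟩ := hinf.exists_subset_card_eq (s - g.natDegree)
      have hdisj : Disjoint (pts g K) (N.image fun n : ℕ => (n : K)) := by
        rw [Finset.disjoint_right]
        intro c hc
        obtain ⟨n, hn, rfl⟩ := Finset.mem_image.1 hc
        exact hN hn
      refine ⟨pts g K ∪ N.image fun n : ℕ => (n : K), ?_, ?_, ?_⟩
      · rw [Finset.card_union_of_disjoint hdisj, hcard,
          Finset.card_image_of_injective _ Nat.cast_injective, hNc]
        omega
      · rw [Finset.inter_eq_left.2 Finset.subset_union_left, hcard, min_eq_left hq]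
      · intro _ σ c hc
        rcases Finset.mem_union.1 hc with h | h
        · apply Finset.mem_union_left
          unfold pts at h ⊢
          rw [Multiset.mem_toFinset, Polynomial.mem_aroots] at h ⊢
          refine ⟨h.1, ?_⟩
          have h2 := Polynomial.aeval_algHom_apply σ.toAlgHom c g
          rw [h.2, map_zero] at h2
          exact h2
        · obtain ⟨n, hn, rfl⟩ := Finset.mem_image.1 h
          apply Finset.mem_union_right
          rw [map_natCast]
          exact h
    · obtain ⟨T, hT1, hT2⟩ := Finset.exists_subset_card_eq (n := s) (s := pts g K) (by rw [hcard]; exact hq.le)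
      refine ⟨T, hT2, ?_, fun h => absurd h (by omega)⟩
      rw [Finset.inter_eq_right.2 hT1, hT2, min_eq_right hq.le]
  obtain ⟨T1, h1, h2, h3⟩ := key
  have e := (T1.equivFinOfCardEq h1).symm
  have hmem : ∀ c ∈ T1, ∃ l, (e l).1 = c := fun c hc => ⟨e.symm ⟨c, hc⟩, by simp⟩
  refine ⟨fun l => (e l).1, Subtype.val_injective.comp e.injective, ⟨pts g K ∩ T1, Finset.inter_subset_left, h2,
    fun c hc => hmem c (Finset.mem_inter.1 hc).2⟩, ?_⟩
  intro hq σ l
  exact hmem _ (h3 hq σ _ (e l).2)

omit [Fintype ι] [CharZero K] [IsAlgClosed K] in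
/-- If the nodes are permuted by an automorphism of the constants, the profile is invariant. -/
lemma w1_galois {p : Fin (s + 2) → K} (hp : Function.Injective p) {a : Fin s → K} (ha : Function.Injective a)
    (v₀ v : ι) (σ : K ≃ₐ[k] K) (hσp : ∀ i, σ (p i) = p i) (hσa : ∀ l, ∃ l', a l' = σ (a l))
    (f : MvPolynomial (Fin (s + 2 + 1)) K) :
    w1 p a v₀ v (map (σ : K →+* K) f) = w1 p a v₀ v f := by
  choose π hπ using hσa
  have hπi : Function.Injective π := by
    intro i j hij
    apply ha
    apply σ.injective
    rw [← hπ, ← hπ, hij]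
  -- the automorphism of the coefficients
  set φ : AA K s →+* AA K s :=
    ((rename (Option.map (Option.map π)) : AA K s →ₐ[K] AA K s) : AA K s →+* AA K s).comp (map (σ : K →+* K))
    with hφ
  have hφi : Function.Injective φ := by
    rw [hφ, RingHom.coe_comp]
    refine Function.Injective.comp ?_ (map_injective _ σ.injective)
    exact rename_injective _ (Option.map_injective (Option.map_injective hπi))
  have hφC : ∀ c : K, φ (C c) = C (σ c) := by
    intro c
    simp [hφ]
  have hφX : ∀ o, φ (X o) = X (Option.map (Option.map π) o) := by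
    intro o
    simp [hφ]
  set Φ : Polynomial (AA K s) →+* Polynomial (AA K s) := Polynomial.mapRingHom φ with hΦ
  have hΦC : ∀ c : AA K s, Φ (Polynomial.C c) = Polynomial.C (φ c) := fun c => by simp [hΦ]
  have hΦX : Φ Polynomial.X = Polynomial.X := by simp [hΦ]
  have hΦn : ∀ F, (Φ F).natTrailingDegree = F.natTrailingDegree := by
    intro F
    by_cases hF : F = 0
    · rw [hF, map_zero]
    · have hF' : Φ F ≠ 0 := by
        intro h
        apply hF
        exact Polynomial.map_injective φ hφi (by rw [Polynomial.map_zero]; exact h)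
      apply le_antisymm
      · apply Polynomial.natTrailingDegree_le_of_ne_zero
        rw [hΦ, Polynomial.coe_mapRingHom, Polynomial.coeff_map]
        intro h
        rw [← map_zero φ] at h
        exact Polynomial.coeff_natTrailingDegree_ne_zero.2 hF (hφi h)
      · apply Polynomial.le_natTrailingDegree hF'
        intro j hj
        rw [hΦ, Polynomial.coe_mapRingHom, Polynomial.coeff_map,
          Polynomial.coeff_eq_zero_of_lt_natTrailingDegree hj, map_zero]
  -- the family is fixed
  have hR : ((Py a).map (sz K s : MvPolynomial (Fin s) K →+* Polynomial (AA K s))).map Φ =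
      (Py a).map (sz K s : MvPolynomial (Fin s) K →+* Polynomial (AA K s)) := by
    rw [Polynomial.map_map]
    symm
    apply eq_map_Py ha
    · exact (Py_monic ha).map _
    · rw [(Py_monic ha).natDegree_map, Py_natDegree ha]
    · intro i
      have h1 : (Φ.comp (sz K s : MvPolynomial (Fin s) K →+* Polynomial (AA K s))) (C (a i)) =
          (sz K s : MvPolynomial (Fin s) K →+* Polynomial (AA K s)) (C (a (π i))) := by
        have h2 : ∀ c : K, (sz K s) (C c) = Polynomial.C (C c) := fun c => (sz K s).commutes c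
        rw [RingHom.comp_apply, RingHom.coe_coe, h2, h2, hΦC, hφC, hπ]
      rw [h1, Polynomial.eval_map, Polynomial.eval₂_at_apply, Py_eval ha, RingHom.comp_apply, RingHom.coe_coe]
      unfold sz
      rw [aeval_X, aeval_X, map_mul, hΦX, hΦC, hφX]
      rfl
  have hP : (Pt a).map Φ = Pt a := by
    unfold Pt
    rw [Polynomial.map_mul, hR]
    congr 1
    unfold Qt
    rw [Polynomial.map_sub, Polynomial.map_pow, Polynomial.map_sub, Polynomial.map_X, Polynomial.map_C,
      Polynomial.map_C, map_mul, map_pow, hΦX, hΦC, hΦC, hφX, hφX]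
    rfl
  have h1 : ∀ f : MvPolynomial (Fin (s + 2)) K, Th p a (map (σ : K →+* K) f) = Φ (Th p a f) := by
    intro f
    have h2 : (Th p a : MvPolynomial (Fin (s + 2)) K →+* Polynomial (AA K s)).comp (map (σ : K →+* K)) =
        Φ.comp (Th p a : MvPolynomial (Fin (s + 2)) K →+* Polynomial (AA K s)) := by
      apply MvPolynomial.ringHom_ext
      · intro c
        have h3 : ∀ c : K, (Th p a) (C c) = Polynomial.C (C c) := fun c => (Th p a).commutes c
        rw [RingHom.comp_apply, RingHom.comp_apply, map_C, RingHom.coe_coe, RingHom.coe_coe, h3, h3, hΦC, hφC]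
      · intro i
        rw [RingHom.comp_apply, RingHom.comp_apply, map_X, RingHom.coe_coe]
        unfold Th
        rw [aeval_X]
        have h3 : (Polynomial.C (C (p i)) : Polynomial (AA K s)) = Φ (Polynomial.C (C (p i))) := by
          rw [hΦC, hφC, hσp]
        conv_lhs => rw [← hP, h3]
        rw [Polynomial.eval_map, Polynomial.eval₂_at_apply]
    exact DFunLike.congr_fun h2 f
  have h2 : ∀ f : MvPolynomial (Fin (s + 2 + 1)) K, th p (map (σ : K →+* K) f) = map (σ : K →+* K) (th p f) := by
    intro f
    have hPy : (Py p).map (map (σ : K →+* K)) = Py p := by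
      have h3 : (Py p).map (RingHom.id (MvPolynomial (Fin (s + 2)) K)) = Py p := Polynomial.map_id
      conv_rhs => rw [← h3]
      symm
      rw [h3]
      apply eq_map_Py hp
      · exact Py_monic hp
      · exact Py_natDegree hp
      · intro i
        rw [map_C, map_X, RingHom.coe_coe, hσp, Py_eval hp]
    have h3 : (th p : MvPolynomial (Fin (s + 2 + 1)) K →+* MvPolynomial (Fin (s + 2)) K).comp (map (σ : K →+* K)) =
        (map (σ : K →+* K)).comp (th p : MvPolynomial (Fin (s + 2 + 1)) K →+* MvPolynomial (Fin (s + 2)) K) := by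
      apply MvPolynomial.ringHom_ext
      · intro c
        have h4 : ∀ c : K, (th p) (C c) = C c := fun c => (th p).commutes c
        rw [RingHom.comp_apply, RingHom.comp_apply, map_C, RingHom.coe_coe, RingHom.coe_coe, h4, h4, map_C]
        rfl
      · intro i
        rw [RingHom.comp_apply, RingHom.comp_apply, map_X, RingHom.coe_coe]
        unfold th
        rw [aeval_X]
        conv_lhs => rw [← hPy]
        rw [Polynomial.coeff_map]
    exact DFunLike.congr_fun h3 f
  unfold w1
  rw [h2, h1, hΦn]

/-- For every place there is a profile concentrated there with the value at least `min q (r - 2) + 2 r - 2`. If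
`q ≤ r - 2` it is invariant under all automorphisms of the constants. -/
theorem one_place [CharZero k] {r : ℕ} (hr : 2 ≤ r) {g : Polynomial k} (hg : Squarefree g) (v₀ : ι) :
    ∃ w : ι → MvPolynomial (Fin (r + 1)) K → ℝ, IsProfile k r w ∧ (∀ v, v ≠ v₀ → ∀ f, w v f = 0) ∧
      (g.natDegree + 2 ≤ r → ∀ (σ : K ≃ₐ[k] K) (v : ι) (f : MvPolynomial (Fin (r + 1)) K),
        w v (map (σ : K →+* K) f) = w v f) ∧
      ((min g.natDegree (r - 2) : ℕ) : ℝ) + (2 * r - 2) ≤ ∑ v, (∑ a ∈ pts g K, w v (ev r a) + w v (disc K r)) := by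
  classical
  obtain ⟨s, rfl⟩ : ∃ s, r = s + 2 := ⟨r - 2, by omega⟩
  obtain ⟨a, ha, ⟨T, hT, hTc, hTa⟩, hgal⟩ := exists_nodes (K := K) hg s
  set p : Fin (s + 2) → K := fun i => ((i : ℕ) : K) with hpdef
  have hp : Function.Injective p := by
    intro i j hij
    exact Fin.ext (Nat.cast_injective hij)
  have hprof := w1_isProfile (k := k) hp ha v₀
  refine ⟨w1 p a v₀, hprof, ?_, ?_, ?_⟩
  · intro v hv f
    rw [w1, if_neg hv]
  · intro hq σ v f
    exact w1_galois hp ha v₀ v σ (fun i => map_natCast σ _) (hgal (by omega) σ) f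
  · have h1 : ∀ v, 0 ≤ ∑ c ∈ pts g K, w1 p a v₀ v (ev (s + 2) c) + w1 p a v₀ v (disc K (s + 2)) := by
      intro v
      refine add_nonneg (Finset.sum_nonneg fun c _ => ?_) ?_
      · exact hprof.nonneg v _ _ (ev_isHomogeneous K _ _) (ev_ne_zero K _ _)
      · exact hprof.nonneg v _ _ (disc_isHomogeneous K _ (by omega)) (disc_ne_zero (by omega))
    refine le_trans ?_ (Finset.single_le_sum (fun v _ => h1 v) (Finset.mem_univ v₀))
    rw [w1_disc hp ha]
    have h2 : ((min g.natDegree (s + 2 - 2) : ℕ) : ℝ) ≤ ∑ c ∈ pts g K, w1 p a v₀ v₀ (ev (s + 2) c) := by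
      have h3 : (s + 2 - 2) = s := by omega
      rw [h3, ← hTc]
      calc ((T.card : ℕ) : ℝ) = ∑ _c ∈ T, (1 : ℝ) := by simp
        _ ≤ ∑ c ∈ T, w1 p a v₀ v₀ (ev (s + 2) c) := by
            refine Finset.sum_le_sum fun c hc => ?_
            obtain ⟨l, rfl⟩ := hTa c hc
            exact one_le_w1 hp ha v₀ l
        _ ≤ ∑ c ∈ pts g K, w1 p a v₀ v₀ (ev (s + 2) c) := by
            refine Finset.sum_le_sum_of_subset_of_nonneg hT fun c _ _ => ?_
            exact hprof.nonneg v₀ _ _ (ev_isHomogeneous K _ _) (ev_ne_zero K _ _)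
    linarith

end profile

end Pool.Agent.Helper61.SBOne
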