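import Mathlib

set_option autoImplicit false
set_option linter.all false
set_option linter.unusedSectionVars false
set_option linter.unusedVariables false
set_option linter.style.haveILetI false

namespace Pool.Agent.Helper61.ZST

open Finset

variable {ι : Type*} [DecidableEq ι] {G : Type*} [AddCommGroup G]

/-- All sums `d + ∑ y ∈ Y, f y` with `d ∈ D` and `f y ∈ B y`. -/
def Sums (D : Set G) (B : ι → Set G) (Y : Finset ι) : Set G :=
  {s | ∃ d ∈ D, ∃ f : ι → G, (∀ y ∈ Y, f y ∈ B y) ∧ s = d + ∑ y ∈ Y, f y}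

theorem sums_empty (D : Set G) (B : ι → Set G) : Sums D B ∅ = D := by
  ext s
  constructor
  · rintro ⟨d, hd, f, -, rfl⟩
    simpa using hd
  · intro hs
    exact ⟨s, hs, fun _ => 0, by simp, by simp⟩

theorem sums_insert {D : Set G} {B : ι → Set G} {Y : Finset ι} {x : ι} (hx : x ∉ Y)
    {s b : G} (hs : s ∈ Sums D B Y) (hb : b ∈ B x) : b + s ∈ Sums D B (insert x Y) := by
  obtain ⟨d, hd, f, hf, rfl⟩ := hs
  refine ⟨d, hd, Function.update f x b, ?_, ?_⟩
  · intro y hy
    rcases mem_insert.1 hy with h | h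
    · rw [h, Function.update_self]; exact hb
    · have hne : y ≠ x := fun he => hx (he ▸ h)
      rw [Function.update_of_ne hne]
      exact hf y h
  · rw [sum_insert hx, Function.update_self]
    have : ∑ y ∈ Y, Function.update f x b y = ∑ y ∈ Y, f y := by
      apply sum_congr rfl
      intro y hy
      have hne : y ≠ x := fun he => hx (he ▸ hy)
      rw [Function.update_of_ne hne]
    rw [this]; abel

theorem mem_sums_insert {D : Set G} {B : ι → Set G} {Y : Finset ι} {x : ι} (hx : x ∉ Y)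
    {s : G} (hs : s ∈ Sums D B (insert x Y)) : ∃ b ∈ B x, ∃ s' ∈ Sums D B Y, s = b + s' := by
  obtain ⟨d, hd, f, hf, rfl⟩ := hs
  refine ⟨f x, hf x (mem_insert_self _ _), d + ∑ y ∈ Y, f y,
    ⟨d, hd, f, fun y hy => hf y (mem_insert_of_mem hy), rfl⟩, ?_⟩
  rw [sum_insert hx]; abel

theorem sums_nonempty {D : Set G} {B : ι → Set G} {Y : Finset ι} (hD : D.Nonempty)
    (hB : ∀ y ∈ Y, (B y).Nonempty) : (Sums D B Y).Nonempty := by
  classical
  obtain ⟨d, hd⟩ := hD
  refine ⟨_, d, hd, fun y => if h : y ∈ Y then (hB y h).some else 0, ?_, rfl⟩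
  intro y hy
  simp only [hy, dif_pos]
  exact (hB y hy).some_mem

open Classical in
/-- The growth lemma. -/
theorem growth [Finite G] {D : Set G} {B : ι → Set G} (hD : D.Nonempty) :
    ∀ (Y : Finset ι), (∀ y ∈ Y, (B y).Nonempty) →
      (∀ g : G, (∀ s ∈ Sums D B Y, g + s ∈ Sums D B Y) → g = 0) →
      D.ncard + (Y.filter (fun y => ¬ (B y).Subsingleton)).card ≤ (Sums D B Y).ncard := by
  intro Y
  induction Y using Finset.induction_on with
  | empty =>
    intro _ _
    rw [sums_empty]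
    simp
  | insert x Y hx ih =>
    intro hB hper
    have hper' : ∀ g : G, (∀ s ∈ Sums D B Y, g + s ∈ Sums D B Y) → g = 0 := by
      intro g hg
      apply hper
      intro s hs
      obtain ⟨b, hb, s', hs', rfl⟩ := mem_sums_insert hx hs
      have : g + (b + s') = b + (g + s') := by abel
      rw [this]
      exact sums_insert hx (hg s' hs') hb
    have h1 := ih (fun y hy => hB y (mem_insert_of_mem hy)) hper'
    obtain ⟨b0, hb0⟩ := hB x (mem_insert_self _ _)
    have hsub : ∀ b ∈ B x, (fun s => b + s) '' (Sums D B Y) ⊆ Sums D B (insert x Y) := by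
      rintro b hb _ ⟨s, hs, rfl⟩
      exact sums_insert hx hs hb
    have hcard : ∀ b : G, ((fun s => b + s) '' (Sums D B Y)).ncard = (Sums D B Y).ncard := by
      intro b
      exact Set.ncard_image_of_injective _ (add_right_injective b)
    have hle : (Sums D B Y).ncard ≤ (Sums D B (insert x Y)).ncard := by
      rw [← hcard b0]
      exact Set.ncard_le_ncard (hsub b0 hb0) (Set.toFinite _)
    by_cases hsing : (B x).Subsingleton
    · rw [filter_insert, if_neg (by simpa using hsing)]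
      omega
    · rw [filter_insert, if_pos hsing, card_insert_of_notMem (by simp [hx])]
      have hlt : (Sums D B Y).ncard < (Sums D B (insert x Y)).ncard := by
        by_contra hcon
        push Not at hcon
        apply hsing
        intro b hb b' hb'
        have e1 : (fun s => b + s) '' (Sums D B Y) = Sums D B (insert x Y) :=
          Set.eq_of_subset_of_ncard_le (hsub b hb) (by rw [hcard]; exact hcon) (Set.toFinite _)
        have e2 : (fun s => b' + s) '' (Sums D B Y) = Sums D B (insert x Y) :=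
          Set.eq_of_subset_of_ncard_le (hsub b' hb') (by rw [hcard]; exact hcon) (Set.toFinite _)
        have : b - b' = 0 := by
          apply hper'
          intro s hs
          have : b + s ∈ (fun s => b' + s) '' (Sums D B Y) := by
            rw [e2, ← e1]
            exact ⟨s, hs, rfl⟩
          obtain ⟨s', hs', he⟩ := this
          have he' : b' + s' = b + s := he
          have : b - b' + s = s' := by
            have : b - b' + s = (b + s) - b' := by abel
            rw [this, ← he']; abel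
          rw [this]; exact hs'
        exact sub_eq_zero.1 this
      omega

theorem image_sums {H : Type*} [AddCommGroup H] (φ : G →+ H) (D : Set G) (B : ι → Set G)
    (Y : Finset ι) : φ '' (Sums D B Y) = Sums (φ '' D) (fun y => φ '' (B y)) Y := by
  classical
  ext t
  constructor
  · rintro ⟨_, ⟨d, hd, f, hf, rfl⟩, rfl⟩
    refine ⟨φ d, ⟨d, hd, rfl⟩, fun y => φ (f y), fun y hy => ⟨f y, hf y hy, rfl⟩, ?_⟩
    rw [map_add, map_sum]
  · rintro ⟨_, ⟨d, hd, rfl⟩, f, hf, rfl⟩
    have : ∀ y, ∃ g : G, y ∈ Y → g ∈ B y ∧ φ g = f y := by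
      intro y
      by_cases hy : y ∈ Y
      · obtain ⟨g, hg, hgf⟩ := hf y hy
        exact ⟨g, fun _ => ⟨hg, hgf⟩⟩
      · exact ⟨0, fun h => absurd h hy⟩
    choose g hg using this
    refine ⟨d + ∑ y ∈ Y, g y, ⟨d, hd, g, fun y hy => (hg y hy).1, rfl⟩, ?_⟩
    rw [map_add, map_sum]
    congr 1
    exact sum_congr rfl (fun y hy => (hg y hy).2)

/-- The projection. -/
noncomputable abbrev pr {n N : ℕ} (h : N ∣ n) : ZMod n →+ ZMod N :=
  (ZMod.castHom h (ZMod N)).toAddMonoidHom

theorem pr_natCast {n N : ℕ} (h : N ∣ n) (k : ℕ) : pr h (k : ZMod n) = (k : ZMod N) := by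
  simp [pr]

theorem pr_surj {n N : ℕ} (h : N ∣ n) (z : ZMod N) : ∃ x : ZMod n, pr h x = z :=
  ZMod.castHom_surjective h z

theorem pr_pr {n d N : ℕ} (h1 : d ∣ n) (h2 : N ∣ d) (h3 : N ∣ n) (x : ZMod n) :
    pr h2 (pr h1 x) = pr h3 x := by
  have : (ZMod.castHom h2 (ZMod N)).comp (ZMod.castHom h1 (ZMod d)) =
      ZMod.castHom h3 (ZMod N) := Subsingleton.elim _ _
  exact congrArg (fun f => f x) this

theorem pr_eq_zero {n N : ℕ} (hn : 0 < n) (h : N ∣ n) {x : ZMod n} (hx : pr h x = 0) :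
    ∃ k : ℕ, x = ((N * k : ℕ) : ZMod n) := by
  haveI : NeZero n := ⟨hn.ne'⟩
  have h1 : x = ((x.val : ℕ) : ZMod n) := (ZMod.natCast_zmod_val x).symm
  rw [h1, pr_natCast, ZMod.natCast_eq_zero_iff] at hx
  obtain ⟨k, hk⟩ := hx
  exact ⟨k, by rw [← hk]; exact h1⟩

theorem fibre_card {d N : ℕ} (hd : 0 < d) (h : N ∣ d) (c : ZMod N) :
    {z : ZMod d | pr h z = c}.ncard ≤ d / N := by
  haveI : NeZero d := ⟨hd.ne'⟩
  have hN : 0 < N := Nat.pos_of_dvd_of_pos h hd
  have hinj : Set.InjOn (fun z : ZMod d => z.val / N) {z : ZMod d | pr h z = c} := by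
    intro z hz z' hz' he
    have h1 : ((z.val : ℕ) : ZMod N) = ((z'.val : ℕ) : ZMod N) := by
      have e1 : pr h z = ((z.val : ℕ) : ZMod N) := by
        conv_lhs => rw [← ZMod.natCast_zmod_val z]
        exact pr_natCast h _
      have e2 : pr h z' = ((z'.val : ℕ) : ZMod N) := by
        conv_lhs => rw [← ZMod.natCast_zmod_val z']
        exact pr_natCast h _
      have hz1 : pr h z = c := hz
      have hz2 : pr h z' = c := hz'
      rw [← e1, ← e2, hz1, hz2]
    rw [ZMod.natCast_eq_natCast_iff] at h1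
    have h2 : z.val % N = z'.val % N := h1
    have he' : z.val / N = z'.val / N := he
    apply ZMod.val_injective
    rw [← Nat.div_add_mod z.val N, ← Nat.div_add_mod z'.val N, he', h2]
  have h1 : {z : ZMod d | pr h z = c}.ncard =
      ((fun z : ZMod d => z.val / N) '' {z : ZMod d | pr h z = c}).ncard :=
    (Set.ncard_image_of_injOn hinj).symm
  rw [h1]
  have h2 : ((fun z : ZMod d => z.val / N) '' {z : ZMod d | pr h z = c}) ⊆
      ((Finset.range (d / N) : Finset ℕ) : Set ℕ) := by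
    rintro _ ⟨z, -, rfl⟩
    rw [Finset.coe_range, Set.mem_Iio]
    have := ZMod.val_lt z
    obtain ⟨k, rfl⟩ := h
    rw [Nat.mul_div_cancel_left _ hN]
    exact (Nat.div_lt_iff_lt_mul hN).2 (this.trans_eq (mul_comm _ _))
  refine (Set.ncard_le_ncard h2 (Finset.finite_toSet _)).trans ?_
  rw [Set.ncard_coe_finset, card_range]

/-- Reduction of a set of sums to an aperiodic one. -/
theorem exists_period {n : ℕ} (hn : 0 < n) (S : Set (ZMod n)) :
    ∃ d : ℕ, 0 < d ∧ ∃ hd : d ∣ n,
      (∀ k : ℕ, ∀ s ∈ S, ((d * k : ℕ) : ZMod n) + s ∈ S) ∧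
      (∀ x s : ZMod n, pr hd x = pr hd s → s ∈ S → x ∈ S) ∧
      (∀ g : ZMod d, (∀ s ∈ pr hd '' S, g + s ∈ pr hd '' S) → g = 0) := by
  classical
  haveI : NeZero n := ⟨hn.ne'⟩
  have hex : ∃ k : ℕ, 0 < k ∧ ∀ s ∈ S, (k : ZMod n) + s ∈ S :=
    ⟨n, hn, fun s hs => by simpa using hs⟩
  set d := Nat.find hex with hddef
  obtain ⟨hd0, hdS⟩ := Nat.find_spec hex
  have hmul : ∀ k : ℕ, ∀ s ∈ S, ((d * k : ℕ) : ZMod n) + s ∈ S := by
    intro k
    induction k with
    | zero => intro s hs; simpa using hs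
    | succ k ih =>
      intro s hs
      have h1 := hdS _ (ih s hs)
      have : ((d * (k + 1) : ℕ) : ZMod n) + s = (d : ZMod n) + (((d * k : ℕ) : ZMod n) + s) := by
        push_cast; ring
      rw [this]; exact h1
  have hdiv : ∀ k : ℕ, (∀ s ∈ S, (k : ZMod n) + s ∈ S) → d ∣ k := by
    intro k hk
    by_contra hnd
    have hmod : 0 < k % d := Nat.pos_of_ne_zero (fun h => hnd (Nat.dvd_of_mod_eq_zero h))
    have hlt : k % d < d := Nat.mod_lt _ hd0
    refine Nat.find_min hex hlt ⟨hmod, ?_⟩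
    intro s hs
    -- k % d = k - d * (k / d); use  k + (n-1) * d * (k/d)
    have h1 := hmul ((k / d) * (n - 1)) _ (hk s hs)
    have h2 : ((d * (k / d * (n - 1)) : ℕ) : ZMod n) + ((k : ZMod n) + s) =
        ((k % d : ℕ) : ZMod n) + s := by
      have h3 : ((k % d : ℕ) : ZMod n) + ((d * (k / d) : ℕ) : ZMod n) = (k : ZMod n) := by
        rw [← Nat.cast_add, Nat.mod_add_div]
      have h4 : ((n - 1 : ℕ) : ZMod n) = -1 := by
        rw [Nat.cast_sub (by omega)]; simp
      rw [← h3]
      push_cast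
      rw [h4]
      ring
    rw [h2] at h1
    exact h1
  have hd : d ∣ n := hdiv n (fun s hs => by simpa using hs)
  have hsat : ∀ x s : ZMod n, pr hd x = pr hd s → s ∈ S → x ∈ S := by
    intro x s hxs hs
    have h0 : pr hd (x - s) = 0 := by rw [map_sub, hxs, sub_self]
    obtain ⟨k, hk⟩ := pr_eq_zero hn hd h0
    have : x = ((d * k : ℕ) : ZMod n) + s := by rw [← hk]; ring
    rw [this]
    exact hmul k s hs
  refine ⟨d, hd0, hd, hmul, hsat, ?_⟩
  intro g hg
  haveI : NeZero d := ⟨hd0.ne'⟩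
  have hgv : g = ((g.val : ℕ) : ZMod d) := (ZMod.natCast_zmod_val g).symm
  have hper : ∀ s ∈ S, ((g.val : ℕ) : ZMod n) + s ∈ S := by
    intro s hs
    obtain ⟨s', hs', he⟩ := hg _ ⟨s, hs, rfl⟩
    refine hsat _ s' ?_ hs'
    rw [he, map_add, pr_natCast, ← hgv]
  have := hdiv _ hper
  rw [hgv, ZMod.natCast_eq_zero_iff]
  exact this

open Classical in
/-- The flex lemma. -/
theorem flex {n N : ℕ} (hn : 0 < n) (hN : N ∣ n) (A : ι → Set (ZMod n)) (g : ι → ZMod N)
    (Y : Finset ι) (hA : ∀ y ∈ Y, (A y).Nonempty)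
    (hg : ∀ y ∈ Y, ∀ a ∈ A y, pr hN a = g y)
    (hcount : ∀ d, N ∣ d → ∀ hd : d ∣ n, N < d →
      d / N ≤ (Y.filter (fun y => ¬ (pr hd '' (A y)).Subsingleton)).card + 1)
    (t : ZMod n) (ht : pr hN t = ∑ y ∈ Y, g y) :
    ∃ f : ι → ZMod n, (∀ y ∈ Y, f y ∈ A y) ∧ ∑ y ∈ Y, f y = t := by
  haveI : NeZero n := ⟨hn.ne'⟩
  have hN0 : 0 < N := Nat.pos_of_dvd_of_pos hN hn
  set S : Set (ZMod n) := Sums {0} A Y with hS
  suffices h : t ∈ S by
    obtain ⟨d, hd, f, hf, rfl⟩ := h
    rw [Set.mem_singleton_iff] at hd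
    subst hd
    exact ⟨f, hf, by rw [zero_add]⟩
  have hSne : S.Nonempty := sums_nonempty ⟨0, rfl⟩ hA
  have hSg : ∀ s ∈ S, pr hN s = ∑ y ∈ Y, g y := by
    rintro s ⟨d, hd, f, hf, rfl⟩
    rw [Set.mem_singleton_iff] at hd
    subst hd
    rw [zero_add, map_sum]
    exact sum_congr rfl (fun y hy => hg y hy _ (hf y hy))
  obtain ⟨d, hd0, hd, hmul, hsat, haper⟩ := exists_period hn S
  haveI : NeZero d := ⟨hd0.ne'⟩
  obtain ⟨s0, hs0⟩ := hSne
  have hNd : N ∣ d := by
    have h1 := hmul 1 s0 hs0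
    have h2 := hSg _ h1
    rw [map_add, hSg s0 hs0, pr_natCast, mul_one] at h2
    have h3 : ((d : ℕ) : ZMod N) = 0 := by
      have := add_eq_right.1 h2
      exact this
    rwa [ZMod.natCast_eq_zero_iff] at h3
  rcases Nat.eq_or_lt_of_le (Nat.le_of_dvd hd0 hNd) with heq | hlt
  · -- d = N
    subst heq
    exact hsat t s0 (by rw [ht, hSg s0 hs0]) hs0
  · exfalso
    have hc := hcount d hNd hd hlt
    have himg : pr hd '' S = Sums {0} (fun y => pr hd '' (A y)) Y := by
      rw [hS, image_sums]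
      congr 1
      simp
    have hgrow := growth (D := ({0} : Set (ZMod d))) (B := fun y => pr hd '' (A y)) ⟨0, rfl⟩ Y
      (fun y hy => (hA y hy).image _) (by
        intro g' hg'
        apply haper g'
        rw [himg]
        exact hg')
    rw [← himg, Set.ncard_singleton] at hgrow
    have hfib : pr hd '' S ⊆ {z : ZMod d | pr hNd z = ∑ y ∈ Y, g y} := by
      rintro _ ⟨s, hs, rfl⟩
      change pr hNd (pr hd s) = _
      rw [pr_pr hd hNd hN, hSg s hs]
    have hfc := fibre_card hd0 hNd (∑ y ∈ Y, g y)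
    have heq : pr hd '' S = {z : ZMod d | pr hNd z = ∑ y ∈ Y, g y} :=
      Set.eq_of_subset_of_ncard_le hfib (by omega) (Set.toFinite _)
    have : ((N : ℕ) : ZMod d) = 0 := by
      apply haper
      rw [heq]
      intro s hs
      change pr hNd _ = _
      rw [map_add, pr_natCast, ZMod.natCast_self, zero_add]
      exact hs
    rw [ZMod.natCast_eq_zero_iff] at this
    exact absurd (Nat.le_of_dvd hN0 this) (not_le.2 hlt)

/-- EGZ in blocks. -/
theorem egz_blocks {N : ℕ} (hN : 0 < N) (g : ι → ZMod N) (j : ℕ) :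
    ∀ X : Finset ι, N * (j + 1) ≤ X.card + 1 →
      ∃ Y ⊆ X, Y.card = N * j ∧ ∑ y ∈ Y, g y = 0 := by
  induction j with
  | zero => intro X _; exact ⟨∅, by simp, by simp, by simp⟩
  | succ j ih =>
    intro X hX
    have h0 : 2 * N - 1 ≤ X.card := by
      have : N * (j + 1 + 1) = N * j + 2 * N := by ring
      have : 0 ≤ N * j := Nat.zero_le _
      omega
    obtain ⟨Y1, hY1, hc1, hs1⟩ := ZMod.erdos_ginzburg_ziv g h0
    have hcs : (X \ Y1).card = X.card - N := by
      rw [card_sdiff_of_subset hY1, hc1]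
    obtain ⟨Y2, hY2, hc2, hs2⟩ := ih (X \ Y1) (by
      rw [hcs]
      have : N * (j + 1 + 1) = N * (j + 1) + N := by ring
      omega)
    have hd : Disjoint Y2 Y1 := disjoint_of_subset_left hY2 sdiff_disjoint
    refine ⟨Y2 ∪ Y1, union_subset (hY2.trans sdiff_subset) hY1, ?_, ?_⟩
    · rw [card_union_of_disjoint hd, hc1, hc2]; ring
    · rw [sum_union hd, hs1, hs2, add_zero]

end Pool.Agent.Helper61.ZST
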