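import Pool.Agent.Helper61.ZTree
import Pool.Agent.Helper61.ZFlex

set_option autoImplicit false
set_option linter.all false
set_option linter.unusedSectionVars false
set_option linter.unusedVariables false
set_option linter.style.haveILetI false

namespace Pool.Agent.Helper61.ZST

open Finset

variable {V : Type*} [DecidableEq V]

/-- An ordered structure: each vertex of `X` sees two colours to the earlier vertices. -/
def PF {G : Type*} (w : V → V → G) (v0 v1 : V) (X : Finset V) (r : V → ℕ) : Prop :=
  v0 ≠ v1 ∧ v0 ∉ X ∧ v1 ∉ X ∧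
    ∀ x ∈ X, ∃ a b, ((a = v0 ∨ a = v1) ∨ (a ∈ X ∧ r a < r x)) ∧
      ((b = v0 ∨ b = v1) ∨ (b ∈ X ∧ r b < r x)) ∧ w a x ≠ w b x

theorem PF.add {G : Type*} {w : V → V → G} {v0 v1 : V} {X : Finset V} {r : V → ℕ}
    (h : PF w v0 v1 X r) {v : V} (hv0 : v ≠ v0) (hv1 : v ≠ v1) (hvX : v ∉ X)
    (hc : ∃ a b, (a = v0 ∨ a = v1 ∨ a ∈ X) ∧ (b = v0 ∨ b = v1 ∨ b ∈ X) ∧ w a v ≠ w b v) :
    ∃ r', PF w v0 v1 (insert v X) r' := by
  obtain ⟨h01, h0, h1, hx⟩ := h
  refine ⟨Function.update r v (X.sup r + 1), h01, ?_, ?_, ?_⟩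
  · rw [mem_insert]; rintro (h | h)
    · exact hv0 h.symm
    · exact h0 h
  · rw [mem_insert]; rintro (h | h)
    · exact hv1 h.symm
    · exact h1 h
  · have hup : ∀ z ∈ X, Function.update r v (X.sup r + 1) z = r z := by
      intro z hz
      rw [Function.update_of_ne]
      rintro rfl; exact hvX hz
    intro x hxm
    rcases mem_insert.1 hxm with hxv | hxX
    · subst hxv
      obtain ⟨a, b, ha, hb, hab⟩ := hc
      have key : ∀ a, (a = v0 ∨ a = v1 ∨ a ∈ X) → ((a = v0 ∨ a = v1) ∨ (a ∈ insert x X ∧
          Function.update r x (X.sup r + 1) a < Function.update r x (X.sup r + 1) x)) := by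
        intro a ha
        rcases ha with h | h | h
        · exact Or.inl (Or.inl h)
        · exact Or.inl (Or.inr h)
        · refine Or.inr ⟨mem_insert_of_mem h, ?_⟩
          rw [hup a h, Function.update_self]
          exact Nat.lt_succ_of_le (Finset.le_sup h)
      exact ⟨a, b, key a ha, key b hb, hab⟩
    · obtain ⟨a, b, ha, hb, hab⟩ := hx x hxX
      have key : ∀ a, ((a = v0 ∨ a = v1) ∨ (a ∈ X ∧ r a < r x)) →
          ((a = v0 ∨ a = v1) ∨ (a ∈ insert v X ∧
          Function.update r v (X.sup r + 1) a < Function.update r v (X.sup r + 1) x)) := by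
        intro a ha
        rcases ha with h | ⟨h, hlt⟩
        · exact Or.inl h
        · refine Or.inr ⟨mem_insert_of_mem h, ?_⟩
          rw [hup a h, hup x hxX]
          exact hlt
      exact ⟨a, b, key a ha, key b hb, hab⟩

theorem exists_PF {n : ℕ} (hn : 0 < n) {adj : V → V → Prop} {w : V → V → ZMod n}
    (hw : ∀ u v, w u v = w v u) {C : Finset V} (hC : C.card = n + 1)
    (hcomp : ∀ u ∈ C, ∀ v ∈ C, u ≠ v → adj u v) (hnot : ¬ Tr adj w C 0) :
    ∀ k : ℕ, k + 1 ≤ n → ∃ v0 v1 X r, PF w v0 v1 X r ∧ v0 ∈ C ∧ v1 ∈ C ∧ X ⊆ C ∧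
      k ≤ X.card := by
  intro k
  induction k with
  | zero =>
    intro _
    obtain ⟨v0, h0, v1, h1, h01⟩ := Finset.one_lt_card.1 (by omega : 1 < C.card)
    exact ⟨v0, v1, ∅, fun _ => 0, ⟨h01, by simp, by simp, by simp⟩, h0, h1, by simp, by simp⟩
  | succ k ih =>
    intro hk
    obtain ⟨v0, v1, X, r, hPF, h0, h1, hX, hkX⟩ := ih (by omega)
    by_cases hkX' : k + 1 ≤ X.card
    · exact ⟨v0, v1, X, r, hPF, h0, h1, hX, hkX'⟩
    have hXk : X.card = k := by omega
    set L : Finset V := insert v0 (insert v1 X) with hL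
    have hLC : L ⊆ C := by
      intro z hz
      rw [hL, mem_insert, mem_insert] at hz
      rcases hz with rfl | rfl | hz
      · exact h0
      · exact h1
      · exact hX hz
    have hLcard : L.card = k + 2 := by
      rw [hL, card_insert_of_notMem, card_insert_of_notMem hPF.2.2.1, hXk]
      rw [mem_insert]; rintro (h | h)
      · exact hPF.1 h
      · exact hPF.2.1 h
    have hmemL : ∀ a, a ∈ L ↔ (a = v0 ∨ a = v1 ∨ a ∈ X) := by
      intro a; rw [hL, mem_insert, mem_insert]
    have hv0L : v0 ∈ L := (hmemL v0).2 (Or.inl rfl)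
    by_cases hA : ∃ v ∈ C \ L, ∃ a ∈ L, ∃ b ∈ L, w a v ≠ w b v
    · obtain ⟨v, hv, a, ha, b, hb, hab⟩ := hA
      rw [mem_sdiff] at hv
      have hv' := hv.2
      rw [hmemL] at hv'
      push Not at hv'
      obtain ⟨r', hr'⟩ := hPF.add hv'.1 hv'.2.1 hv'.2.2
        ⟨a, b, (hmemL a).1 ha, (hmemL b).1 hb, hab⟩
      refine ⟨v0, v1, insert v X, r', hr', h0, h1, ?_, ?_⟩
      · intro z hz
        rcases mem_insert.1 hz with rfl | hz
        · exact hv.1
        · exact hX hz
      · rw [card_insert_of_notMem hv'.2.2, hXk]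
    · push Not at hA
      by_cases hB : ∃ v ∈ C \ L, ∃ v' ∈ C \ L, w v0 v ≠ w v0 v'
      · obtain ⟨v, hv, v', hv', hne⟩ := hB
        have hvv' : v ≠ v' := by rintro rfl; exact hne rfl
        have hv1 := (mem_sdiff.1 hv)
        have hv1' := (mem_sdiff.1 hv')
        refine ⟨v, v', L, fun _ => 0, ⟨hvv', hv1.2, hv1'.2, ?_⟩, hv1.1, hv1'.1, hLC, ?_⟩
        · intro x hx
          refine ⟨v, v', Or.inl (Or.inl rfl), Or.inl (Or.inr rfl), ?_⟩
          rw [hw v x, hw v' x, hA v hv x hx v0 hv0L, hA v' hv' x hx v0 hv0L]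
          exact hne
        · rw [hLcard]; omega
      · exfalso
        push Not at hB
        apply hnot
        have hne : (C \ L).Nonempty := by
          rw [← card_pos, card_sdiff_of_subset hLC]; omega
        obtain ⟨u0, hu0⟩ := hne
        have hu0' := mem_sdiff.1 hu0
        set c := w v0 u0 with hc
        have hall : ∀ v ∈ C \ L, ∀ x ∈ L, w x v = c := by
          intro v hv x hx
          rw [hA v hv x hx v0 hv0L]
          exact hB v hv u0 hu0
        have hne0 : v0 ≠ u0 := by rintro rfl; exact hu0'.2 hv0L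
        have hR : Tr adj w {v0, u0} c := Tr.pair v0 u0 hne0 (hcomp _ h0 _ hu0'.1 hne0)
        have hRC : ({v0, u0} : Finset V) ⊆ C := by
          intro z hz
          rw [mem_insert, mem_singleton] at hz
          rcases hz with rfl | rfl
          · exact h0
          · exact hu0'.1
        have hT := hR.attach' (C \ {v0, u0}) (fun _ => c) disjoint_sdiff (by
          intro y hy
          rw [mem_sdiff, mem_insert, mem_singleton, not_or] at hy
          by_cases hyL : y ∈ L
          · refine ⟨u0, by simp, hcomp _ hu0'.1 _ hy.1 (Ne.symm hy.2.2), ?_⟩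
            rw [hw]; exact hall u0 hu0 y hyL
          · exact ⟨v0, by simp, hcomp _ h0 _ hy.1 (Ne.symm hy.2.1),
              hall y (mem_sdiff.2 ⟨hy.1, hyL⟩) v0 hv0L⟩)
        refine hT.congr (union_sdiff_of_subset hRC) ?_
        rw [sum_const, card_sdiff_of_subset hRC, card_pair hne0, hC, ← succ_nsmul']
        have : n + 1 - 2 + 1 = n := by omega
        rw [this]
        simp

open Classical in
theorem thmF : ∀ n : ℕ, 0 < n → ∀ (adj : V → V → Prop) (w : V → V → ZMod n),
    (∀ u v, w u v = w v u) → ∀ C : Finset V, C.card = n + 1 →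
    (∀ u ∈ C, ∀ v ∈ C, u ≠ v → adj u v) → Tr adj w C 0 := by
  intro n
  induction n using Nat.strong_induction_on with
  | _ n IH =>
  intro hn adj w hw C hC hcomp
  by_contra hnot
  haveI : NeZero n := ⟨hn.ne'⟩
  obtain ⟨v0, v1, X, r, hPF, h0, h1, hX, hkX⟩ :=
    exists_PF hn hw hC hcomp hnot (n - 1) (by omega)
  obtain ⟨h01, h0X, h1X, hcol⟩ := hPF
  have hLC : insert v0 (insert v1 X) ⊆ C := by
    intro z hz
    rw [mem_insert, mem_insert] at hz
    rcases hz with rfl | rfl | hz
    · exact h0
    · exact h1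
    · exact hX hz
  have hLcard : (insert v0 (insert v1 X)).card = X.card + 2 := by
    rw [card_insert_of_notMem, card_insert_of_notMem h1X]
    rw [mem_insert]; rintro (h | h)
    · exact h01 h
    · exact h0X h
  have hLe : insert v0 (insert v1 X) = C := eq_of_subset_of_card_le hLC (by omega)
  have hXcard : X.card = n - 1 := by
    have := card_le_card hLC
    omega
  set A : V → Set (ZMod n) := fun x =>
    {c | ∃ z, ((z = v0 ∨ z = v1) ∨ (z ∈ X ∧ r z < r x)) ∧ w z x = c} with hA
  have hA0 : ∀ x, w v0 x ∈ A x := fun x => ⟨v0, Or.inl (Or.inl rfl), rfl⟩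
  -- attach lemma
  have hatt : ∀ (Y : Finset V), Y ⊆ X → ∀ s, Tr adj w (C \ Y) s → ∀ f : V → ZMod n,
      (∀ y ∈ Y, f y ∈ A y) → Tr adj w C (s + ∑ y ∈ Y, f y) := by
    intro Y hY s hs f hf
    refine (hs.attach r f _ Y rfl sdiff_disjoint ?_).congr ?_ rfl
    · intro y hy
      obtain ⟨z, hz, hwz⟩ := hf y hy
      have hyX := hY hy
      have hzC : z ∈ C := by
        rcases hz with (rfl | rfl) | hz
        · exact h0
        · exact h1
        · exact hX hz.1
      have hzy : z ≠ y := by
        rintro rfl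
        rcases hz with (rfl | rfl) | hz
        · exact h0X hyX
        · exact h1X hyX
        · exact lt_irrefl _ hz.2
      refine ⟨z, ?_, hcomp z hzC y (hX hyX) hzy, hwz⟩
      by_cases hzY : z ∈ Y
      · right
        refine ⟨hzY, ?_⟩
        rcases hz with (rfl | rfl) | hz
        · exact absurd (hY hzY) h0X
        · exact absurd (hY hzY) h1X
        · exact hz.2
      · left
        exact mem_sdiff.2 ⟨hzC, hzY⟩
    · exact sdiff_union_of_subset (hY.trans hX)
  have hnn : ∀ x ∈ X, ¬ (A x).Subsingleton := by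
    intro x hx hsub
    obtain ⟨a, b, ha, hb, hab⟩ := hcol x hx
    exact hab (hsub ⟨a, ha, rfl⟩ ⟨b, hb, rfl⟩)
  set bad : ℕ → Prop := fun d => 1 < d ∧ ∃ hd : d ∣ n,
    (X.filter (fun x => ¬ (pr hd '' (A x)).Subsingleton)).card + 1 < d with hbad
  by_cases hall : ∀ d ≤ n, ¬ bad d
  · -- direct
    have h1n : 1 ∣ n := one_dvd n
    obtain ⟨f, hf, hfs⟩ := flex hn h1n A (fun _ => 0) X (fun y _ => ⟨_, hA0 y⟩)
      (fun y _ a _ => Subsingleton.elim _ _) (by
        intro d _ hd hd1
        rw [Nat.div_one]
        by_contra hcon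
        exact hall d (Nat.le_of_dvd hn hd) ⟨hd1, hd, not_le.1 hcon⟩)
      (- w v0 v1) (Subsingleton.elim _ _)
    apply hnot
    have hR : Tr adj w (C \ X) (w v0 v1) := by
      refine (Tr.pair v0 v1 h01 (hcomp _ h0 _ h1 h01)).congr ?_ rfl
      rw [← hLe]
      ext z
      simp only [mem_insert, mem_singleton, mem_sdiff]
      constructor
      · rintro (rfl | rfl)
        · exact ⟨Or.inl rfl, h0X⟩
        · exact ⟨Or.inr (Or.inl rfl), h1X⟩
      · rintro ⟨h | h | h, h'⟩
        · exact Or.inl h
        · exact Or.inr h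
        · exact absurd h h'
    refine (hatt X subset_rfl _ hR f hf).congr rfl ?_
    rw [hfs]; ring
  · push Not at hall
    obtain ⟨d0, hd0n, hd0⟩ := hall
    set N := Nat.findGreatest bad n with hN
    have hbN : bad N := Nat.findGreatest_spec hd0n hd0
    have hmax : ∀ d, N < d → d ≤ n → ¬ bad d := fun d h1 h2 =>
      Nat.findGreatest_is_greatest h1 h2
    obtain ⟨hN1, hNn, hNc⟩ := hbN
    have hNlt : N < n := by
      rcases Nat.eq_or_lt_of_le (Nat.le_of_dvd hn hNn) with h | h
      · exfalso
        have hall' : X.filter (fun x => ¬ (pr hNn '' (A x)).Subsingleton) = X := by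
          rw [filter_eq_self]
          intro x hx hsub
          apply hnn x hx
          intro a ha b hb
          have hab := hsub ⟨a, ha, rfl⟩ ⟨b, hb, rfl⟩
          have hinj : Function.Injective (pr hNn) := by
            rw [injective_iff_map_eq_zero]
            intro z hz
            obtain ⟨k, hk⟩ := pr_eq_zero hn hNn hz
            rw [hk, h]
            simp
          exact hinj hab
        rw [hall', hXcard] at hNc
        omega
      · exact h
    obtain ⟨l, hl⟩ := id hNn
    have hl2 : 2 ≤ l := by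
      by_contra hcon
      have : l = 0 ∨ l = 1 := by omega
      rcases this with rfl | rfl
      · rw [mul_zero] at hl; omega
      · rw [mul_one] at hl; omega
    obtain ⟨m, rfl⟩ : ∃ m, l = m + 2 := ⟨l - 2, by omega⟩
    set g : V → ZMod N := fun x => pr hNn (w v0 x) with hg
    obtain ⟨Y, hYX, hYc, hYs⟩ := egz_blocks (by omega : 0 < N) g (m + 1) X (by
      rw [hXcard]
      have : N * (m + 1 + 1) = n := by rw [hl]
      omega)
    have hNm : N * (m + 2) = N * (m + 1) + N := by ring
    have hRc : (C \ Y).card = N + 1 := by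
      rw [card_sdiff_of_subset (hYX.trans hX), hC, hYc]
      omega
    have hTR := IH N hNlt (by omega) adj (fun u v => pr hNn (w u v))
      (fun u v => by simp only [hw u v]) (C \ Y) hRc
      (fun u hu v hv huv => hcomp u (mem_sdiff.1 hu).1 v (mem_sdiff.1 hv).1 huv)
    obtain ⟨s, hs, hps⟩ := Tr.lift (pr hNn) hTR
    set A' : V → Set (ZMod n) := fun y =>
      if (pr hNn '' (A y)).Subsingleton then A y else {w v0 y} with hA'
    have hA'A : ∀ y, A' y ⊆ A y := by
      intro y
      simp only [hA']
      split_ifs with h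
      · exact subset_rfl
      · rintro z rfl
        exact hA0 y
    have hA'0 : ∀ y, w v0 y ∈ A' y := by
      intro y
      simp only [hA']
      split_ifs with h
      · exact hA0 y
      · rfl
    obtain ⟨f, hf, hfs⟩ := flex hn hNn A' g Y (fun y _ => ⟨_, hA'0 y⟩) (by
        intro y _ a ha
        by_cases h : (pr hNn '' (A y)).Subsingleton
        · exact h ⟨a, hA'A y ha, rfl⟩ ⟨_, hA0 y, rfl⟩
        · have : a = w v0 y := by
            simpa only [hA', if_neg h, Set.mem_singleton_iff] using ha
          rw [this]) (by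
        intro d hNd hd hlt
        have hnb := hmax d hlt (Nat.le_of_dvd hn hd)
        have hge : d ≤ (X.filter (fun x => ¬ (pr hd '' (A x)).Subsingleton)).card + 1 := by
          by_contra hcon
          exact hnb ⟨by omega, hd, not_le.1 hcon⟩
        have hsub : X.filter (fun x => ¬ (pr hd '' (A x)).Subsingleton) ⊆
            (Y.filter (fun y => ¬ (pr hd '' (A' y)).Subsingleton)) ∪
            ((X.filter (fun x => ¬ (pr hNn '' (A x)).Subsingleton)) ∪ (X \ Y)) := by
          intro x hx
          rw [mem_filter] at hx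
          by_cases hxY : x ∈ Y
          · by_cases hxN : (pr hNn '' (A x)).Subsingleton
            · apply mem_union_left
              rw [mem_filter]
              refine ⟨hxY, ?_⟩
              have : A' x = A x := by simp only [hA', if_pos hxN]
              rw [this]
              exact hx.2
            · apply mem_union_right
              apply mem_union_left
              rw [mem_filter]
              exact ⟨hx.1, hxN⟩
          · apply mem_union_right
            apply mem_union_right
            exact mem_sdiff.2 ⟨hx.1, hxY⟩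
        have hc1 := card_le_card hsub
        have hc2 := card_union_le (Y.filter (fun y => ¬ (pr hd '' (A' y)).Subsingleton))
          ((X.filter (fun x => ¬ (pr hNn '' (A x)).Subsingleton)) ∪ (X \ Y))
        have hc3 := card_union_le (X.filter (fun x => ¬ (pr hNn '' (A x)).Subsingleton)) (X \ Y)
        have hc4 : (X \ Y).card = N - 1 := by
          rw [card_sdiff_of_subset hYX, hXcard, hYc]; omega
        obtain ⟨x, rfl⟩ := hNd
        have hx2 : 2 ≤ x := by
          by_contra hcon
          have : x = 0 ∨ x = 1 := by omega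
          rcases this with rfl | rfl
          · omega
          · omega
        obtain ⟨x', rfl⟩ : ∃ x', x = x' + 2 := ⟨x - 2, by omega⟩
        rw [Nat.mul_div_cancel_left _ (by omega : 0 < N)]
        have e1 : N * (x' + 2) = N * x' + 2 * N := by ring
        have e2 : x' ≤ N * x' := Nat.le_mul_of_pos_left _ (by omega)
        omega)
      (-s) (by rw [map_neg, hps, hYs, neg_zero])
    apply hnot
    refine (hatt Y hYX s hs f (fun y hy => hA'A y (hf y hy))).congr rfl ?_
    rw [hfs]; ring

end Pool.Agent.Helper61.ZST
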