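import Pool.Agent.Helper61.ZNearB

set_option autoImplicit false
set_option linter.all false
set_option linter.unusedSectionVars false
set_option linter.unusedVariables false
set_option linter.style.haveILetI false

namespace Pool.Agent.Helper61.ZST

open Finset

variable {V : Type*} [DecidableEq V]

open Classical in
/-- The number of ordered pairs of distinct non-adjacent vertices. -/
noncomputable def miss (adj : V → V → Prop) (C : Finset V) : ℕ :=
  ((C ×ˢ C).filter (fun p => p.1 ≠ p.2 ∧ ¬ adj p.1 p.2)).card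

open Classical in
theorem thmM : ∀ n : ℕ, 0 < n → ∀ (adj : V → V → Prop) (w : V → V → ZMod n),
    (∀ u v, adj u v → adj v u) → (∀ u v, w u v = w v u) → ∀ C : Finset V, C.card = n + 1 →
    NearC adj C → ¬ Tr adj w C 0 →
    ∃ c1 c2, ∀ u ∈ C, ∀ v ∈ C, u ≠ v → adj u v → w u v = c1 ∨ w u v = c2 := by
  intro n
  induction n using Nat.strong_induction_on with
  | _ n IH =>
  intro hn
  suffices H : ∀ k : ℕ, ∀ (adj : V → V → Prop) (w : V → V → ZMod n),
      (∀ u v, adj u v → adj v u) → (∀ u v, w u v = w v u) → ∀ C : Finset V, C.card = n + 1 →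
      NearC adj C → ¬ Tr adj w C 0 → miss adj C ≤ k →
      ∃ c1 c2, ∀ u ∈ C, ∀ v ∈ C, u ≠ v → adj u v → w u v = c1 ∨ w u v = c2 by
    intro adj w h1 h2 C h3 h4 h5
    exact H _ adj w h1 h2 C h3 h4 h5 le_rfl
  intro k
  induction k with
  | zero =>
    intro adj w hsym hw C hC hnear hnot hmiss
    exfalso
    apply hnot
    apply thmF n hn adj w hw C hC
    intro u hu v hv huv
    by_contra hcon
    have h1 : (u, v) ∈ (C ×ˢ C).filter (fun p => p.1 ≠ p.2 ∧ ¬ adj p.1 p.2) := by
      rw [mem_filter, mem_product]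
      exact ⟨⟨hu, hv⟩, huv, hcon⟩
    have h2 := card_pos.2 ⟨_, h1⟩
    unfold miss at hmiss
    omega
  | succ k ihk =>
    intro adj w hsym hw C hC hnear hnot hmiss
    by_cases hcomp : ∀ u ∈ C, ∀ v ∈ C, u ≠ v → adj u v
    · exact absurd (thmF n hn adj w hw C hC hcomp) hnot
    push Not at hcomp
    obtain ⟨a, ha, b, hb, hab, hnab⟩ := hcomp
    have hnba : ¬ adj b a := fun h => hnab (hsym _ _ h)
    have hadj : ∀ x ∈ C, x ≠ a → x ≠ b → adj x a ∧ adj x b := by
      intro x hx hxa hxb
      constructor
      · by_contra h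
        exact hxb (hnear a ha x hx b hb hxa hab.symm (fun h' => h (hsym _ _ h')) hnab)
      · by_contra h
        exact hxa (hnear b hb x hx a ha hxb hab (fun h' => h (hsym _ _ h')) hnba)
    by_cases hex : ∃ x ∈ C, x ≠ a ∧ x ≠ b ∧ w x a = w x b
    · obtain ⟨x, hx, hxa, hxb, hwx⟩ := hex
      set c := w x a with hc
      have hsub : ∀ u v, adj u v → addAdj adj a b u v := fun u v h => Or.inl h
      have hsym' : ∀ u v, addAdj adj a b u v → addAdj adj a b v u := by
        rintro u v (h | ⟨h1, h2⟩ | ⟨h1, h2⟩)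
        · exact Or.inl (hsym _ _ h)
        · exact Or.inr (Or.inr ⟨h2, h1⟩)
        · exact Or.inr (Or.inl ⟨h2, h1⟩)
      have hw' : ∀ u v, addW w a b c u v = addW w a b c v u := by
        intro u v
        unfold addW
        by_cases h : (u = a ∧ v = b) ∨ (u = b ∧ v = a)
        · have h' : (v = a ∧ u = b) ∨ (v = b ∧ u = a) := by
            rcases h with ⟨h1, h2⟩ | ⟨h1, h2⟩
            · exact Or.inr ⟨h2, h1⟩
            · exact Or.inl ⟨h2, h1⟩
          rw [if_pos h, if_pos h']
        · have h' : ¬ ((v = a ∧ u = b) ∨ (v = b ∧ u = a)) := by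
            rintro (⟨h1, h2⟩ | ⟨h1, h2⟩)
            · exact h (Or.inr ⟨h2, h1⟩)
            · exact h (Or.inl ⟨h2, h1⟩)
          rw [if_neg h, if_neg h', hw]
      have hnear' : NearC (addAdj adj a b) C := fun u hu v hv v' hv' h1 h2 h3 h4 =>
        hnear u hu v hv v' hv' h1 h2 (fun h => h3 (hsub _ _ h)) (fun h => h4 (hsub _ _ h))
      have hnot' : ¬ Tr (addAdj adj a b) (addW w a b c) C 0 := fun h =>
        hnot (Tr.closure hsym hw hab hx (hadj x hx hxa hxb).1 (hadj x hx hxa hxb).2
          hc.symm hwx.symm h)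
      have hmiss' : miss (addAdj adj a b) C < miss adj C := by
        unfold miss
        apply card_lt_card
        rw [ssubset_iff_of_subset]
        · refine ⟨(a, b), ?_, ?_⟩
          · rw [mem_filter, mem_product]
            exact ⟨⟨ha, hb⟩, hab, hnab⟩
          · rw [mem_filter]
            rintro ⟨_, _, h⟩
            exact h (Or.inr (Or.inl ⟨rfl, rfl⟩))
        · intro p hp
          rw [mem_filter] at hp ⊢
          exact ⟨hp.1, hp.2.1, fun h => hp.2.2 (hsub _ _ h)⟩
      obtain ⟨c1, c2, hcc⟩ := ihk (addAdj adj a b) (addW w a b c) hsym' hw' C hC hnear' hnot'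
        (by omega)
      refine ⟨c1, c2, fun u hu v hv huv hadjuv => ?_⟩
      have h := hcc u hu v hv huv (hsub _ _ hadjuv)
      have hne : ¬ ((u = a ∧ v = b) ∨ (u = b ∧ v = a)) := by
        rintro (⟨rfl, rfl⟩ | ⟨rfl, rfl⟩)
        · exact hnab hadjuv
        · exact hnba hadjuv
      unfold addW at h
      rwa [if_neg hne] at h
    · push Not at hex
      set X := (C.erase a).erase b with hX
      have hXm : ∀ z, z ∈ X ↔ (z ≠ b ∧ z ≠ a ∧ z ∈ C) := by
        intro z; rw [hX, mem_erase, mem_erase]
      have haX : a ∉ X := fun h => ((hXm a).1 h).2.1 rfl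
      have hbX : b ∉ X := fun h => ((hXm b).1 h).1 rfl
      have hCX : C = {a, b} ∪ X := by
        ext z
        rw [mem_union, mem_insert, mem_singleton, hXm]
        constructor
        · intro hz
          by_cases h1 : z = a
          · exact Or.inl (Or.inl h1)
          by_cases h2 : z = b
          · exact Or.inl (Or.inr h2)
          exact Or.inr ⟨h2, h1, hz⟩
        · rintro ((rfl | rfl) | h)
          · exact ha
          · exact hb
          · exact h.2.2
      have hXc : X.card = n - 1 := by
        rw [hX, card_erase_of_mem (mem_erase.2 ⟨hab.symm, hb⟩), card_erase_of_mem ha, hC]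
        omega
      have hXadj : ∀ x ∈ X, adj x a ∧ adj x b := fun x hx => by
        have := (hXm x).1 hx
        exact hadj x this.2.2 this.2.1 this.1
      have hXne : ∀ x ∈ X, w x a ≠ w x b := fun x hx => by
        have := (hXm x).1 hx
        exact hex x this.2.2 this.2.1 this.1
      by_cases hn1 : n = 1
      · have hXe : X = ∅ := by rw [← card_eq_zero, hXc, hn1]
        refine ⟨0, 0, fun u hu v hv huv hadjuv => ?_⟩
        exfalso
        rw [hCX, hXe, union_empty, mem_insert, mem_singleton] at hu hv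
        rcases hu with rfl | rfl <;> rcases hv with rfl | rfl
        · exact huv rfl
        · exact hnab hadjuv
        · exact hnba hadjuv
        · exact huv rfl
      have hn2 : 2 ≤ n := by omega
      by_cases hgood : ∀ d, ∀ hd : d ∣ n, 1 < d → d < n →
          d ≤ (X.filter (fun x => pr hd (w x a) ≠ pr hd (w x b))).card
      · exact caseI hn2 hsym hw hab haX hbX hCX hXc hXadj hnab hXne hnot hgood
      · exfalso
        set bad : ℕ → Prop := fun d => 1 < d ∧ d < n ∧ ∃ hd : d ∣ n,
          (X.filter (fun x => pr hd (w x a) ≠ pr hd (w x b))).card < d with hbad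
        push Not at hgood
        obtain ⟨d0, hd0, hd1, hd2, hd3⟩ := hgood
        set N := Nat.findGreatest bad n with hN
        have hbN : bad N := Nat.findGreatest_spec (P := bad) hd2.le ⟨hd1, hd2, hd0, hd3⟩
        have hmax : ∀ d, N < d → d ≤ n → ¬ bad d := fun d h1 h2 =>
          Nat.findGreatest_is_greatest h1 h2
        obtain ⟨hN1, hN2, hNn, hNc⟩ := hbN
        obtain ⟨l, hl⟩ := id hNn
        have hl2 : 2 ≤ l := by
          by_contra hcon
          have : l = 0 ∨ l = 1 := by omega
          rcases this with rfl | rfl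
          · rw [mul_zero] at hl; omega
          · rw [mul_one] at hl; omega
        obtain ⟨m, rfl⟩ : ∃ m, l = m + 2 := ⟨l - 2, by omega⟩
        exact caseII hN1 hl hNn hsym hw hab haX hbX hCX hXc hXadj hnab hXne hnear hnot
          (fun w' hw' R hR hnR hnotR => IH N hN2 (by omega) adj w' hsym hw' R hR hnR hnotR)
          hNc (fun d hd h1 h2 => by
            by_contra hcon
            exact hmax d h1 h2.le ⟨by omega, h2, hd, not_le.1 hcon⟩)

/-- From `Tr` to a set of edges. -/
theorem Tr.toEdges {G : Type*} [AddCommGroup G] {H : SimpleGraph V} {c : Sym2 V → G}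
    {C : Finset V} {s : G} (h : Tr (fun u v => H.Adj u v) (fun u v => c s(u, v)) C s) :
    ∃ E : Finset (Sym2 V), E.card + 1 = C.card ∧ (∀ e ∈ E, e ∈ H.edgeSet) ∧
      (∀ e ∈ E, ∀ v ∈ e, v ∈ C) ∧
      (∀ x ∈ C, ∀ y ∈ C, (SimpleGraph.fromEdgeSet (E : Set (Sym2 V))).Reachable x y) ∧
      ∑ e ∈ E, c e = s := by
  induction h with
  | single v =>
    refine ⟨∅, by simp, by simp, by simp, ?_, by simp⟩
    intro x hx y hy
    rw [mem_singleton] at hx hy
    subst hx; subst hy
    exact SimpleGraph.Reachable.refl _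
  | @leaf C s u v hC hu hv huv ih =>
    obtain ⟨E, h1, h2, h3, h4, h5⟩ := ih
    have hnE : s(u, v) ∉ E := fun h => hv (h3 _ h v (Sym2.mem_mk_right u v))
    have huv' : u ≠ v := by rintro rfl; exact hv hu
    have hmono : (SimpleGraph.fromEdgeSet (E : Set (Sym2 V))) ≤
        SimpleGraph.fromEdgeSet ((insert s(u, v) E : Finset (Sym2 V)) : Set (Sym2 V)) := by
      apply SimpleGraph.fromEdgeSet_mono
      intro e he
      exact mem_coe.2 (mem_insert_of_mem (mem_coe.1 he))
    have hadj : (SimpleGraph.fromEdgeSet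
        ((insert s(u, v) E : Finset (Sym2 V)) : Set (Sym2 V))).Adj u v := by
      rw [SimpleGraph.fromEdgeSet_adj]
      exact ⟨by simp, huv'⟩
    refine ⟨insert s(u, v) E, ?_, ?_, ?_, ?_, ?_⟩
    · rw [card_insert_of_notMem hnE, card_insert_of_notMem hv, h1]
    · intro e he
      rcases mem_insert.1 he with rfl | he
      · exact huv
      · exact h2 e he
    · intro e he z hz
      rcases mem_insert.1 he with rfl | he
      · rw [Sym2.mem_iff] at hz
        rcases hz with rfl | rfl
        · exact mem_insert_of_mem hu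
        · exact mem_insert_self _ _
      · exact mem_insert_of_mem (h3 e he z hz)
    · have key : ∀ x ∈ insert v C, (SimpleGraph.fromEdgeSet
          ((insert s(u, v) E : Finset (Sym2 V)) : Set (Sym2 V))).Reachable u x := by
        intro x hx
        rcases mem_insert.1 hx with rfl | hx
        · exact hadj.reachable
        · exact (h4 u hu x hx).mono hmono
      intro x hx y hy
      exact (key x hx).symm.trans (key y hy)
    · rw [sum_insert hnE, h5, add_comm]

theorem main (m : ℕ) (M : SimpleGraph (Fin (m + 1)))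
    (hM : ∀ v, (M.neighborSet v).Subsingleton) (c : Sym2 (Fin (m + 1)) → ZMod m)
    (hc : 3 ≤ (c '' Mᶜ.edgeSet).ncard) :
    ∃ T : SimpleGraph (Fin (m + 1)), T ≤ Mᶜ ∧ T.IsTree ∧
      (∑ᶠ e ∈ T.edgeSet, c e) = 0 := by
  classical
  have hm : 0 < m := by
    rcases Nat.eq_zero_or_pos m with h | h
    · subst h
      exfalso
      have : (c '' Mᶜ.edgeSet) = ∅ := by
        rw [Set.image_eq_empty, Set.eq_empty_iff_forall_notMem]
        intro e
        induction e using Sym2.ind with
        | _ x y =>
          rw [SimpleGraph.mem_edgeSet]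
          intro h
          exact h.ne (Fin.ext (by omega))
      rw [this] at hc
      simp at hc
    · exact h
  by_cases hT : Tr (fun u v => Mᶜ.Adj u v) (fun u v => c s(u, v))
      (Finset.univ : Finset (Fin (m + 1))) 0
  · obtain ⟨E, h1, h2, h3, h4, h5⟩ := hT.toEdges
    set T := SimpleGraph.fromEdgeSet (E : Set (Sym2 (Fin (m + 1)))) with hTdef
    have hedge : T.edgeSet = (E : Set (Sym2 (Fin (m + 1)))) := by
      rw [hTdef, SimpleGraph.edgeSet_fromEdgeSet]
      ext e
      constructor
      · intro h; exact h.1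
      · intro h
        refine ⟨h, ?_⟩
        exact Mᶜ.not_isDiag_of_mem_edgeSet (h2 e (Finset.mem_coe.1 h))
    refine ⟨T, ?_, ?_, ?_⟩
    · intro x y hxy
      have : s(x, y) ∈ T.edgeSet := hxy
      rw [hedge] at this
      exact h2 _ (Finset.mem_coe.1 this)
    · rw [SimpleGraph.isTree_iff_connected_and_card]
      refine ⟨?_, ?_⟩
      · haveI : Nonempty (Fin (m + 1)) := ⟨0⟩
        exact SimpleGraph.Connected.mk (fun x y => h4 x (Finset.mem_univ _) y (Finset.mem_univ _))
      · rw [hedge]
        have : Nat.card ((E : Set (Sym2 (Fin (m + 1)))) : Type) = E.card := by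
          simp
        rw [this, h1]
        simp
    · rw [hedge, finsum_mem_coe_finset]
      exact h5
  · exfalso
    obtain ⟨c1, c2, hcc⟩ := thmM m hm (fun u v => Mᶜ.Adj u v) (fun u v => c s(u, v))
      (fun u v h => h.symm) (fun u v => by rw [Sym2.eq_swap]) Finset.univ (by simp)
      (by
        intro u _ v _ v' _ hvu hv'u hn hn'
        have hn1 : ¬ Mᶜ.Adj u v := hn
        have hn2 : ¬ Mᶜ.Adj u v' := hn'
        rw [SimpleGraph.compl_adj, not_and, not_not] at hn1 hn2
        exact hM u (hn1 hvu.symm) (hn2 hv'u.symm)) hT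
    have hsub : c '' Mᶜ.edgeSet ⊆ {c1, c2} := by
      rintro _ ⟨e, he, rfl⟩
      induction e using Sym2.ind with
      | _ x y =>
        rw [SimpleGraph.mem_edgeSet] at he
        have := hcc x (Finset.mem_univ _) y (Finset.mem_univ _) he.ne he
        rw [Set.mem_insert_iff, Set.mem_singleton_iff]
        exact this
    have h1 := Set.ncard_le_ncard hsub (Set.toFinite _)
    have h2 : ({c1, c2} : Set (ZMod m)).ncard ≤ ({c2} : Set (ZMod m)).ncard + 1 :=
      Set.ncard_insert_le c1 {c2}
    rw [Set.ncard_singleton] at h2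
    omega

end Pool.Agent.Helper61.ZST
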