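import Pool.Agent.Helper61.ZComplete

set_option autoImplicit false
set_option linter.all false
set_option linter.unusedSectionVars false
set_option linter.unusedVariables false
set_option linter.style.haveILetI false

namespace Pool.Agent.Helper61.ZST

open Finset

variable {V : Type*} [DecidableEq V]

/-- Each vertex of `C` has at most one non-neighbour in `C`. -/
def NearC (adj : V → V → Prop) (C : Finset V) : Prop :=
  ∀ u ∈ C, ∀ v ∈ C, ∀ v' ∈ C, v ≠ u → v' ≠ u → ¬ adj u v → ¬ adj u v' → v = v'

theorem NearC.mono {adj : V → V → Prop} {C D : Finset V} (h : NearC adj C) (hD : D ⊆ C) :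
    NearC adj D := fun u hu v hv v' hv' => h u (hD hu) v (hD hv) v' (hD hv')

section gen
variable {G : Type*} [AddCommGroup G] {adj : V → V → Prop} {w : V → V → G}

theorem attach_ab (hsym : ∀ u v, adj u v → adj v u) (hw : ∀ u v, w u v = w v u)
    {a b : V} {R : Finset V} {s : G} (hR : Tr adj w R s) (ha : a ∈ R) (hb : b ∈ R)
    (Y : Finset V) (hd : Disjoint R Y) (hadj : ∀ y ∈ Y, adj y a ∧ adj y b) (f : V → G)
    (hf : ∀ y ∈ Y, f y = w y a ∨ f y = w y b) :
    Tr adj w (R ∪ Y) (s + ∑ y ∈ Y, f y) := by
  refine hR.attach' Y f hd ?_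
  intro y hy
  rcases hf y hy with h | h
  · exact ⟨a, ha, hsym _ _ (hadj y hy).1, by rw [h, hw]⟩
  · exact ⟨b, hb, hsym _ _ (hadj y hy).2, by rw [h, hw]⟩

theorem hub_ab (hsym : ∀ u v, adj u v → adj v u) (hw : ∀ u v, w u v = w v u)
    {a b u : V} (hab : a ≠ b) (hua : u ≠ a) (hub : u ≠ b) (h1 : adj u a) (h2 : adj u b) :
    Tr adj w {a, b, u} (w u a + w u b) := by
  have h := Tr.leaf (w := w) (Tr.pair u a hua h1) (mem_insert_self u _)
    (v := b) (by rw [mem_insert, mem_singleton]; rintro (h | h)
                 · exact hub h.symm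
                 · exact hab h.symm) h2
  refine h.congr ?_ rfl
  ext z
  simp only [mem_insert, mem_singleton]
  tauto

/-- Sums with two values. -/
theorem two_valued (p q : G) (Y : Finset V) (j : ℕ) (hj : j ≤ Y.card) :
    ∃ f : V → G, (∀ y ∈ Y, f y = p ∨ f y = q) ∧
      ∑ y ∈ Y, f y = Y.card • p + j • (q - p) := by
  obtain ⟨J, hJ, hJc⟩ := Finset.exists_subset_card_eq hj
  refine ⟨fun y => p + if y ∈ J then q - p else 0, ?_, ?_⟩
  · intro y _
    by_cases h : y ∈ J
    · right; simp [h]
    · left; simp [h]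
  · rw [sum_add_distrib, sum_const, ← sum_filter, sum_const, filter_mem_eq_inter,
      inter_eq_right.2 hJ, hJc]

end gen

theorem growth' {ι : Type*} [DecidableEq ι] {G : Type*} [AddCommGroup G] [Finite G] {D : Set G}
    {B : ι → Set G} (hD : D.Nonempty) (Y : Finset ι) (hB : ∀ y ∈ Y, (B y).Nonempty)
    (haper : ∀ g : G, (∀ s ∈ Sums D B Y, g + s ∈ Sums D B Y) → g = 0)
    (Z : Finset ι) (hZY : Z ⊆ Y) (hZ : ∀ z ∈ Z, ¬ (B z).Subsingleton) :
    D.ncard + Z.card ≤ (Sums D B Y).ncard := by
  classical
  refine le_trans ?_ (growth hD Y hB haper)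
  refine Nat.add_le_add_left (card_le_card ?_) _
  intro z hz
  exact mem_filter.2 ⟨hZY hz, hZ z hz⟩

theorem flex' {ι : Type*} [DecidableEq ι] {n N : ℕ} (hn : 0 < n) (hN : N ∣ n)
    (A : ι → Set (ZMod n)) (g : ι → ZMod N)
    (Y : Finset ι) (hA : ∀ y ∈ Y, (A y).Nonempty)
    (hg : ∀ y ∈ Y, ∀ a ∈ A y, pr hN a = g y)
    (hcount : ∀ d, N ∣ d → ∀ hd : d ∣ n, N < d →
      ∃ Z ⊆ Y, (∀ z ∈ Z, ¬ (pr hd '' (A z)).Subsingleton) ∧ d / N ≤ Z.card + 1)
    (t : ZMod n) (ht : pr hN t = ∑ y ∈ Y, g y) :
    ∃ f : ι → ZMod n, (∀ y ∈ Y, f y ∈ A y) ∧ ∑ y ∈ Y, f y = t := by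
  classical
  refine flex hn hN A g Y hA hg ?_ t ht
  intro d hNd hd hlt
  obtain ⟨Z, hZY, hZ, hc⟩ := hcount d hNd hd hlt
  refine hc.trans (Nat.add_le_add_right (card_le_card ?_) 1)
  intro z hz
  exact mem_filter.2 ⟨hZY hz, hZ z hz⟩

/-- An element of `ZMod n` none of whose small multiples vanishes is a generator. -/
theorem gen_of_ne {n : ℕ} (hn : 0 < n) (δ : ZMod n)
    (h : ∀ k : ℕ, 1 ≤ k → k < n → k • δ ≠ 0) (z : ZMod n) : ∃ k : ℕ, k < n ∧ z = k • δ := by
  haveI : NeZero n := ⟨hn.ne'⟩
  have hinj : Function.Injective (fun x : ZMod n => x.val • δ) := by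
    have key : ∀ x : ZMod n, x.val • δ = x * δ := by
      intro x
      rw [nsmul_eq_mul, ZMod.natCast_zmod_val]
    intro x y hxy
    have hxy' : x.val • δ = y.val • δ := hxy
    rw [key, key] at hxy'
    by_contra hne
    have h1 : (x - y) ≠ 0 := sub_ne_zero.2 hne
    apply h (x - y).val
    · rw [Nat.one_le_iff_ne_zero]
      rwa [Ne, ZMod.val_eq_zero]
    · exact ZMod.val_lt _
    · rw [key, sub_mul, hxy', sub_self]
  obtain ⟨x, hx⟩ := (Finite.injective_iff_surjective.1 hinj) z
  exact ⟨x.val, ZMod.val_lt _, hx.symm⟩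

theorem pr_self_injective {n : ℕ} (hn : 0 < n) (h : n ∣ n) : Function.Injective (pr h) := by
  rw [injective_iff_map_eq_zero]
  intro z hz
  obtain ⟨k, hk⟩ := pr_eq_zero hn h hz
  rw [hk]
  simp

open Classical in
/-- A set of sums that is not everything is aperiodic, under a counting condition. -/
theorem aper {ι : Type*} [DecidableEq ι] {n : ℕ} (hn : 0 < n) (A : ι → Set (ZMod n))
    (Y : Finset ι) (hA : ∀ y ∈ Y, (A y).Nonempty) (hne : ∃ t, t ∉ Sums {0} A Y)
    (hcount : ∀ d, ∀ hd : d ∣ n, 1 < d → d < n →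
      d ≤ (Y.filter (fun y => ¬ (pr hd '' (A y)).Subsingleton)).card + 1)
    (g : ZMod n) (hg : ∀ s ∈ Sums {0} A Y, g + s ∈ Sums {0} A Y) : g = 0 := by
  haveI : NeZero n := ⟨hn.ne'⟩
  obtain ⟨t, ht⟩ := hne
  set S := Sums {0} A Y with hS
  obtain ⟨s0, hs0⟩ : S.Nonempty := sums_nonempty ⟨0, rfl⟩ hA
  obtain ⟨d, hd0, hd, hmul, hsat, haper⟩ := exists_period hn S
  haveI : NeZero d := ⟨hd0.ne'⟩
  rcases Nat.lt_or_ge 1 d with h1 | h1
  · rcases Nat.eq_or_lt_of_le (Nat.le_of_dvd hn hd) with h2 | h2
    · subst h2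
      apply pr_self_injective hn hd
      rw [map_zero]
      apply haper
      rintro _ ⟨s, hs, rfl⟩
      exact ⟨g + s, hg s hs, map_add _ _ _⟩
    · exfalso
      have hc := hcount d hd h1 h2
      have himg : pr hd '' S = Sums {0} (fun y => pr hd '' (A y)) Y := by
        rw [hS, image_sums]
        congr 1
        simp
      have hgrow := growth (D := ({0} : Set (ZMod d))) (B := fun y => pr hd '' (A y)) ⟨0, rfl⟩ Y
        (fun y hy => (hA y hy).image _) (by
          intro g' hg'
          apply haper g'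
          rw [himg]
          exact hg')
      rw [← himg, Set.ncard_singleton] at hgrow
      have huniv : pr hd '' S = Set.univ := by
        apply Set.eq_of_subset_of_ncard_le (Set.subset_univ _)
        rw [Set.ncard_univ, Nat.card_zmod]
        omega
      have : ((1 : ℕ) : ZMod d) = 0 := by
        apply haper
        rw [huniv]
        intro s _
        exact Set.mem_univ _
      rw [ZMod.natCast_eq_zero_iff] at this
      have := Nat.le_of_dvd (by norm_num) this
      omega
  · exfalso
    have hd1 : d = 1 := by omega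
    subst hd1
    exact ht (hsat t s0 (Subsingleton.elim _ _) hs0)

open Classical in
/-- Case I. -/
theorem caseI {n : ℕ} (hn : 2 ≤ n) {adj : V → V → Prop} {w : V → V → ZMod n}
    (hsym : ∀ u v, adj u v → adj v u) (hw : ∀ u v, w u v = w v u) {C X : Finset V} {a b : V}
    (hab : a ≠ b) (haX : a ∉ X) (hbX : b ∉ X) (hC : C = {a, b} ∪ X) (hXc : X.card = n - 1)
    (hadj : ∀ x ∈ X, adj x a ∧ adj x b) (hnab : ¬ adj a b) (hne : ∀ x ∈ X, w x a ≠ w x b)
    (hnot : ¬ Tr adj w C 0)
    (hcount : ∀ d, ∀ hd : d ∣ n, 1 < d → d < n →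
      d ≤ (X.filter (fun x => pr hd (w x a) ≠ pr hd (w x b))).card) :
    ∃ c1 c2, ∀ u ∈ C, ∀ v ∈ C, u ≠ v → adj u v → w u v = c1 ∨ w u v = c2 := by
  haveI : NeZero n := ⟨by omega⟩
  have hn0 : 0 < n := by omega
  set A : V → Set (ZMod n) := fun x => {w x a, w x b} with hA
  have hane : ∀ x ∈ X, x ≠ a := fun x hx h => haX (h ▸ hx)
  have hbne : ∀ x ∈ X, x ≠ b := fun x hx h => hbX (h ▸ hx)
  -- hub trees
  have hhub : ∀ u ∈ X, - (w u a + w u b) ∉ Sums {0} A (X.erase u) := by
    rintro u hu ⟨d, hd, f, hf, hs⟩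
    rw [Set.mem_singleton_iff] at hd
    subst hd
    apply hnot
    have h1 := hub_ab hsym hw hab (hane u hu) (hbne u hu) (hadj u hu).1 (hadj u hu).2
    have h2 := attach_ab hsym hw h1 (by simp) (by simp) (X.erase u) (by
      rw [disjoint_left]
      intro z hz hz'
      rw [mem_insert, mem_insert, mem_singleton] at hz
      rw [mem_erase] at hz'
      rcases hz with rfl | rfl | rfl
      · exact haX hz'.2
      · exact hbX hz'.2
      · exact hz'.1 rfl) (fun y hy => hadj y (mem_of_mem_erase hy)) f
      (fun y hy => by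
        have := hf y hy
        rwa [hA, Set.mem_insert_iff, Set.mem_singleton_iff] at this)
    refine h2.congr ?_ ?_
    · rw [hC]
      ext z
      simp only [mem_union, mem_insert, mem_singleton, mem_erase]
      constructor
      · rintro ((h | h | h) | h)
        · exact Or.inl (Or.inl h)
        · exact Or.inl (Or.inr h)
        · exact Or.inr (h ▸ hu)
        · exact Or.inr h.2
      · rintro ((h | h) | h)
        · exact Or.inl (Or.inl h)
        · exact Or.inl (Or.inr (Or.inl h))
        · by_cases hzu : z = u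
          · exact Or.inl (Or.inr (Or.inr hzu))
          · exact Or.inr ⟨hzu, h⟩
    · rw [zero_add] at hs
      rw [← hs, add_neg_cancel]
  have hAns : ∀ d, ∀ hd : d ∣ n, ∀ x, pr hd (w x a) ≠ pr hd (w x b) →
      ¬ (pr hd '' (A x)).Subsingleton := by
    intro d hd x hx hsub
    exact hx (hsub ⟨_, by simp [hA], rfl⟩ ⟨_, by simp [hA], rfl⟩)
  have haper : ∀ u ∈ X, ∀ g : ZMod n, (∀ s ∈ Sums {0} A (X.erase u),
      g + s ∈ Sums {0} A (X.erase u)) → g = 0 := by
    intro u hu
    refine aper hn0 A (X.erase u) (fun y _ => ⟨w y a, by simp [hA]⟩) ⟨_, hhub u hu⟩ ?_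
    intro d hd h1 h2
    have hc := hcount d hd h1 h2
    have hsub : (X.filter (fun x => pr hd (w x a) ≠ pr hd (w x b))).erase u ⊆
        (X.erase u).filter (fun y => ¬ (pr hd '' (A y)).Subsingleton) := by
      intro x hx
      rw [mem_erase, mem_filter] at hx
      rw [mem_filter, mem_erase]
      exact ⟨⟨hx.1, hx.2.1⟩, hAns d hd x hx.2.2⟩
    have h3 := card_le_card hsub
    have h4 := pred_card_le_card_erase (s := X.filter (fun x => pr hd (w x a) ≠ pr hd (w x b)))
      (a := u)
    omega
  -- all the pairs are equal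
  have hpair : ∀ u ∈ X, ∀ x ∈ X, u ≠ x →
      (w x a = w u a ∨ w x a = w u b) ∧ (w x b = w u a ∨ w x b = w u b) := by
    intro u hu x hx hux
    set Y := (X.erase u).erase x with hY
    have hYx : insert x Y = X.erase u := by
      rw [hY, insert_erase]
      exact mem_erase.2 ⟨hux.symm, hx⟩
    have hYu : insert u Y = X.erase x := by
      rw [hY, erase_right_comm, insert_erase]
      exact mem_erase.2 ⟨hux, hu⟩
    have hxY : x ∉ Y := by rw [hY]; exact notMem_erase _ _
    have huY : u ∉ Y := by rw [hY, erase_right_comm]; exact notMem_erase _ _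
    have hYc : Y.card = n - 3 := by
      have h1 : (X.erase u).card = n - 2 := by rw [card_erase_of_mem hu, hXc]; omega
      rw [hY, card_erase_of_mem (mem_erase.2 ⟨hux.symm, hx⟩), h1]; omega
    have hn3 : 3 ≤ n := by
      have := Finset.one_lt_card.2 ⟨u, hu, x, hx, hux⟩
      omega
    have hgr := growth' (D := ({0} : Set (ZMod n))) (B := A) ⟨0, rfl⟩ Y
      (fun y _ => ⟨w y a, by simp [hA]⟩) (by
        intro g hg
        apply haper u hu g
        rw [← hYx]
        intro s hs
        obtain ⟨b', hb', s', hs', rfl⟩ := mem_sums_insert hxY hs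
        have : g + (b' + s') = b' + (g + s') := by abel
        rw [this]
        exact sums_insert hxY (hg s' hs') hb') Y subset_rfl (by
        intro y hy hsub
        have hyX : y ∈ X := mem_of_mem_erase (mem_of_mem_erase hy)
        exact hne y hyX (hsub (by simp [hA]) (by simp [hA])))
    rw [Set.ncard_singleton, hYc] at hgr
    set S := Sums {0} A Y with hS
    have hQ : (Sᶜ).ncard ≤ 2 := by
      have := Set.ncard_add_ncard_compl S
      rw [Nat.card_zmod] at this
      omega
    have hin : ∀ u' x' : V, u' ∈ X → x' ∈ X → x' ∉ Y → insert x' Y = X.erase u' →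
        ({-(w u' a + w u' b) - w x' a, -(w u' a + w u' b) - w x' b} : Set (ZMod n)) = Sᶜ := by
      intro u' x' hu' hx' hx'Y hins
      have hh := hhub u' hu'
      rw [← hins] at hh
      apply Set.eq_of_subset_of_ncard_le _ _ (Set.toFinite _)
      · intro z hz hzS
        rw [Set.mem_insert_iff, Set.mem_singleton_iff] at hz
        apply hh
        rcases hz with rfl | rfl
        · have := sums_insert hx'Y hzS (b := w x' a) (by simp [hA])
          have e : w x' a + (-(w u' a + w u' b) - w x' a) = -(w u' a + w u' b) := by ring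
          rwa [e] at this
        · have := sums_insert hx'Y hzS (b := w x' b) (by simp [hA])
          have e : w x' b + (-(w u' a + w u' b) - w x' b) = -(w u' a + w u' b) := by ring
          rwa [e] at this
      · rw [Set.ncard_pair]
        · exact hQ
        · intro h
          exact hne x' hx' (by simpa using h)
    have e1 := hin u x hu hx hxY hYx
    have e2 := hin x u hx hu huY hYu
    have e3 : ({-(w u a + w u b) - w x a, -(w u a + w u b) - w x b} : Set (ZMod n)) =
        {-(w x a + w x b) - w u a, -(w x a + w x b) - w u b} := by rw [e1, e2]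
    constructor
    · have : -(w u a + w u b) - w x b ∈
          ({-(w x a + w x b) - w u a, -(w x a + w x b) - w u b} : Set (ZMod n)) := by
        rw [← e3]; simp
      rw [Set.mem_insert_iff, Set.mem_singleton_iff] at this
      rcases this with h | h
      · right; linear_combination h
      · left; linear_combination h
    · have : -(w u a + w u b) - w x a ∈
          ({-(w x a + w x b) - w u a, -(w x a + w x b) - w u b} : Set (ZMod n)) := by
        rw [← e3]; simp
      rw [Set.mem_insert_iff, Set.mem_singleton_iff] at this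
      rcases this with h | h
      · right; linear_combination h
      · left; linear_combination h
  obtain ⟨x0, hx0⟩ : X.Nonempty := by rw [← card_pos]; omega
  set p := w x0 a with hp
  set q := w x0 b with hq
  have hpq : ∀ x ∈ X, (w x a = p ∧ w x b = q) ∨ (w x a = q ∧ w x b = p) := by
    intro x hx
    by_cases h : x0 = x
    · subst h; exact Or.inl ⟨rfl, rfl⟩
    · obtain ⟨h1, h2⟩ := hpair x0 hx0 x hx h
      have h3 := hne x hx
      rcases h1 with h1 | h1 <;> rcases h2 with h2 | h2
      · exact absurd (h1.trans h2.symm) h3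
      · exact Or.inl ⟨h1, h2⟩
      · exact Or.inr ⟨h1, h2⟩
      · exact absurd (h1.trans h2.symm) h3
  have hsum : ∀ x ∈ X, w x a + w x b = p + q := by
    intro x hx
    rcases hpq x hx with ⟨h1, h2⟩ | ⟨h1, h2⟩
    · rw [h1, h2]
    · rw [h1, h2, add_comm]
  have hAmem : ∀ x ∈ X, ∀ z, z = p ∨ z = q → z = w x a ∨ z = w x b := by
    intro x hx z hz
    rcases hpq x hx with ⟨h1, h2⟩ | ⟨h1, h2⟩
    · rw [h1, h2]; exact hz
    · rw [h1, h2]; exact hz.symm
  have hncast : ((n : ℕ) : ZMod n) = 0 := ZMod.natCast_self n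
  have hδ : ∀ k : ℕ, 1 ≤ k → k < n → k • (q - p) ≠ 0 := by
    intro k hk1 hkn h0
    have hc : (X.erase x0).card = n - 2 := by rw [card_erase_of_mem hx0, hXc]; omega
    obtain ⟨f, hf, hfs⟩ := two_valued p q (X.erase x0) (k - 1) (by omega)
    apply hhub x0 hx0
    refine ⟨0, rfl, f, ?_, ?_⟩
    · intro y hy
      have := hAmem y (mem_of_mem_erase hy) _ (hf y hy)
      rw [hA]
      exact this
    · rw [zero_add, hfs, hc, ← hp, ← hq]
      have e1 : ((n - 2 : ℕ) : ZMod n) = -2 := by
        rw [Nat.cast_sub hn, hncast]; norm_num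
      have e2 : ((k - 1 : ℕ) : ZMod n) = (k : ZMod n) - 1 := by
        rw [Nat.cast_sub hk1]; norm_num
      rw [nsmul_eq_mul] at h0 ⊢
      rw [nsmul_eq_mul, e1, e2]
      linear_combination -h0
  refine ⟨p, q, ?_⟩
  -- edges at a and b
  have hedge : ∀ x ∈ X, ∀ x' ∈ X, x ≠ x' → adj x x' → w x x' = p ∨ w x x' = q := by
    intro x hx x' hx' hxx' hadjx
    have hn3 : 3 ≤ n := by
      have := Finset.one_lt_card.2 ⟨x, hx, x', hx', hxx'⟩
      omega
    set c := w x x' with hc
    obtain ⟨i, hi, hie⟩ := gen_of_ne hn0 (q - p) hδ (c - p)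
    by_cases hi2 : 2 ≤ i
    · exfalso
      apply hnot
      set Y := (X.erase x').erase x with hY
      have hYc : Y.card = n - 3 := by
        have h1 : (X.erase x').card = n - 2 := by rw [card_erase_of_mem hx', hXc]; omega
        rw [hY, card_erase_of_mem (mem_erase.2 ⟨hxx', hx⟩), h1]; omega
      obtain ⟨f, hf, hfs⟩ := two_valued p q Y (n - i - 1) (by omega)
      have h1 := hub_ab hsym hw hab (hane x' hx') (hbne x' hx') (hadj x' hx').1 (hadj x' hx').2
      have hd : Disjoint ({a, b, x'} : Finset V) Y := by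
        rw [disjoint_left]
        intro z hz hz'
        rw [mem_insert, mem_insert, mem_singleton] at hz
        rw [hY, mem_erase, mem_erase] at hz'
        rcases hz with rfl | rfl | rfl
        · exact haX hz'.2.2
        · exact hbX hz'.2.2
        · exact hz'.2.1 rfl
      have h2 := attach_ab hsym hw h1 (by simp) (by simp) Y hd
        (fun y hy => hadj y (mem_of_mem_erase (mem_of_mem_erase hy))) f
        (fun y hy => hAmem y (mem_of_mem_erase (mem_of_mem_erase hy)) _ (hf y hy))
      have h3 : x ∉ ({a, b, x'} : Finset V) ∪ Y := by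
        rw [mem_union, mem_insert, mem_insert, mem_singleton, hY, mem_erase]
        rintro ((h | h | h) | h)
        · exact hane x hx h
        · exact hbne x hx h
        · exact hxx' h
        · exact h.1 rfl
      have h4 := Tr.leaf h2 (u := x') (by simp) h3 (hsym _ _ hadjx)
      refine h4.congr ?_ ?_
      · rw [hC]
        ext z
        simp only [mem_union, mem_insert, mem_singleton, hY, mem_erase]
        constructor
        · rintro (h | (h | h | h) | h)
          · exact Or.inr (h ▸ hx)
          · exact Or.inl (Or.inl h)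
          · exact Or.inl (Or.inr h)
          · exact Or.inr (h ▸ hx')
          · exact Or.inr h.2.2
        · rintro ((h | h) | h)
          · exact Or.inr (Or.inl (Or.inl h))
          · exact Or.inr (Or.inl (Or.inr (Or.inl h)))
          · by_cases hzx : z = x
            · exact Or.inl hzx
            · by_cases hzx' : z = x'
              · exact Or.inr (Or.inl (Or.inr (Or.inr hzx')))
              · exact Or.inr (Or.inr ⟨hzx, hzx', h⟩)
      · rw [hsum x' hx', hfs, hYc, hw x' x, ← hc]
        have e1 : ((n - 3 : ℕ) : ZMod n) = -3 := by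
          rw [Nat.cast_sub hn3, hncast]; norm_num
        have e2 : ((n - i - 1 : ℕ) : ZMod n) = -(i : ZMod n) - 1 := by
          rw [Nat.cast_sub (by omega), Nat.cast_sub (by omega), hncast]; norm_num
        rw [nsmul_eq_mul] at hie ⊢
        rw [nsmul_eq_mul, e1, e2]
        linear_combination hie
    · have : i = 0 ∨ i = 1 := by omega
      rcases this with rfl | rfl
      · left; rw [zero_nsmul] at hie; exact sub_eq_zero.1 hie
      · right; rw [one_nsmul] at hie; linear_combination hie
  have hA1 : ∀ x ∈ X, w x a = p ∨ w x a = q := fun x hx => by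
    rcases hpq x hx with h | h
    · exact Or.inl h.1
    · exact Or.inr h.1
  have hB1 : ∀ x ∈ X, w x b = p ∨ w x b = q := fun x hx => by
    rcases hpq x hx with h | h
    · exact Or.inr h.2
    · exact Or.inl h.2
  intro u hu v hv huv hadjuv
  rw [hC, mem_union, mem_insert, mem_singleton] at hu hv
  rcases hu with (rfl | rfl) | hu <;> rcases hv with (rfl | rfl) | hv
  · exact absurd rfl huv
  · exact absurd hadjuv hnab
  · rw [hw]; exact hA1 v hv
  · exact absurd (hsym _ _ hadjuv) hnab
  · exact absurd rfl huv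
  · rw [hw]; exact hB1 v hv
  · exact hA1 u hu
  · exact hB1 u hu
  · exact hedge u hu v hv huv hadjuv

end Pool.Agent.Helper61.ZST
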