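import Pool.Agent.Helper61.ZNearA

set_option autoImplicit false
set_option linter.all false
set_option linter.unusedSectionVars false
set_option linter.unusedVariables false
set_option linter.style.haveILetI false

namespace Pool.Agent.Helper61.ZST

open Finset

variable {V : Type*} [DecidableEq V]

/-- A cut with no crossing edge of colour `c`. -/
def Cut {G : Type*} (adj : V → V → Prop) (w : V → V → G) (R : Finset V) (c : G)
    (P : Finset V) : Prop :=
  P ⊆ R ∧ P.Nonempty ∧ (R \ P).Nonempty ∧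
    ∀ u ∈ P, ∀ v ∈ R, v ∉ P → adj u v → w u v ≠ c

theorem Cut.compl {G : Type*} {adj : V → V → Prop} {w : V → V → G} {R : Finset V} {c : G}
    {P : Finset V} (hsym : ∀ u v, adj u v → adj v u) (hw : ∀ u v, w u v = w v u)
    (h : Cut adj w R c P) : Cut adj w R c (R \ P) := by
  obtain ⟨h1, h2, h3, h4⟩ := h
  refine ⟨sdiff_subset, h3, ?_, ?_⟩
  · rw [Finset.sdiff_sdiff_eq_self h1]; exact h2
  · intro u hu v hv hvP huv
    have hvP' : v ∈ P := by
      by_contra hcon
      exact hvP (mem_sdiff.2 ⟨hv, hcon⟩)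
    rw [hw]
    exact h4 v hvP' u (mem_sdiff.1 hu).1 (mem_sdiff.1 hu).2 (hsym _ _ huv)

theorem exists_cut' {N : ℕ} {adj : V → V → Prop} {w : V → V → ZMod N}
    {R : Finset V} (hR : R.card = N + 1) (hnot : ¬ Tr adj w R 0) (c : ZMod N) :
    ∃ P, Cut adj w R c P := by
  obtain ⟨P, h1, h2, h3, h4⟩ := exists_cut (adj := adj) (w := w) R c
    (by rw [← card_pos]; omega) (by rw [hR]; simpa using hnot)
  refine ⟨P, h1, h2, ?_, fun u hu v hv hvP => h4 u hu v (mem_sdiff.2 ⟨hv, hvP⟩)⟩
  rw [sdiff_nonempty]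
  intro h
  exact h3 (subset_antisymm h1 h)

/-- Two disjoint cuts for the two colours. -/
theorem two_cuts {N : ℕ} {adj : V → V → Prop} {w : V → V → ZMod N}
    (hsym : ∀ u v, adj u v → adj v u) (hw : ∀ u v, w u v = w v u)
    {R : Finset V} (hR : R.card = N + 1) (hnear : NearC adj R) (hnot : ¬ Tr adj w R 0)
    {c1 c2 : ZMod N} (hcol : ∀ u ∈ R, ∀ v ∈ R, u ≠ v → adj u v → w u v = c1 ∨ w u v = c2)
    {a b r0 : V} (ha : a ∈ R) (hb : b ∈ R) (hab : a ≠ b) (hnab : ¬ adj a b)
    (hr : r0 ∈ R) (hra : r0 ≠ a) (hrb : r0 ≠ b) (hr0 : w r0 a = w r0 b) :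
    ∃ P1 P2, Cut adj w R c1 P1 ∧ Cut adj w R c2 P2 ∧ Disjoint P1 P2 := by
  have hnba : ¬ adj b a := fun h => hnab (hsym _ _ h)
  have hadja : adj r0 a := by
    by_contra h
    exact hrb (hnear a ha b hb r0 hr hab.symm hra hnab (fun h' => h (hsym _ _ h'))).symm
  have hadjb : adj r0 b := by
    by_contra h
    exact hra (hnear b hb a ha r0 hr hab hrb hnba (fun h' => h (hsym _ _ h'))).symm
  -- choose the cuts with a in both
  have hcut : ∀ c, ∃ P, Cut adj w R c P ∧ a ∈ P := by
    intro c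
    obtain ⟨P, hP⟩ := exists_cut' hR hnot c
    by_cases h : a ∈ P
    · exact ⟨P, hP, h⟩
    · exact ⟨R \ P, hP.compl hsym hw, mem_sdiff.2 ⟨ha, h⟩⟩
  obtain ⟨P1, hP1, haP1⟩ := hcut c1
  obtain ⟨P2, hP2, haP2⟩ := hcut c2
  by_cases h1 : Disjoint (R \ P1) (R \ P2)
  · exact ⟨_, _, hP1.compl hsym hw, hP2.compl hsym hw, h1⟩
  by_cases h2 : Disjoint P1 (R \ P2)
  · exact ⟨_, _, hP1, hP2.compl hsym hw, h2⟩
  by_cases h3 : Disjoint (R \ P1) P2
  · exact ⟨_, _, hP1.compl hsym hw, hP2, h3⟩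
  exfalso
  -- crossing both cuts means nonadjacent
  have hcross : ∀ u ∈ R, ∀ v ∈ R, u ∈ P1 → v ∉ P1 → ((u ∈ P2 ∧ v ∉ P2) ∨ (u ∉ P2 ∧ v ∈ P2)) →
      ¬ adj u v := by
    intro u hu v hv hu1 hv1 h huv
    have huv' : u ≠ v := by rintro rfl; exact hv1 hu1
    have e1 := hP1.2.2.2 u hu1 v hv hv1 huv
    have e2 : w u v ≠ c2 := by
      rcases h with ⟨hu2, hv2⟩ | ⟨hu2, hv2⟩
      · exact hP2.2.2.2 u hu2 v hv hv2 huv
      · rw [hw]; exact hP2.2.2.2 v hv2 u hu hu2 (hsym _ _ huv)
    rcases hcol u hu v hv huv' huv with h | h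
    · exact e1 h
    · exact e2 h
  rw [not_disjoint_iff] at h1 h2 h3
  obtain ⟨z1, hz1, hz1'⟩ := h1
  obtain ⟨z2, hz2, hz2'⟩ := h2
  obtain ⟨z3, hz3, hz3'⟩ := h3
  rw [mem_sdiff] at hz1 hz1' hz2' hz3
  -- b is z1
  have hbz : b = z1 := by
    have hz1a : z1 ≠ a := by rintro rfl; exact hz1.2 haP1
    exact hnear a ha b hb z1 hz1.1 hab.symm hz1a hnab
      (hcross a ha z1 hz1.1 haP1 hz1.2 (Or.inl ⟨haP2, hz1'.2⟩))
  have hbP1 : b ∉ P1 := by rw [hbz]; exact hz1.2
  have hbP2 : b ∉ P2 := by rw [hbz]; exact hz1'.2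
  by_cases hr1 : r0 ∈ P1 <;> by_cases hr2 : r0 ∈ P2
  · exact hcross r0 hr b hb hr1 hbP1 (Or.inl ⟨hr2, hbP2⟩) hadjb
  · -- r0 crosses cut 2 with a, cut 1 with b
    have e1 : w r0 b ≠ c1 := hP1.2.2.2 r0 hr1 b hb hbP1 hadjb
    have e2 : w a r0 ≠ c2 := hP2.2.2.2 a haP2 r0 hr hr2 (hsym _ _ hadja)
    rw [hw] at e2
    rcases hcol r0 hr b hb hrb hadjb with h | h
    · exact e1 h
    · rw [hr0] at e2; exact e2 h
  · have e1 : w a r0 ≠ c1 := hP1.2.2.2 a haP1 r0 hr hr1 (hsym _ _ hadja)
    have e2 : w r0 b ≠ c2 := hP2.2.2.2 r0 hr2 b hb hbP2 hadjb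
    rw [hw] at e1
    rcases hcol r0 hr b hb hrb hadjb with h | h
    · rw [hr0] at e1; exact e1 h
    · exact e2 h
  · exact hcross a ha r0 hr haP1 hr1 (Or.inl ⟨haP2, hr2⟩) (hsym _ _ hadja)

/-- The trees used in case (beta). -/
theorem core_tree {G : Type*} [AddCommGroup G] {adj : V → V → Prop} {w : V → V → G}
    (hsym : ∀ u v, adj u v → adj v u) (hw : ∀ u v, w u v = w v u)
    {a b x y : V} (hab : a ≠ b) (hxa : x ≠ a) (hxb : x ≠ b) (hya : y ≠ a) (hyb : y ≠ b)
    (hxy : x ≠ y) (had1 : adj x a) (had2 : adj x b) (had3 : adj y a) (W : Finset V)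
    (haW : a ∉ W) (hbW : b ∉ W) (hxW : x ∉ W) (hyW : y ∉ W) {p q : G}
    (hWx : ∀ z ∈ W, adj z x ∧ adj z y ∧ w z x = p ∧ w z y = q) (j : ℕ) (hj : j ≤ W.card) :
    Tr adj w (insert y ({a, b, x} : Finset V) ∪ W)
      (w x a + w x b + w a y + (W.card • p + j • (q - p))) := by
  obtain ⟨g, hg, hgs⟩ := two_valued p q W j hj
  have t1 := hub_ab (w := w) hsym hw hab hxa hxb had1 had2
  have hy1 : y ∉ ({a, b, x} : Finset V) := by
    simp only [mem_insert, mem_singleton, not_or]
    exact ⟨hya, hyb, hxy.symm⟩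
  have t2 := Tr.leaf t1 (u := a) (by simp) hy1 (hsym _ _ had3)
  have t3 := t2.attach' W g (by
    rw [disjoint_left]
    intro z hz hz'
    rw [mem_insert, mem_insert, mem_insert, mem_singleton] at hz
    rcases hz with rfl | rfl | rfl | rfl
    · exact hyW hz'
    · exact haW hz'
    · exact hbW hz'
    · exact hxW hz') (by
    intro z hz
    obtain ⟨h1, h2, h3, h4⟩ := hWx z hz
    rcases hg z hz with h | h
    · exact ⟨x, by simp, hsym _ _ h1, by rw [hw, h3, h]⟩
    · exact ⟨y, by simp, hsym _ _ h2, by rw [hw, h4, h]⟩)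
  rw [hgs] at t3
  exact t3

/-- In case (beta) every nonzero residue is the weight of a tree. -/
theorem beta {N : ℕ} (hN : 0 < N) {adj : V → V → Prop} {w : V → V → ZMod N}
    (hsym : ∀ u v, adj u v → adj v u) (hw : ∀ u v, w u v = w v u)
    {R : Finset V} (hR : R.card = N + 1) (hnear : NearC adj R) (hnot : ¬ Tr adj w R 0)
    {c1 c2 : ZMod N} (hcol : ∀ u ∈ R, ∀ v ∈ R, u ≠ v → adj u v → w u v = c1 ∨ w u v = c2)
    {a b r0 : V} (ha : a ∈ R) (hb : b ∈ R) (hab : a ≠ b) (hnab : ¬ adj a b)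
    (hr : r0 ∈ R) (hra : r0 ≠ a) (hrb : r0 ≠ b) (hr0 : w r0 a = w r0 b)
    (t : ZMod N) (ht : t ≠ 0) : Tr adj w R t := by
  obtain ⟨P1, P2, hP1, hP2, hd⟩ := two_cuts hsym hw hR hnear hnot hcol ha hb hab hnab hr hra
    hrb hr0
  obtain ⟨e, he⟩ := hP1.2.1
  obtain ⟨f, hf⟩ := hP2.2.1
  have hnba : ¬ adj b a := fun h => hnab (hsym _ _ h)
  have hcr : ∀ u ∈ P1, ∀ v ∈ P2, u ≠ v ∧ ¬ adj u v := by
    intro u hu v hv
    have huv : u ≠ v := by rintro rfl; exact (disjoint_left.1 hd) hu hv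
    refine ⟨huv, fun hadj => ?_⟩
    have huR := hP1.1 hu
    have hvR := hP2.1 hv
    have e1 := hP1.2.2.2 u hu v hvR (fun h => (disjoint_left.1 hd) h hv) hadj
    have e2 := hP2.2.2.2 v hv u huR (fun h => (disjoint_left.1 hd) hu h) (hsym _ _ hadj)
    rw [hw] at e2
    rcases hcol u huR v hvR huv hadj with h | h
    · exact e1 h
    · exact e2 h
  have heR := hP1.1 he
  have hfR := hP2.1 hf
  obtain ⟨hef, hnef⟩ := hcr e he f hf
  have hnfe : ¬ adj f e := fun h => hnef (hsym _ _ h)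
  have hP1e : ∀ u ∈ P1, u = e := by
    intro u hu
    obtain ⟨h1, h2⟩ := hcr u hu f hf
    exact hnear f hfR u (hP1.1 hu) e heR h1 hef (fun h => h2 (hsym _ _ h)) hnfe
  have hP2f : ∀ u ∈ P2, u = f := by
    intro u hu
    obtain ⟨h1, h2⟩ := hcr e he u hu
    exact hnear e heR u (hP2.1 hu) f hfR h1.symm hef.symm h2 hnef
  -- edges at e and f
  have hev : ∀ v ∈ R, v ≠ e → v ≠ f → adj v e ∧ adj v f ∧ w v e = c2 ∧ w v f = c1 := by
    intro v hv hve hvf
    have h1 : adj v e := by
      by_contra h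
      exact hvf (hnear e heR v hv f hfR hve hef.symm (fun h' => h (hsym _ _ h')) hnef)
    have h2 : adj v f := by
      by_contra h
      exact hve (hnear f hfR v hv e heR hvf hef (fun h' => h (hsym _ _ h')) hnfe)
    refine ⟨h1, h2, ?_, ?_⟩
    · have := hP1.2.2.2 e he v hv (fun h => hve (hP1e v h)) (hsym _ _ h1)
      rw [hw] at this
      rcases hcol v hv e heR hve h1 with h | h
      · exact absurd h this
      · exact h
    · have := hP2.2.2.2 f hf v hv (fun h => hvf (hP2f v h)) (hsym _ _ h2)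
      rw [hw] at this
      rcases hcol v hv f hfR hvf h2 with h | h
      · exact h
      · exact absurd h this
  -- a third vertex shows c1 ≠ c2
  have hmain : ∀ v ∈ R, v ≠ e → v ≠ f → c1 ≠ c2 := by
    intro v hv hve hvf h
    obtain ⟨h1, h2, h3, h4⟩ := hev v hv hve hvf
    exact hP2.2.2.2 f hf v hv (fun h => hvf (hP2f v h)) (hsym _ _ h2) (by rw [hw, h4, h])
  have hae : a ≠ e := by
    rintro rfl
    have hfb : f = b := hnear a ha f hfR b hb hef.symm hab.symm hnef hnab
    subst hfb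
    obtain ⟨h1, h2, h3, h4⟩ := hev r0 hr hra hrb
    exact hmain r0 hr hra hrb (by rw [← h3, ← h4]; exact hr0.symm)
  have hbe : b ≠ e := by
    rintro rfl
    have hfb : f = a := hnear b hb f hfR a ha hef.symm hab hnef hnba
    subst hfb
    obtain ⟨h1, h2, h3, h4⟩ := hev r0 hr hrb hra
    exact hmain r0 hr hrb hra (by rw [← h3, ← h4]; exact hr0)
  have haf : a ≠ f := by
    rintro rfl
    exact hbe (hnear a ha b hb e heR hab.symm hef hnab hnfe)
  have hbf : b ≠ f := by
    rintro rfl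
    exact hae (hnear b hb a ha e heR hab hef hnba hnfe)
  obtain ⟨hadjae, hadjaf, hwae, hwaf⟩ := hev a ha hae haf
  obtain ⟨hadjbe, hadjbf, hwbe, hwbf⟩ := hev b hb hbe hbf
  -- the rest
  set W : Finset V := (((R.erase a).erase b).erase e).erase f with hW
  have hWmem : ∀ z, z ∈ W ↔ (z ≠ f ∧ z ≠ e ∧ z ≠ b ∧ z ≠ a ∧ z ∈ R) := by
    intro z
    rw [hW, mem_erase, mem_erase, mem_erase, mem_erase]
  have hWc : W.card + 4 = N + 1 := by
    have c1 : (R.erase a).card = R.card - 1 := card_erase_of_mem ha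
    have c2 : ((R.erase a).erase b).card = (R.erase a).card - 1 :=
      card_erase_of_mem (mem_erase.2 ⟨hab.symm, hb⟩)
    have c3 : (((R.erase a).erase b).erase e).card = ((R.erase a).erase b).card - 1 :=
      card_erase_of_mem (mem_erase.2 ⟨hbe.symm, mem_erase.2 ⟨hae.symm, heR⟩⟩)
    have c4 : W.card = (((R.erase a).erase b).erase e).card - 1 :=
      card_erase_of_mem (mem_erase.2 ⟨hef.symm, mem_erase.2 ⟨hbf.symm,
        mem_erase.2 ⟨haf.symm, hfR⟩⟩⟩)
    have c5 : 4 ≤ R.card := by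
      have : ({a, b, e, f} : Finset V) ⊆ R := by
        intro z hz
        simp only [mem_insert, mem_singleton] at hz
        rcases hz with rfl | rfl | rfl | rfl
        · exact ha
        · exact hb
        · exact heR
        · exact hfR
      have h4 := card_le_card this
      rw [card_insert_of_notMem (by simp [hab, hae, haf]),
        card_insert_of_notMem (by simp [hbe, hbf]), card_pair hef] at h4
      exact h4
    omega
  have hNcast : ((N : ℕ) : ZMod N) = 0 := ZMod.natCast_self N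
  have hWcast : ((W.card : ℕ) : ZMod N) = -3 := by
    have : ((W.card + 4 : ℕ) : ZMod N) = ((N + 1 : ℕ) : ZMod N) := by rw [hWc]
    push_cast at this
    rw [hNcast] at this
    linear_combination this
  -- hub trees
  have hWe : ∀ z ∈ W, adj z e ∧ adj z f ∧ w z e = c2 ∧ w z f = c1 := by
    intro z hz
    rw [hWmem] at hz
    exact hev z hz.2.2.2.2 hz.2.1 hz.1
  have haW : a ∉ W := fun h => ((hWmem a).1 h).2.2.2.1 rfl
  have hbW : b ∉ W := fun h => ((hWmem b).1 h).2.2.1 rfl
  have heW : e ∉ W := fun h => ((hWmem e).1 h).2.1 rfl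
  have hfW : f ∉ W := fun h => ((hWmem f).1 h).1 rfl
  have hset1 : insert f ({a, b, e} : Finset V) ∪ W = R := by
    ext z
    rw [mem_union, mem_insert, mem_insert, mem_insert, mem_singleton, hWmem]
    constructor
    · rintro ((rfl | rfl | rfl | rfl) | h)
      · exact hfR
      · exact ha
      · exact hb
      · exact heR
      · exact h.2.2.2.2
    · intro hz
      by_cases z1 : z = f
      · exact Or.inl (Or.inl z1)
      by_cases z2 : z = a
      · exact Or.inl (Or.inr (Or.inl z2))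
      by_cases z3 : z = b
      · exact Or.inl (Or.inr (Or.inr (Or.inl z3)))
      by_cases z4 : z = e
      · exact Or.inl (Or.inr (Or.inr (Or.inr z4)))
      exact Or.inr ⟨z1, z4, z3, z2, hz⟩
  have hset2 : insert e ({a, b, f} : Finset V) ∪ W = R := by
    rw [← hset1]
    congr 1
    ext z
    rw [mem_insert, mem_insert, mem_insert, mem_singleton, mem_insert, mem_insert, mem_insert,
      mem_singleton]
    constructor
    · rintro (h | h | h | h)
      · exact Or.inr (Or.inr (Or.inr h))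
      · exact Or.inr (Or.inl h)
      · exact Or.inr (Or.inr (Or.inl h))
      · exact Or.inl h
    · rintro (h | h | h | h)
      · exact Or.inr (Or.inr (Or.inr h))
      · exact Or.inr (Or.inl h)
      · exact Or.inr (Or.inr (Or.inl h))
      · exact Or.inl h
  have hall : ∀ k : ℕ, 1 ≤ k → k < N → Tr adj w R (k • (c1 - c2)) := by
    intro k hk1 hkN
    by_cases hk : k ≤ N - 2
    · have h := core_tree hsym hw hab hae.symm hbe.symm haf.symm hbf.symm hef
        (hsym _ _ hadjae) (hsym _ _ hadjbe) (hsym _ _ hadjaf) W haW hbW heW hfW hWe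
        (k - 1) (by omega)
      refine h.congr hset1 ?_
      rw [hw e a, hw e b, hwae, hwbe, hwaf, nsmul_eq_mul, nsmul_eq_mul, nsmul_eq_mul,
        hWcast, Nat.cast_sub hk1]
      push_cast
      ring
    · have h := core_tree hsym hw hab haf.symm hbf.symm hae.symm hbe.symm hef.symm
        (hsym _ _ hadjaf) (hsym _ _ hadjbf) (hsym _ _ hadjae) W haW hbW hfW heW
        (fun z hz => ⟨(hWe z hz).2.1, (hWe z hz).1, (hWe z hz).2.2.2, (hWe z hz).2.2.1⟩)
        0 (by omega)
      refine h.congr hset2 ?_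
      have hkN' : k + 1 = N := by omega
      have hkc : (k : ZMod N) = -1 := by
        have : ((k + 1 : ℕ) : ZMod N) = 0 := by rw [hkN']; exact hNcast
        push_cast at this
        linear_combination this
      rw [hw f a, hw f b, hwaf, hwbf, hwae, nsmul_eq_mul, nsmul_eq_mul, nsmul_eq_mul,
        hWcast, hkc]
      push_cast
      ring
  obtain ⟨k, hk, rfl⟩ := gen_of_ne hN (c1 - c2) (fun k h1 h2 h0 => hnot (h0 ▸ hall k h1 h2)) t
  have hk1 : 1 ≤ k := by
    by_contra hcon
    have : k = 0 := by omega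
    subst this
    exact ht (zero_nsmul _)
  exact hall k hk1 hk


open Classical in
/-- Complete a tree modulo `N` on `R` by attaching `Z` to `a` or `b`. -/
theorem finish {n N : ℕ} (hn : 0 < n) (hNn : N ∣ n) {adj : V → V → Prop}
    {w : V → V → ZMod n} (hsym : ∀ u v, adj u v → adj v u) (hw : ∀ u v, w u v = w v u)
    {a b : V} {R Z : Finset V} (ha : a ∈ R) (hb : b ∈ R) (hd : Disjoint R Z)
    (hadj : ∀ z ∈ Z, adj z a ∧ adj z b) {t : ZMod N}
    (hR : Tr adj (fun u v => pr hNn (w u v)) R t) (τ : ZMod n)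
    (hτ : t + ∑ z ∈ Z, pr hNn (w z a) = pr hNn τ)
    (hcount : ∀ d, N ∣ d → ∀ hd : d ∣ n, N < d → ∃ Z' ⊆ Z,
      (∀ z ∈ Z', pr hNn (w z a) = pr hNn (w z b) ∧ pr hd (w z a) ≠ pr hd (w z b)) ∧
      d / N ≤ Z'.card + 1) : Tr adj w (R ∪ Z) τ := by
  obtain ⟨s, hs, hps⟩ := Tr.lift (pr hNn) hR
  set A : V → Set (ZMod n) := fun z =>
    if pr hNn (w z a) = pr hNn (w z b) then {w z a, w z b} else {w z a} with hA
  have hmem : ∀ z, ∀ x ∈ A z, x = w z a ∨ (x = w z b ∧ pr hNn (w z a) = pr hNn (w z b)) := by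
    intro z x hx
    by_cases h : pr hNn (w z a) = pr hNn (w z b)
    · simp only [hA, if_pos h, Set.mem_insert_iff, Set.mem_singleton_iff] at hx
      rcases hx with hx | hx
      · exact Or.inl hx
      · exact Or.inr ⟨hx, h⟩
    · simp only [hA, if_neg h, Set.mem_singleton_iff] at hx
      exact Or.inl hx
  obtain ⟨f, hf, hfs⟩ := flex' hn hNn A (fun z => pr hNn (w z a)) Z
    (fun z _ => ⟨w z a, by simp only [hA]; split_ifs <;> simp⟩)
    (fun z _ x hx => by
      rcases hmem z x hx with h | ⟨h, h'⟩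
      · rw [h]
      · rw [h, h'])
    (fun d hNd hdn hlt => by
      obtain ⟨Z', hZ', hZ'', hc⟩ := hcount d hNd hdn hlt
      refine ⟨Z', hZ', ?_, hc⟩
      intro z hz hsub
      obtain ⟨h1, h2⟩ := hZ'' z hz
      apply h2
      apply hsub
      · exact ⟨w z a, by simp only [hA, if_pos h1, Set.mem_insert_iff, true_or], rfl⟩
      · exact ⟨w z b, by
          simp only [hA, if_pos h1, Set.mem_insert_iff, Set.mem_singleton_iff, or_true], rfl⟩)
    (τ - s) (by rw [map_sub, hps, ← hτ]; ring)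
  refine (attach_ab hsym hw hs ha hb Z hd hadj f ?_).congr rfl (by rw [hfs]; ring)
  intro z hz
  rcases hmem z _ (hf z hz) with h | ⟨h, _⟩
  · exact Or.inl h
  · exact Or.inr h

open Classical in
/-- Case II. -/
theorem caseII {n N m : ℕ} (hN : 1 < N) (hnN : n = N * (m + 2)) (hNn : N ∣ n)
    {adj : V → V → Prop} {w : V → V → ZMod n}
    (hsym : ∀ u v, adj u v → adj v u) (hw : ∀ u v, w u v = w v u) {C X : Finset V} {a b : V}
    (hab : a ≠ b) (haX : a ∉ X) (hbX : b ∉ X) (hC : C = {a, b} ∪ X) (hXc : X.card = n - 1)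
    (hadj : ∀ x ∈ X, adj x a ∧ adj x b) (hnab : ¬ adj a b) (hne : ∀ x ∈ X, w x a ≠ w x b)
    (hnear : NearC adj C) (hnot : ¬ Tr adj w C 0)
    (IH : ∀ (w' : V → V → ZMod N), (∀ u v, w' u v = w' v u) → ∀ R : Finset V,
      R.card = N + 1 → NearC adj R → ¬ Tr adj w' R 0 →
      ∃ c1 c2, ∀ u ∈ R, ∀ v ∈ R, u ≠ v → adj u v → w' u v = c1 ∨ w' u v = c2)
    (hNc : (X.filter (fun x => pr hNn (w x a) ≠ pr hNn (w x b))).card < N)
    (hcount : ∀ d, ∀ hd : d ∣ n, N < d → d < n →
      d ≤ (X.filter (fun x => pr hd (w x a) ≠ pr hd (w x b))).card) : False := by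
  have hmul : N * (m + 2) = N * (m + 1) + N := by ring
  have hn0 : 0 < n := by rw [hnN, hmul]; omega
  haveI : NeZero n := ⟨hn0.ne'⟩
  have hane : ∀ x ∈ X, x ≠ a := fun x hx h => haX (h ▸ hx)
  have hbne : ∀ x ∈ X, x ≠ b := fun x hx h => hbX (h ▸ hx)
  have hXC : X ⊆ C := by rw [hC]; exact subset_union_right
  have haC : a ∈ C := by rw [hC]; simp
  have hbC : b ∈ C := by rw [hC]; simp
  have hdabX : Disjoint ({a, b} : Finset V) X := by
    rw [disjoint_left]
    intro z hz hz'
    rw [mem_insert, mem_singleton] at hz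
    rcases hz with rfl | rfl
    · exact haX hz'
    · exact hbX hz'
  have hCc : C.card = n + 1 := by
    rw [hC, card_union_of_disjoint hdabX, card_pair hab, hXc]; omega
  obtain ⟨Y, hYX, hYc, hYs⟩ := egz_blocks (by omega : 0 < N) (fun x => pr hNn (w x a))
    (m + 1) X (by
      rw [hXc]
      have : N * (m + 1 + 1) = n := by rw [hnN]
      omega)
  set R := C \ Y with hR
  have haY : a ∉ Y := fun h => haX (hYX h)
  have hbY : b ∉ Y := fun h => hbX (hYX h)
  have haR : a ∈ R := mem_sdiff.2 ⟨haC, haY⟩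
  have hbR : b ∈ R := mem_sdiff.2 ⟨hbC, hbY⟩
  have hRc : R.card = N + 1 := by
    rw [hR, card_sdiff_of_subset (hYX.trans hXC), hCc, hYc]
    omega
  have hXYc : (X \ Y).card = N - 1 := by
    rw [card_sdiff_of_subset hYX, hXc, hYc]; omega
  have hRY : Disjoint R Y := sdiff_disjoint
  have hRuY : R ∪ Y = C := sdiff_union_of_subset (hYX.trans hXC)
  -- counts
  have hbase : ∀ d, ∀ hd : d ∣ n,
      (X.filter (fun x => pr hd (w x a) ≠ pr hd (w x b))).card ≤
      (Y.filter (fun y => pr hNn (w y a) = pr hNn (w y b) ∧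
        pr hd (w y a) ≠ pr hd (w y b))).card + (N - 1) + (N - 1) := by
    intro d hd
    have hsub : X.filter (fun x => pr hd (w x a) ≠ pr hd (w x b)) ⊆
        (Y.filter (fun y => pr hNn (w y a) = pr hNn (w y b) ∧
          pr hd (w y a) ≠ pr hd (w y b))) ∪
        ((X.filter (fun x => pr hNn (w x a) ≠ pr hNn (w x b))) ∪ (X \ Y)) := by
      intro x hx
      rw [mem_filter] at hx
      by_cases hxY : x ∈ Y
      · by_cases hxN : pr hNn (w x a) = pr hNn (w x b)
        · exact mem_union_left _ (mem_filter.2 ⟨hxY, hxN, hx.2⟩)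
        · exact mem_union_right _ (mem_union_left _ (mem_filter.2 ⟨hx.1, hxN⟩))
      · exact mem_union_right _ (mem_union_right _ (mem_sdiff.2 ⟨hx.1, hxY⟩))
    have hc1 := card_le_card hsub
    have hc2 := card_union_le (Y.filter (fun y => pr hNn (w y a) = pr hNn (w y b) ∧
          pr hd (w y a) ≠ pr hd (w y b)))
        ((X.filter (fun x => pr hNn (w x a) ≠ pr hNn (w x b))) ∪ (X \ Y))
    have hc3 := card_union_le (X.filter (fun x => pr hNn (w x a) ≠ pr hNn (w x b))) (X \ Y)
    omega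
  have hfull : ∀ hd : n ∣ n, X.filter (fun x => pr hd (w x a) ≠ pr hd (w x b)) = X := by
    intro hd
    rw [filter_eq_self]
    intro x hx h
    exact hne x hx (pr_self_injective hn0 hd h)
  have hdx : ∀ d, N ∣ d → N < d → ∃ x, d = N * (x + 2) ∧ d / N = x + 2 ∧ x ≤ N * x := by
    rintro d ⟨x, rfl⟩ hlt
    have hx2 : 2 ≤ x := by
      by_contra hcon
      have : x = 0 ∨ x = 1 := by omega
      rcases this with rfl | rfl
      · omega
      · omega
    refine ⟨x - 2, by rw [Nat.sub_add_cancel hx2], ?_, Nat.le_mul_of_pos_left _ (by omega)⟩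
    rw [Nat.mul_div_cancel_left _ (by omega : 0 < N)]
    omega
  have count5 : ∀ d, N ∣ d → ∀ hd : d ∣ n, N < d → ∃ Z' ⊆ Y,
      (∀ z ∈ Z', pr hNn (w z a) = pr hNn (w z b) ∧ pr hd (w z a) ≠ pr hd (w z b)) ∧
      d / N ≤ Z'.card + 1 := by
    intro d hNd hd hlt
    refine ⟨_, filter_subset _ _, fun z hz => (mem_filter.1 hz).2, ?_⟩
    have hb := hbase d hd
    obtain ⟨x, hx1, hx2, hx3⟩ := hdx d hNd hlt
    have e1 : N * (x + 2) = N * x + 2 * N := by ring
    rcases Nat.eq_or_lt_of_le (Nat.le_of_dvd hn0 hd) with h | h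
    · subst h
      rw [hfull, hXc] at hb
      omega
    · have := hcount d hd hlt h
      omega
  have count4 : ∀ y ∈ Y, pr hNn (w y a) ≠ pr hNn (w y b) →
      ∀ d, N ∣ d → ∀ hd : d ∣ n, N < d → ∃ Z' ⊆ Y.erase y,
      (∀ z ∈ Z', pr hNn (w z a) = pr hNn (w z b) ∧ pr hd (w z a) ≠ pr hd (w z b)) ∧
      d / N ≤ Z'.card + 1 := by
    intro y hy hyN d hNd hd hlt
    obtain ⟨Z', h1, h2, h3⟩ := count5 d hNd hd hlt
    refine ⟨Z', ?_, h2, h3⟩
    intro z hz
    refine mem_erase.2 ⟨?_, h1 hz⟩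
    rintro rfl
    exact hyN (h2 z hz).1
  have count3 : (∀ y ∈ Y, pr hNn (w y a) = pr hNn (w y b)) → ∀ y ∈ Y,
      ∀ d, N ∣ d → ∀ hd : d ∣ n, N < d → ∃ Z' ⊆ Y.erase y,
      (∀ z ∈ Z', pr hNn (w z a) = pr hNn (w z b) ∧ pr hd (w z a) ≠ pr hd (w z b)) ∧
      d / N ≤ Z'.card + 1 := by
    intro hall y hy d hNd hd hlt
    obtain ⟨x, hx1, hx2, hx3⟩ := hdx d hNd hlt
    have e1 : N * (x + 2) = N * x + 2 * N := by ring
    rcases Nat.eq_or_lt_of_le (Nat.le_of_dvd hn0 hd) with h | h
    · refine ⟨Y.erase y, subset_rfl, ?_, ?_⟩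
      · intro z hz
        have hzY := mem_of_mem_erase hz
        refine ⟨hall z hzY, ?_⟩
        subst h
        exact fun h' => hne z (hYX hzY) (pr_self_injective hn0 hd h')
      · rw [card_erase_of_mem hy, hYc]
        have : x = m := by
          have h1 : N * (x + 2) = N * (m + 2) := by rw [← hx1, ← hnN, h]
          have := Nat.eq_of_mul_eq_mul_left (by omega : 0 < N) h1
          omega
        subst this
        have e2 : N * (x + 1) = N * x + N := by ring
        omega
    · refine ⟨(Y.filter (fun y => pr hNn (w y a) = pr hNn (w y b) ∧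
        pr hd (w y a) ≠ pr hd (w y b))).erase y, erase_subset_erase _ (filter_subset _ _),
        fun z hz => (mem_filter.1 (mem_of_mem_erase hz)).2, ?_⟩
      have hb := hbase d hd
      have h5 := hcount d hd hlt h
      have h6 := pred_card_le_card_erase (s := Y.filter (fun y => pr hNn (w y a) =
        pr hNn (w y b) ∧ pr hd (w y a) ≠ pr hd (w y b))) (a := y)
      omega
  set wb : V → V → ZMod N := fun u v => pr hNn (w u v) with hwb
  have hwbs : ∀ u v, wb u v = wb v u := fun u v => by simp only [hwb, hw u v]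
  have hnotR : ¬ Tr adj wb R 0 := by
    intro h
    apply hnot
    rw [← hRuY]
    refine finish hn0 hNn hsym hw haR hbR hRY (fun z hz => hadj z (hYX hz)) h 0 ?_ count5
    rw [hYs, zero_add, map_zero]
  have hnearR : NearC adj R := hnear.mono sdiff_subset
  obtain ⟨c1, c2, hcol⟩ := IH wb hwbs R hRc hnearR hnotR
  have hXYR : ∀ x ∈ X \ Y, x ∈ R := fun x hx =>
    mem_sdiff.2 ⟨hXC (mem_sdiff.1 hx).1, (mem_sdiff.1 hx).2⟩
  have herase : ∀ y ∈ Y, (R ∪ Y.erase y = C.erase y) := by
    intro y hy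
    have hyR : y ∉ R := fun h => (mem_sdiff.1 h).2 hy
    rw [← hRuY, erase_union_distrib, erase_eq_of_notMem hyR]
  by_cases hα : ∃ r0 ∈ X \ Y, wb r0 a = wb r0 b
  · obtain ⟨r0, hr0, hr0e⟩ := hα
    have hr0X := (mem_sdiff.1 hr0).1
    have hbeta := beta (by omega) hsym hwbs hRc hnearR hnotR hcol haR hbR hab hnab
      (hXYR r0 hr0) (hane r0 hr0X) (hbne r0 hr0X) hr0e
    have claim1 : ∀ y ∈ Y, ∀ z ∈ R, adj z y → wb z y ≠ wb y a →
        (∀ d, N ∣ d → ∀ hd : d ∣ n, N < d → ∃ Z' ⊆ Y.erase y,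
          (∀ z ∈ Z', pr hNn (w z a) = pr hNn (w z b) ∧ pr hd (w z a) ≠ pr hd (w z b)) ∧
          d / N ≤ Z'.card + 1) → False := by
      intro y hy z hz hzy hne' hcnt
      have ht := hbeta (wb y a - wb z y) (sub_ne_zero.2 hne'.symm)
      have hT := finish hn0 hNn hsym hw haR hbR (hRY.mono_right (erase_subset y Y))
        (fun z hz => hadj z (hYX (mem_of_mem_erase hz))) ht (- w z y) (by
          have h1 : ∑ z ∈ Y.erase y, pr hNn (w z a) + pr hNn (w y a) = 0 := by
            rw [sum_erase_add _ _ hy]; exact hYs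
          rw [map_neg]
          change wb y a - wb z y + _ = - wb z y
          change _ + wb y a = 0 at h1
          linear_combination h1) hcnt
      rw [herase y hy] at hT
      apply hnot
      have hzm : z ∈ C.erase y := by
        refine mem_erase.2 ⟨?_, (mem_sdiff.1 hz).1⟩
        rintro rfl
        exact (mem_sdiff.1 hz).2 hy
      refine (Tr.leaf hT hzm (notMem_erase _ _) hzy).congr ?_ (neg_add_cancel _)
      exact insert_erase (hXC (hYX hy))
    have claim2 : ∀ y ∈ Y, pr hNn (w y a) = pr hNn (w y b) := by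
      intro y hy
      by_contra hcon
      exact claim1 y hy b hbR (hsym _ _ (hadj y (hYX hy)).2)
        (fun h => hcon (by rw [hwbs b y] at h; exact h.symm)) (count4 y hy hcon)
    have claim3 : ∀ y ∈ Y, ∀ z ∈ R, adj z y → wb z y = wb y a := by
      intro y hy z hz hzy
      by_contra hcon
      exact claim1 y hy z hz hzy hcon (count3 claim2 y hy)
    have claim5 : ∃ y1 ∈ Y, ∀ z ∈ R, adj z y1 := by
      by_contra hcon
      push Not at hcon
      choose! F hF using hcon
      have hFm : ∀ y ∈ Y, F y ∈ X \ Y := by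
        intro y hy
        obtain ⟨h1, h2⟩ := hF y hy
        have h3 := mem_sdiff.1 h1
        refine mem_sdiff.2 ⟨?_, h3.2⟩
        have h4 := h3.1
        rw [hC, mem_union, mem_insert, mem_singleton] at h4
        rcases h4 with (h4 | h4) | h4
        · exact absurd (hsym _ _ (hadj y (hYX hy)).1) (h4 ▸ h2)
        · exact absurd (hsym _ _ (hadj y (hYX hy)).2) (h4 ▸ h2)
        · exact h4
      have hmul2 : N * (m + 1) = N * m + N := by ring
      obtain ⟨y, hy, y', hy', hyy', hFe⟩ := exists_ne_map_eq_of_card_lt_of_maps_to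
        (s := Y) (t := X \ Y) (f := F) (by rw [hXYc, hYc]; omega) hFm
      apply hyy'
      have hz := hFm y hy
      have hz' := mem_sdiff.1 hz
      refine hnear (F y) (hXC hz'.1) y (hXC (hYX hy)) y' (hXC (hYX hy')) ?_ ?_ (hF y hy).2 ?_
      · intro h; rw [← h] at hz'; exact hz'.2 hy
      · intro h; rw [← h] at hz'; exact hz'.2 hy'
      · rw [hFe]; exact (hF y' hy').2
    obtain ⟨y1, hy1, hy1a⟩ := claim5
    have hy1R : y1 ∉ R := fun h => (mem_sdiff.1 h).2 hy1
    have hT1 := (Tr.single (adj := adj) (w := wb) y1).attach' R (fun _ => wb y1 a)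
      (by rwa [disjoint_singleton_left])
      (fun z hz => ⟨y1, mem_singleton_self _, hsym _ _ (hy1a z hz), by
        rw [hwbs]; exact claim3 y1 hy1 z hz (hy1a z hz)⟩)
    have hT := finish hn0 hNn hsym hw (Z := Y.erase y1) (mem_union_right {y1} haR)
      (mem_union_right {y1} hbR) (by
        rw [disjoint_union_left]
        refine ⟨?_, hRY.mono_right (erase_subset y1 Y)⟩
        rw [disjoint_singleton_left]
        exact notMem_erase _ _)
      (fun z hz => hadj z (hYX (mem_of_mem_erase hz))) hT1 0 (by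
        have h1 : ∑ z ∈ Y.erase y1, pr hNn (w z a) + pr hNn (w y1 a) = 0 := by
          rw [sum_erase_add _ _ hy1]; exact hYs
        rw [map_zero, sum_const, hRc, nsmul_eq_mul]
        change _ + wb y1 a = 0 at h1
        push_cast
        rw [ZMod.natCast_self N]
        linear_combination h1) (count3 claim2 y1 hy1)
    apply hnot
    refine hT.congr ?_ rfl
    rw [union_assoc, herase y1 hy1, ← insert_eq, insert_erase (hXC (hYX hy1))]
  · push Not at hα
    have hsubf : X \ Y ⊆ X.filter (fun x => pr hNn (w x a) ≠ pr hNn (w x b)) := by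
      intro x hx
      exact mem_filter.2 ⟨(mem_sdiff.1 hx).1, hα x hx⟩
    have heqf := eq_of_subset_of_card_le hsubf (by rw [hXYc]; omega)
    have hYN : ∀ y ∈ Y, pr hNn (w y a) = pr hNn (w y b) := by
      intro y hy
      by_contra hcon
      have : y ∈ X \ Y := by
        rw [heqf]
        exact mem_filter.2 ⟨hYX hy, hcon⟩
      exact (mem_sdiff.1 this).2 hy
    have hXYpq : ∀ x ∈ X \ Y, (wb x a = c1 ∧ wb x b = c2) ∨ (wb x a = c2 ∧ wb x b = c1) := by
      intro x hx
      have hxX := (mem_sdiff.1 hx).1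
      have h1 := hcol x (hXYR x hx) a haR (hane x hxX) (hadj x hxX).1
      have h2 := hcol x (hXYR x hx) b hbR (hbne x hxX) (hadj x hxX).2
      have h3 := hα x hx
      rcases h1 with h1 | h1 <;> rcases h2 with h2 | h2
      · exact absurd (h1.trans h2.symm) h3
      · exact Or.inl ⟨h1, h2⟩
      · exact Or.inr ⟨h1, h2⟩
      · exact absurd (h1.trans h2.symm) h3
    have hAmem : ∀ x ∈ X \ Y, ∀ z, z = c1 ∨ z = c2 → z = wb x a ∨ z = wb x b := by
      intro x hx z hz
      rcases hXYpq x hx with ⟨h1, h2⟩ | ⟨h1, h2⟩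
      · rw [h1, h2]; exact hz
      · rw [h1, h2]; exact hz.symm
    have hNcast : ((N : ℕ) : ZMod N) = 0 := ZMod.natCast_self N
    have hgen : ∀ k : ℕ, 1 ≤ k → k < N → k • (c2 - c1) ≠ 0 := by
      intro k hk1 hkN h0
      obtain ⟨r1, hr1⟩ : (X \ Y).Nonempty := by rw [← card_pos]; omega
      have hr1X := (mem_sdiff.1 hr1).1
      have hWc : ((X \ Y).erase r1).card = N - 2 := by
        rw [card_erase_of_mem hr1, hXYc]; omega
      obtain ⟨f, hf, hfs⟩ := two_valued c1 c2 ((X \ Y).erase r1) (k - 1) (by omega)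
      have h1 := hub_ab (w := wb) hsym hwbs hab (hane r1 hr1X) (hbne r1 hr1X)
        (hadj r1 hr1X).1 (hadj r1 hr1X).2
      have h2 := attach_ab hsym hwbs h1 (by simp) (by simp) ((X \ Y).erase r1) (by
        rw [disjoint_left]
        intro z hz hz'
        rw [mem_insert, mem_insert, mem_singleton] at hz
        rw [mem_erase, mem_sdiff] at hz'
        rcases hz with rfl | rfl | rfl
        · exact haX hz'.2.1
        · exact hbX hz'.2.1
        · exact hz'.1 rfl) (fun y hy => hadj y (mem_sdiff.1 (mem_of_mem_erase hy)).1) f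
        (fun y hy => hAmem y (mem_of_mem_erase hy) _ (hf y hy))
      apply hnotR
      refine h2.congr ?_ ?_
      · rw [hR, hC]
        ext z
        simp only [mem_union, mem_insert, mem_singleton, mem_erase, mem_sdiff]
        constructor
        · rintro ((h | h | h) | h)
          · exact ⟨Or.inl (Or.inl h), h ▸ haY⟩
          · exact ⟨Or.inl (Or.inr h), h ▸ hbY⟩
          · exact ⟨Or.inr (h ▸ hr1X), h ▸ (mem_sdiff.1 hr1).2⟩
          · exact ⟨Or.inr h.2.1, h.2.2⟩
        · rintro ⟨(h | h) | h, h'⟩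
          · exact Or.inl (Or.inl h)
          · exact Or.inl (Or.inr (Or.inl h))
          · by_cases hzu : z = r1
            · exact Or.inl (Or.inr (Or.inr hzu))
            · exact Or.inr ⟨hzu, h, h'⟩
      · have hsum : wb r1 a + wb r1 b = c1 + c2 := by
          rcases hXYpq r1 hr1 with ⟨h1, h2⟩ | ⟨h1, h2⟩
          · rw [h1, h2]
          · rw [h1, h2, add_comm]
        rw [hsum, hfs, hWc]
        have e1 : ((N - 2 : ℕ) : ZMod N) = -2 := by
          rw [Nat.cast_sub (by omega), hNcast]; norm_num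
        have e2 : ((k - 1 : ℕ) : ZMod N) = (k : ZMod N) - 1 := by
          rw [Nat.cast_sub hk1]; norm_num
        rw [nsmul_eq_mul] at h0 ⊢
        rw [nsmul_eq_mul, e1, e2]
        linear_combination h0
    have hmul2 : N * (m + 1) = N * m + N := by ring
    obtain ⟨u, hu⟩ : Y.Nonempty := by rw [← card_pos]; omega
    have huX := hYX hu
    obtain ⟨j, hj, hje⟩ := gen_of_ne (by omega) (c2 - c1) hgen
      (- (wb u a + wb u b + ((X \ Y).card • c1) + ∑ z ∈ Y.erase u, pr hNn (w z a)))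
    obtain ⟨f, hf, hfs⟩ := two_valued c1 c2 (X \ Y) j (by omega)
    have h1 := hub_ab (w := wb) hsym hwbs hab (hane u huX) (hbne u huX)
      (hadj u huX).1 (hadj u huX).2
    have h2 := attach_ab hsym hwbs h1 (by simp) (by simp) (X \ Y) (by
      rw [disjoint_left]
      intro z hz hz'
      rw [mem_insert, mem_insert, mem_singleton] at hz
      rw [mem_sdiff] at hz'
      rcases hz with rfl | rfl | rfl
      · exact haX hz'.1
      · exact hbX hz'.1
      · exact hz'.2 hu) (fun y hy => hadj y (mem_sdiff.1 hy).1) f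
      (fun y hy => hAmem y hy _ (hf y hy))
    have hT := finish hn0 hNn hsym hw (a := a) (b := b) (Z := Y.erase u)
      (by simp) (by simp) (by
        rw [disjoint_left]
        intro z hz hz'
        rw [mem_union, mem_insert, mem_insert, mem_singleton, mem_sdiff] at hz
        rw [mem_erase] at hz'
        rcases hz with (rfl | rfl | rfl) | hz
        · exact haY hz'.2
        · exact hbY hz'.2
        · exact hz'.1 rfl
        · exact hz.2 hz'.2)
      (fun z hz => hadj z (hYX (mem_of_mem_erase hz))) h2 0 (by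
        rw [map_zero, hfs]
        linear_combination -hje) (count3 hYN u hu)
    apply hnot
    refine hT.congr ?_ rfl
    rw [hC]
    ext z
    simp only [mem_union, mem_insert, mem_singleton, mem_erase, mem_sdiff]
    constructor
    · rintro (((h | h | h) | h) | h)
      · exact Or.inl (Or.inl h)
      · exact Or.inl (Or.inr h)
      · exact Or.inr (h ▸ huX)
      · exact Or.inr h.1
      · exact Or.inr (hYX h.2)
    · rintro ((h | h) | h)
      · exact Or.inl (Or.inl (Or.inl h))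
      · exact Or.inl (Or.inl (Or.inr (Or.inl h)))
      · by_cases hzY : z ∈ Y
        · by_cases hzu : z = u
          · exact Or.inl (Or.inl (Or.inr (Or.inr hzu)))
          · exact Or.inr ⟨hzu, hzY⟩
        · exact Or.inl (Or.inr ⟨h, hzY⟩)

end Pool.Agent.Helper61.ZST
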