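import Mathlib

set_option autoImplicit false

namespace Pool.Agent.Helper61.ZST

open Finset

variable {V : Type*} [DecidableEq V] {G : Type*} [AddCommGroup G]

/-- `Tr adj w C s`: there is a tree on the vertex set `C`, with edges in `adj`, of total
weight `s`. -/
inductive Tr (adj : V → V → Prop) (w : V → V → G) : Finset V → G → Prop
  | single (v : V) : Tr adj w {v} 0
  | leaf {C : Finset V} {s : G} {u v : V} : Tr adj w C s → u ∈ C → v ∉ C → adj u v →
      Tr adj w (insert v C) (s + w u v)

section basic
variable {adj : V → V → Prop} {w : V → V → G}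

theorem Tr.nonempty {C : Finset V} {s : G} (h : Tr adj w C s) : C.Nonempty := by
  cases h with
  | single v => exact ⟨v, by simp⟩
  | leaf _ _ _ _ => exact ⟨_, mem_insert_self _ _⟩

theorem Tr.congr {C C' : Finset V} {s s' : G} (h : Tr adj w C s) (hC : C = C') (hs : s = s') :
    Tr adj w C' s' := by
  subst hC; subst hs; exact h

theorem Tr.merge (hsym : ∀ u v, adj u v → adj v u) (hw : ∀ u v, w u v = w v u)
    {A : Finset V} {s : G} (hA : Tr adj w A s) :
    ∀ {B : Finset V} {t : G} {x y : V}, Tr adj w B t → Disjoint A B → x ∈ A → y ∈ B →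
      adj x y → Tr adj w (A ∪ B) (s + t + w x y) := by
  induction hA with
  | single v =>
    intro B t x y hB hd hx hy hxy
    rw [mem_singleton] at hx
    subst hx
    have hxB : x ∉ B := by
      rw [disjoint_singleton_left] at hd
      exact hd
    refine (Tr.leaf hB hy hxB (hsym _ _ hxy)).congr ?_ ?_
    · rw [insert_eq]
    · rw [hw y x]; abel
  | @leaf C s u v hC hu hv huv ih =>
    intro B t x y hB hd hx hy hxy
    have hvB : v ∉ B := fun h => (disjoint_left.1 hd) (mem_insert_self _ _) h
    have hCB : Disjoint C B := hd.mono_left (subset_insert _ _)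
    by_cases hxv : x = v
    · subst hxv
      have h1 : Tr adj w (insert x B) (t + w y x) := Tr.leaf hB hy hvB (hsym _ _ hxy)
      have hd' : Disjoint C (insert x B) := by
        rw [disjoint_insert_right]
        exact ⟨hv, hCB⟩
      refine (ih h1 hd' hu (mem_insert_self _ _) huv).congr ?_ ?_
      · rw [union_insert, insert_union]
      · rw [hw y x]; abel
    · have hxC : x ∈ C := by
        rcases mem_insert.1 hx with h | h
        · exact absurd h hxv
        · exact h
      have h1 := ih hB hCB hxC hy hxy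
      have h2 : v ∉ C ∪ B := by
        rw [mem_union]; rintro (h | h)
        · exact hv h
        · exact hvB h
      refine (Tr.leaf h1 (mem_union_left _ hu) h2 huv).congr ?_ ?_
      · rw [insert_union]
      · abel

/-- Attach the vertices of `Y` one after the other, in order of increasing rank. -/
theorem Tr.attach {R : Finset V} {s : G} (hR : Tr adj w R s) (r : V → ℕ) (a : V → G) :
    ∀ (k : ℕ) (Y : Finset V), Y.card = k → Disjoint R Y →
      (∀ y ∈ Y, ∃ z, (z ∈ R ∨ (z ∈ Y ∧ r z < r y)) ∧ adj z y ∧ w z y = a y) →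
      Tr adj w (R ∪ Y) (s + ∑ y ∈ Y, a y) := by
  intro k
  induction k with
  | zero =>
    intro Y hY hd _
    rw [card_eq_zero] at hY
    subst hY
    simpa using hR
  | succ k ih =>
    intro Y hY hd hp
    have hne : Y.Nonempty := by
      rw [← card_pos, hY]; omega
    obtain ⟨y, hy, hmax⟩ := Y.exists_max_image r hne
    have h1 := ih (Y.erase y) (by rw [card_erase_of_mem hy, hY]; rfl)
      (hd.mono_right (erase_subset _ _)) (by
        intro y' hy'
        obtain ⟨z, hz, hzy⟩ := hp y' (mem_of_mem_erase hy')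
        refine ⟨z, ?_, hzy⟩
        rcases hz with hz | ⟨hz, hlt⟩
        · exact Or.inl hz
        · refine Or.inr ⟨mem_erase.2 ⟨?_, hz⟩, hlt⟩
          rintro rfl
          exact absurd (hmax y' (mem_of_mem_erase hy')) (not_le.2 hlt))
    obtain ⟨z, hz, hadj, hwz⟩ := hp y hy
    have hzm : z ∈ R ∪ Y.erase y := by
      rcases hz with hz | ⟨hz, hlt⟩
      · exact mem_union_left _ hz
      · refine mem_union_right _ (mem_erase.2 ⟨?_, hz⟩)
        rintro rfl
        exact lt_irrefl _ hlt
    have hym : y ∉ R ∪ Y.erase y := by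
      rw [mem_union]; rintro (h | h)
      · exact (disjoint_left.1 hd) h hy
      · exact (notMem_erase y Y) h
    refine (Tr.leaf h1 hzm hym hadj).congr ?_ ?_
    · rw [← union_insert, insert_erase hy]
    · rw [hwz, add_assoc, sum_erase_add _ _ hy]

/-- Attach the vertices of `Y` as leaves to `R`. -/
theorem Tr.attach' {R : Finset V} {s : G} (hR : Tr adj w R s) (Y : Finset V) (a : V → G)
    (hd : Disjoint R Y) (h : ∀ y ∈ Y, ∃ z ∈ R, adj z y ∧ w z y = a y) :
    Tr adj w (R ∪ Y) (s + ∑ y ∈ Y, a y) :=
  Tr.attach hR (fun _ => 0) a _ Y rfl hd (fun y hy => by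
    obtain ⟨z, hz, hzy⟩ := h y hy
    exact ⟨z, Or.inl hz, hzy⟩)

theorem Tr.pair (u v : V) (huv : u ≠ v) (h : adj u v) : Tr adj w {u, v} (w u v) := by
  refine (Tr.leaf (Tr.single u) (mem_singleton_self u) (by simpa using huv.symm) h).congr ?_ ?_
  · exact Finset.pair_comm v u
  · simp

end basic

section map
variable {adj : V → V → Prop} {w : V → V → G} {H : Type*} [AddCommGroup H]

theorem Tr.map (φ : G →+ H) {C : Finset V} {s : G} (h : Tr adj w C s) :
    Tr adj (fun u v => φ (w u v)) C (φ s) := by
  induction h with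
  | single v => exact (Tr.single v).congr rfl (map_zero φ).symm
  | leaf _ hu hv huv ih => exact (Tr.leaf ih hu hv huv).congr rfl (map_add φ _ _).symm

theorem Tr.lift (φ : G →+ H) {C : Finset V} {t : H}
    (h : Tr adj (fun u v => φ (w u v)) C t) : ∃ s, Tr adj w C s ∧ φ s = t := by
  induction h with
  | single v => exact ⟨0, Tr.single v, map_zero φ⟩
  | leaf _ hu hv huv ih =>
    obtain ⟨s, hs, hst⟩ := ih
    exact ⟨_, Tr.leaf hs hu hv huv, by rw [map_add, hst]⟩

end map

section closure
variable {adj : V → V → Prop} {w : V → V → G}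

/-- The relation with the pair `a, b` added. -/
def addAdj (adj : V → V → Prop) (a b : V) : V → V → Prop :=
  fun u v => adj u v ∨ (u = a ∧ v = b) ∨ (u = b ∧ v = a)

/-- The weight with the pair `a, b` given weight `c`. -/
def addW (w : V → V → G) (a b : V) (c : G) : V → V → G :=
  fun u v => if (u = a ∧ v = b) ∨ (u = b ∧ v = a) then c else w u v

theorem Tr.split {a b : V} {c : G} (hab : a ≠ b) {C : Finset V} {s : G}
    (h : Tr (addAdj adj a b) (addW w a b c) C s) :
    Tr adj w C s ∨ ∃ A B s1 s2, Disjoint A B ∧ A ∪ B = C ∧ a ∈ A ∧ b ∈ B ∧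
      Tr adj w A s1 ∧ Tr adj w B s2 ∧ s = s1 + s2 + c := by
  induction h with
  | single v => exact Or.inl (Tr.single v)
  | @leaf C s u v hC hu hv huv ih =>
    by_cases hp : (u = a ∧ v = b) ∨ (u = b ∧ v = a)
    · have hwc : addW w a b c u v = c := by
        unfold addW; rw [if_pos hp]
      rcases ih with ih | ⟨A, B, s1, s2, hd, hAB, haA, hbB, -, -, -⟩
      · rcases hp with ⟨rfl, rfl⟩ | ⟨rfl, rfl⟩
        · refine Or.inr ⟨C, {v}, s, 0, ?_, ?_, hu, mem_singleton_self _, ih, Tr.single v, ?_⟩
          · rwa [disjoint_singleton_right]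
          · rw [union_comm, insert_eq]
          · rw [hwc]; abel
        · refine Or.inr ⟨{v}, C, 0, s, ?_, ?_, mem_singleton_self _, hu, Tr.single v, ih, ?_⟩
          · rwa [disjoint_singleton_left]
          · rw [insert_eq]
          · rw [hwc]; abel
      · exfalso
        apply hv
        rw [← hAB]
        rcases hp with ⟨rfl, rfl⟩ | ⟨rfl, rfl⟩
        · exact mem_union_right _ hbB
        · exact mem_union_left _ haA
    · have hwc : addW w a b c u v = w u v := by
        unfold addW; rw [if_neg hp]
      have hadj : adj u v := by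
        rcases huv with h | h
        · exact h
        · exact absurd h hp
      rcases ih with ih | ⟨A, B, s1, s2, hd, hAB, haA, hbB, hA, hB, hs⟩
      · left
        exact (Tr.leaf ih hu hv hadj).congr rfl (by rw [hwc])
      · right
        have hvA : v ∉ A := fun h => hv (hAB ▸ mem_union_left _ h)
        have hvB : v ∉ B := fun h => hv (hAB ▸ mem_union_right _ h)
        rw [← hAB, mem_union] at hu
        rcases hu with hu | hu
        · refine ⟨insert v A, B, s1 + w u v, s2, ?_, ?_, mem_insert_of_mem haA, hbB,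
            Tr.leaf hA hu hvA hadj, hB, ?_⟩
          · rw [disjoint_insert_left]; exact ⟨hvB, hd⟩
          · rw [insert_union, hAB]
          · rw [hwc, hs]; abel
        · refine ⟨A, insert v B, s1, s2 + w u v, ?_, ?_, haA, mem_insert_of_mem hbB,
            hA, Tr.leaf hB hu hvB hadj, ?_⟩
          · rw [disjoint_insert_right]; exact ⟨hvA, hd⟩
          · rw [union_insert, hAB]
          · rw [hwc, hs]; abel

/-- The closure lemma. -/
theorem Tr.closure (hsym : ∀ u v, adj u v → adj v u) (hw : ∀ u v, w u v = w v u)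
    {a b x : V} {c : G} (hab : a ≠ b) {C : Finset V} {s : G} (hx : x ∈ C)
    (hxa : adj x a) (hxb : adj x b) (hca : w x a = c) (hcb : w x b = c)
    (h : Tr (addAdj adj a b) (addW w a b c) C s) : Tr adj w C s := by
  rcases Tr.split hab h with h | ⟨A, B, s1, s2, hd, hAB, haA, hbB, hA, hB, hs⟩
  · exact h
  · rw [← hAB, mem_union] at hx
    rcases hx with hx | hx
    · exact (Tr.merge hsym hw hA hB hd hx hbB hxb).congr hAB (by rw [hs, hcb])
    · exact (Tr.merge hsym hw hA hB hd haA hx (hsym _ _ hxa)).congr hAB
        (by rw [hs, hw a x, hca])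

end closure

/-- The cut lemma. -/
theorem exists_cut {adj : V → V → Prop} {w : V → V → G} (C : Finset V) (c : G)
    (hC : C.Nonempty) (hn : ¬ Tr adj w C ((C.card - 1) • c)) :
    ∃ P ⊆ C, P.Nonempty ∧ P ≠ C ∧ ∀ u ∈ P, ∀ v ∈ C \ P, adj u v → w u v ≠ c := by
  by_contra hcon
  push_neg at hcon
  have key : ∀ k : ℕ, k + 1 ≤ C.card → ∃ P ⊆ C, P.card = k + 1 ∧ Tr adj w P (k • c) := by
    intro k
    induction k with
    | zero =>
      intro _
      obtain ⟨v, hv⟩ := hC
      exact ⟨{v}, by simpa using hv, by simp, (Tr.single v).congr rfl (by simp)⟩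
    | succ k ih =>
      intro hk
      obtain ⟨P, hPC, hPk, hP⟩ := ih (by omega)
      obtain ⟨u, hu, v, hv, huv, hwc⟩ := hcon P hPC hP.nonempty (by
        rintro rfl; omega)
      rw [mem_sdiff] at hv
      refine ⟨insert v P, ?_, ?_, (Tr.leaf hP hu hv.2 huv).congr rfl ?_⟩
      · intro z hz
        rcases mem_insert.1 hz with rfl | h
        · exact hv.1
        · exact hPC h
      · rw [card_insert_of_notMem hv.2, hPk]
      · rw [hwc, succ_nsmul]
  obtain ⟨P, hPC, hPk, hP⟩ := key (C.card - 1) (by have := hC.card_pos; omega)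
  have : P = C := eq_of_subset_of_card_le hPC (by have := hC.card_pos; omega)
  subst this
  exact hn hP

end Pool.Agent.Helper61.ZST
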